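import Mathlib

/-!
Exponential polynomials with real exponents: if such a sum is `O(x ^ β)` for every `β > 1/2`, then
it is `O(x ^ (1/2))`.
-/

set_option autoImplicit false

open Filter Topology

namespace Pool.Agent.AEC

lemma trig_zero {ι : Type} (T : Finset ι) (c : ι → ℂ) (z : ι → Circle)
    (h : Tendsto (fun n : ℕ => ∑ t ∈ T, c t * ((z t : Circle) : ℂ) ^ n) atTop (𝓝 0)) (m : ℕ) :
    ∑ t ∈ T, c t * ((z t : Circle) : ℂ) ^ m = 0 := by
  have h1 : MapClusterPt (1 : ι → Circle) atTop (z ^ · : ℕ → (ι → Circle)) :=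
    mapClusterPt_one_atTop_pow z
  let Φ : (ι → Circle) → ℂ := fun y => ∑ t ∈ T, c t * ((z t : Circle) : ℂ) ^ m * (y t : ℂ)
  have hΦ : Continuous Φ := by
    apply continuous_finsetSum
    intro t _
    fun_prop
  have h2 := h1.continuousAt_comp (hΦ.continuousAt (x := 1))
  have h3 : (Φ ∘ (z ^ · : ℕ → (ι → Circle))) = fun n : ℕ =>
      ∑ t ∈ T, c t * ((z t : Circle) : ℂ) ^ (n + m) := by
    funext n
    simp only [Φ, Function.comp, Pi.pow_apply, Circle.coe_pow]
    refine Finset.sum_congr rfl fun t _ => ?_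
    rw [pow_add]; ring
  rw [h3] at h2
  have h4 : Tendsto (fun n : ℕ => ∑ t ∈ T, c t * ((z t : Circle) : ℂ) ^ (n + m)) atTop (𝓝 0) :=
    h.comp (tendsto_add_atTop_nat m)
  have h5 : Φ 1 = 0 := by
    have h6 : NeBot (𝓝 (Φ 1) ⊓ 𝓝 0) := by
      have h7 : NeBot (𝓝 (Φ 1) ⊓ map (fun n : ℕ =>
          ∑ t ∈ T, c t * ((z t : Circle) : ℂ) ^ (n + m)) atTop) := h2
      exact h7.mono (inf_le_inf_left _ h4)
    exact eq_of_nhds_neBot h6
  simpa [Φ] using h5

/-- One term of an asymptotic expansion, in the variable `2 n`. -/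
noncomputable def term (c : ℂ) (q α : ℝ) (n : ℕ) : ℂ :=
  c * Complex.exp (2 * Real.pi * Complex.I * (2 * n) * q) * (((2 * (n : ℝ)) ^ α : ℝ) : ℂ)

lemma exp_circle (q : ℝ) (n : ℕ) : Complex.exp (2 * Real.pi * Complex.I * (2 * n) * q) =
    ((Circle.exp (4 * Real.pi * q) : Circle) : ℂ) ^ n := by
  rw [Circle.coe_exp, ← Complex.exp_nat_mul]
  congr 1
  push_cast
  ring

lemma norm_term (c : ℂ) (q α : ℝ) (n : ℕ) : ‖term c q α n‖ = ‖c‖ * (2 * (n : ℝ)) ^ α := by
  rw [term, norm_mul, norm_mul, exp_circle, norm_pow, Circle.norm_coe, one_pow, mul_one,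
    Complex.norm_real, Real.norm_eq_abs, abs_of_nonneg (by positivity)]

lemma tendsto_two_mul : Tendsto (fun n : ℕ => 2 * (n : ℝ)) atTop atTop :=
  tendsto_natCast_atTop_atTop.const_mul_atTop two_pos

lemma growth {ι : Type} (c : ι → ℂ) (q α : ι → ℝ) (T : Finset ι)
    (h : ∀ β : ℝ, 1 / 2 < β → Tendsto
      (fun n : ℕ => (∑ t ∈ T, term (c t) (q t) (α t) n) * (((2 * (n : ℝ)) ^ (-β) : ℝ) : ℂ))
      atTop (𝓝 0)) :
    ∃ C : ℝ, ∀ n : ℕ, 1 ≤ n → ‖∑ t ∈ T, term (c t) (q t) (α t) n‖ ≤ C * (2 * (n : ℝ)) ^ (1 / 2 : ℝ)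
      := by
  classical
  induction T using Finset.strongInduction with
  | H T ih =>
  by_cases hT : ∀ t ∈ T, α t ≤ 1 / 2
  · refine ⟨∑ t ∈ T, ‖c t‖, fun n hn => ?_⟩
    have h2n : (1 : ℝ) ≤ 2 * n := by
      have : (1 : ℝ) ≤ n := by exact_mod_cast hn
      linarith
    refine (norm_sum_le _ _).trans ?_
    rw [Finset.sum_mul]
    refine Finset.sum_le_sum fun t ht => ?_
    rw [norm_term]
    exact mul_le_mul_of_nonneg_left (Real.rpow_le_rpow_of_exponent_le h2n (hT t ht))
      (norm_nonneg _)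
  · push Not at hT
    obtain ⟨t1, ht1, ht1'⟩ := hT
    obtain ⟨t0, ht0, hmax⟩ := Finset.exists_max_image T α ⟨t1, ht1⟩
    have hα0 : 1 / 2 < α t0 := lt_of_lt_of_le ht1' (hmax t1 ht1)
    set G := T.filter (fun t => α t = α t0) with hG
    set R := T.filter (fun t => ¬ α t = α t0) with hR
    have hRT : R ⊂ T := by
      rw [Finset.ssubset_iff_of_subset (Finset.filter_subset _ _)]
      exact ⟨t0, ht0, by simp⟩
    have hsplit : ∀ n : ℕ, ∑ t ∈ T, term (c t) (q t) (α t) n =
        ∑ t ∈ G, term (c t) (q t) (α t) n + ∑ t ∈ R, term (c t) (q t) (α t) n := fun n =>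
      (Finset.sum_filter_add_sum_filter_not T _ _).symm
    have hRlim : Tendsto (fun n : ℕ => (∑ t ∈ R, term (c t) (q t) (α t) n) *
        (((2 * (n : ℝ)) ^ (-(α t0)) : ℝ) : ℂ)) atTop (𝓝 0) := by
      simp_rw [Finset.sum_mul]
      rw [show (0 : ℂ) = ∑ t ∈ R, 0 by simp]
      refine tendsto_finsetSum _ fun t ht => ?_
      have ht' : α t < α t0 := by
        rw [hR, Finset.mem_filter] at ht
        exact lt_of_le_of_ne (hmax t ht.1) ht.2
      rw [tendsto_zero_iff_norm_tendsto_zero]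
      have h1 : Tendsto (fun n : ℕ => ‖c t‖ * (2 * (n : ℝ)) ^ (-(α t0 - α t))) atTop (𝓝 0) := by
        rw [show (0 : ℝ) = ‖c t‖ * 0 by simp]
        exact ((tendsto_rpow_neg_atTop (sub_pos.mpr ht')).comp tendsto_two_mul).const_mul _
      refine h1.congr' ?_
      filter_upwards [eventually_ge_atTop 1] with n hn
      have h2n : (0 : ℝ) < 2 * n := by
        have : (1 : ℝ) ≤ n := by exact_mod_cast hn
        linarith
      rw [norm_mul, norm_term, Complex.norm_real, Real.norm_eq_abs, abs_of_nonneg (by positivity),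
        mul_assoc, ← Real.rpow_add h2n]
      congr 2
      ring
    have hGlim : Tendsto (fun n : ℕ => ∑ t ∈ G, c t *
        ((Circle.exp (4 * Real.pi * q t) : Circle) : ℂ) ^ n) atTop (𝓝 0) := by
      have h1 := (h (α t0) hα0).sub hRlim
      rw [sub_zero] at h1
      refine h1.congr' ?_
      filter_upwards [eventually_ge_atTop 1] with n hn
      have h2n : (0 : ℝ) < 2 * n := by
        have : (1 : ℝ) ≤ n := by exact_mod_cast hn
        linarith
      rw [hsplit, add_mul, add_sub_cancel_right, Finset.sum_mul]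
      refine Finset.sum_congr rfl fun t ht => ?_
      have ht' : α t = α t0 := by
        rw [hG, Finset.mem_filter] at ht
        exact ht.2
      rw [term, ht', exp_circle, mul_assoc, ← Complex.ofReal_mul, ← Real.rpow_add h2n,
        add_neg_cancel, Real.rpow_zero]
      simp
    have hG0 : ∀ n : ℕ, ∑ t ∈ G, term (c t) (q t) (α t) n = 0 := by
      intro n
      have h1 := trig_zero G c (fun t => Circle.exp (4 * Real.pi * q t)) hGlim n
      have h2 : ∑ t ∈ G, term (c t) (q t) (α t) n = (∑ t ∈ G, c t *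
          ((Circle.exp (4 * Real.pi * q t) : Circle) : ℂ) ^ n) *
          (((2 * (n : ℝ)) ^ (α t0) : ℝ) : ℂ) := by
        rw [Finset.sum_mul]
        refine Finset.sum_congr rfl fun t ht => ?_
        have ht' : α t = α t0 := by
          rw [hG, Finset.mem_filter] at ht
          exact ht.2
        rw [term, ht', exp_circle]
      rw [h2, h1, zero_mul]
    have hF : ∀ n : ℕ, ∑ t ∈ T, term (c t) (q t) (α t) n =
        ∑ t ∈ R, term (c t) (q t) (α t) n := fun n => by rw [hsplit, hG0, zero_add]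
    simp_rw [hF] at h ⊢
    exact ih R hRT h

end Pool.Agent.AEC
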