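import Pool.Agent.AEC.Formula
import Pool.Agent.AEC.Asym

/-!
Growth of the invariant of the doubled Hopf link, and the conclusion.
-/

set_option autoImplicit false

open Filter Topology

namespace Pool.Agent.AEC

/-- The real number `√(2 / (2 n)) * ∑_(m < n) 1 / sin (π (2 m + 1) / (2 n))`. -/
noncomputable def Zr (n : ℕ) : ℝ :=
  Real.sqrt (2 / (2 * (n : ℝ))) *
    ∑ m ∈ Finset.range n, 1 / Real.sin (Real.pi * (2 * m + 1) / (2 * n))

lemma wrt_eq_Zr (s : ℕ) : wrtSphere (2 * s) s doubledHopf = ((Zr (s + 1) : ℝ) : ℂ) := by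
  rw [wrt_formula, Zr]
  push_cast
  have h : (2 * ((s : ℝ) + 1)) = 2 * s + 2 := by ring
  have h' : (2 * ((s : ℂ) + 1)) = 2 * s + 2 := by ring
  rw [h, h']

lemma sum_lower {n : ℕ} (hn : 1 ≤ n) : (n : ℝ) / Real.pi * Real.log (n + 1) ≤
    ∑ m ∈ Finset.range n, 1 / Real.sin (Real.pi * (2 * m + 1) / (2 * n)) := by
  have hpi := Real.pi_pos
  have hn0 : (0 : ℝ) < n := by exact_mod_cast hn
  have h1 := log_add_one_le_harmonic n
  have h2 : ((harmonic n : ℚ) : ℝ) = ∑ m ∈ Finset.range n, ((m : ℝ) + 1)⁻¹ := by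
    rw [harmonic]
    push_cast
    rfl
  rw [h2] at h1
  have h3 : (n : ℝ) / Real.pi * Real.log (n + 1) ≤
      (n : ℝ) / Real.pi * ∑ m ∈ Finset.range n, ((m : ℝ) + 1)⁻¹ := by
    apply mul_le_mul_of_nonneg_left _ (by positivity)
    exact_mod_cast h1
  refine h3.trans ?_
  rw [Finset.mul_sum]
  refine Finset.sum_le_sum fun m hm => ?_
  have hm' : m < n := Finset.mem_range.mp hm
  have hm1 : (m : ℝ) + 1 ≤ n := by exact_mod_cast hm'
  have hm0 : (0 : ℝ) ≤ m := Nat.cast_nonneg _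
  have hx0 : 0 < Real.pi * (2 * m + 1) / (2 * n) := by positivity
  have hxpi : Real.pi * (2 * m + 1) / (2 * n) < Real.pi := by
    rw [div_lt_iff₀ (by positivity)]
    nlinarith
  have hs := Real.sin_lt hx0
  have hs0 := Real.sin_pos_of_pos_of_lt_pi hx0 hxpi
  calc (n : ℝ) / Real.pi * ((m : ℝ) + 1)⁻¹ = 1 / (Real.pi * (2 * m + 2) / (2 * n)) := by
        field_simp
    _ ≤ 1 / (Real.pi * (2 * m + 1) / (2 * n)) := by
        apply one_div_le_one_div_of_le hx0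
        gcongr
        norm_num
    _ ≤ 1 / Real.sin (Real.pi * (2 * m + 1) / (2 * n)) :=
        one_div_le_one_div_of_le hs0 hs.le

lemma inv_sin_le {x : ℝ} (h0 : 0 < x) (h1 : x < Real.pi) :
    1 / Real.sin x ≤ Real.pi / 2 * (1 / x + 1 / (Real.pi - x)) := by
  have hpi := Real.pi_pos
  have hs0 := Real.sin_pos_of_pos_of_lt_pi h0 h1
  have hy0 : 0 < Real.pi - x := by linarith
  rcases le_total x (Real.pi / 2) with h | h
  · have h2 := Real.mul_le_sin h0.le h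
    have h3 : 1 / Real.sin x ≤ 1 / (2 / Real.pi * x) := by
      apply one_div_le_one_div_of_le _ h2
      positivity
    have h4 : 1 / (2 / Real.pi * x) = Real.pi / 2 * (1 / x) := by field_simp
    rw [h4] at h3
    have h5 : 0 ≤ Real.pi / 2 * (1 / (Real.pi - x)) := by positivity
    linarith [mul_add (Real.pi / 2) (1 / x) (1 / (Real.pi - x))]
  · have h2 := Real.mul_le_sin hy0.le (by linarith)
    rw [Real.sin_pi_sub] at h2
    have h3 : 1 / Real.sin x ≤ 1 / (2 / Real.pi * (Real.pi - x)) := by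
      apply one_div_le_one_div_of_le _ h2
      positivity
    have h4 : 1 / (2 / Real.pi * (Real.pi - x)) = Real.pi / 2 * (1 / (Real.pi - x)) := by
      field_simp
    rw [h4] at h3
    have h5 : 0 ≤ Real.pi / 2 * (1 / x) := by positivity
    linarith [mul_add (Real.pi / 2) (1 / x) (1 / (Real.pi - x))]

lemma sum_upper {n : ℕ} (hn : 1 ≤ n) :
    ∑ m ∈ Finset.range n, 1 / Real.sin (Real.pi * (2 * m + 1) / (2 * n)) ≤
      2 * n * (1 + Real.log n) := by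
  have hpi := Real.pi_pos
  have hn0 : (0 : ℝ) < n := by exact_mod_cast hn
  have h1 := harmonic_le_one_add_log n
  have h2 : ((harmonic n : ℚ) : ℝ) = ∑ m ∈ Finset.range n, ((m : ℝ) + 1)⁻¹ := by
    rw [harmonic]
    push_cast
    rfl
  rw [h2] at h1
  have h3 : ∑ m ∈ Finset.range n, 1 / Real.sin (Real.pi * (2 * m + 1) / (2 * n)) ≤
      ∑ m ∈ Finset.range n, ((n : ℝ) * ((m : ℝ) + 1)⁻¹ + n * (((n - 1 - m : ℕ) : ℝ) + 1)⁻¹) := by
    refine Finset.sum_le_sum fun m hm => ?_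
    have hm' : m < n := Finset.mem_range.mp hm
    have hm1 : (m : ℝ) + 1 ≤ n := by exact_mod_cast hm'
    have hm0 : (0 : ℝ) ≤ m := Nat.cast_nonneg _
    have hx0 : 0 < Real.pi * (2 * m + 1) / (2 * n) := by positivity
    have hxpi : Real.pi * (2 * m + 1) / (2 * n) < Real.pi := by
      rw [div_lt_iff₀ (by positivity)]
      nlinarith
    refine (inv_sin_le hx0 hxpi).trans ?_
    have hr : ((n - 1 - m : ℕ) : ℝ) = n - 1 - m := by
      rw [Nat.cast_sub (by omega), Nat.cast_sub (by omega)]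
      push_cast; ring
    have e1 : Real.pi / 2 * (1 / (Real.pi * (2 * m + 1) / (2 * n))) = n * (2 * (m : ℝ) + 1)⁻¹ := by
      field_simp
    have e2 : Real.pi / 2 * (1 / (Real.pi - Real.pi * (2 * m + 1) / (2 * n))) =
        n * (2 * (((n - 1 - m : ℕ) : ℝ)) + 1)⁻¹ := by
      have h4 : Real.pi - Real.pi * (2 * m + 1) / (2 * n) =
          Real.pi * (2 * (((n - 1 - m : ℕ) : ℝ)) + 1) / (2 * n) := by
        rw [hr]; field_simp; ring
      have h5 : (0 : ℝ) < 2 * (((n - 1 - m : ℕ) : ℝ)) + 1 := by positivity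
      rw [h4]
      field_simp
    rw [mul_add, e1, e2]
    have h5 : (0 : ℝ) ≤ ((n - 1 - m : ℕ) : ℝ) := Nat.cast_nonneg _
    gcongr
    · linarith
    · linarith
  refine h3.trans ?_
  rw [Finset.sum_add_distrib, ← Finset.mul_sum, ← Finset.mul_sum,
    Finset.sum_range_reflect (fun m : ℕ => ((m : ℝ) + 1)⁻¹) n]
  nlinarith

lemma sqrt_eq {n : ℕ} (hn : 1 ≤ n) : Real.sqrt (2 / (2 * (n : ℝ))) * n = Real.sqrt n := by
  have hn0 : (0 : ℝ) < n := by exact_mod_cast hn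
  have h1 : 2 / (2 * (n : ℝ)) = (n : ℝ)⁻¹ := by field_simp
  rw [h1, Real.sqrt_inv]
  have h2 : Real.sqrt n ≠ 0 := (Real.sqrt_pos.mpr hn0).ne'
  have h3 : Real.sqrt n * Real.sqrt n = n := Real.mul_self_sqrt hn0.le
  field_simp
  nlinarith

lemma Zr_lower {n : ℕ} (hn : 1 ≤ n) : Real.sqrt n / Real.pi * Real.log (n + 1) ≤ Zr n := by
  have h := mul_le_mul_of_nonneg_left (sum_lower hn) (Real.sqrt_nonneg (2 / (2 * (n : ℝ))))
  have h1 := sqrt_eq hn
  rw [Zr]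
  calc Real.sqrt n / Real.pi * Real.log (n + 1) =
      Real.sqrt (2 / (2 * (n : ℝ))) * ((n : ℝ) / Real.pi * Real.log (n + 1)) := by
        rw [← h1]; ring
    _ ≤ _ := h

lemma Zr_upper {n : ℕ} (hn : 1 ≤ n) : Zr n ≤ 2 * Real.sqrt n * (1 + Real.log n) := by
  have h := mul_le_mul_of_nonneg_left (sum_upper hn) (Real.sqrt_nonneg (2 / (2 * (n : ℝ))))
  have h1 := sqrt_eq hn
  rw [Zr]
  calc _ ≤ Real.sqrt (2 / (2 * (n : ℝ))) * (2 * n * (1 + Real.log n)) := h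
    _ = 2 * Real.sqrt n * (1 + Real.log n) := by rw [← h1]; ring

lemma Zr_nonneg {n : ℕ} (hn : 1 ≤ n) : 0 ≤ Zr n := by
  refine le_trans ?_ (Zr_lower hn)
  have : 0 ≤ Real.log ((n : ℝ) + 1) := Real.log_nonneg (by
    have : (0 : ℝ) ≤ n := Nat.cast_nonneg _
    linarith)
  have := Real.pi_pos
  positivity

/-- The abstract form: no expansion. -/
theorem no_expansion (Z : ℕ → ℂ) (hZ : ∀ s, Z s = ((Zr (s + 1) : ℝ) : ℂ)) :
    ¬ HasExpansion 2 Z := by
  rintro ⟨v, q, u, d, b, a, D, h⟩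
  obtain ⟨P, hP⟩ := exists_nat_ge (2 * D)
  obtain ⟨C, hC⟩ := h P
  -- the terms
  let T : Finset ((Σ j : Fin v, Fin (u j)) × ℕ) := Finset.univ ×ˢ Finset.range (P + 1)
  let cc : ((Σ j : Fin v, Fin (u j)) × ℕ) → ℂ := fun t =>
    b t.1.1 t.1.2 * (if t.2 = 0 then 1 else a t.1.1 t.1.2 t.2)
  let qq : ((Σ j : Fin v, Fin (u j)) × ℕ) → ℝ := fun t => q t.1.1
  let αα : ((Σ j : Fin v, Fin (u j)) × ℕ) → ℝ := fun t => d t.1.1 t.1.2 - (t.2 : ℝ) / 2
  have hsum : ∀ s : ℕ, ∑ j, Complex.exp (2 * Real.pi * Complex.I * (s * (2 : ℕ) + 2) * q j) *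
          ∑ r, ((((s : ℝ) * (2 : ℕ) + 2) ^ (d j r) : ℝ) : ℂ) * b j r *
            (1 + ∑ p ∈ Finset.Icc 1 P, a j r p *
              ((((s : ℝ) * (2 : ℕ) + 2) ^ (-(p : ℝ) / 2) : ℝ) : ℂ)) =
      ∑ t ∈ T, term (cc t) (qq t) (αα t) (s + 1) := by
    intro s
    have hpos : (0 : ℝ) < 2 * ((s + 1 : ℕ) : ℝ) := by positivity
    have e1 : ((s : ℝ) * (2 : ℕ) + 2) = 2 * ((s + 1 : ℕ) : ℝ) := by push_cast; ring
    have e2 : ((s : ℂ) * (2 : ℕ) + 2) = 2 * ((s + 1 : ℕ) : ℂ) := by push_cast; ring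
    rw [e1, e2, Finset.sum_product, Fintype.sum_sigma]
    refine Finset.sum_congr rfl fun j _ => ?_
    rw [Finset.mul_sum]
    refine Finset.sum_congr rfl fun r _ => ?_
    have e3 : (1 + ∑ p ∈ Finset.Icc 1 P, a j r p *
              (((2 * ((s + 1 : ℕ) : ℝ)) ^ (-(p : ℝ) / 2) : ℝ) : ℂ)) =
        ∑ p ∈ Finset.range (P + 1), (if p = 0 then 1 else a j r p) *
          (((2 * ((s + 1 : ℕ) : ℝ)) ^ (-(p : ℝ) / 2) : ℝ) : ℂ) := by
      rw [Finset.range_eq_Ico, Finset.sum_eq_sum_Ico_succ_bot (by omega : 0 < P + 1)]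
      congr 1
      · simp
      · refine Finset.sum_congr ?_ fun p hp => ?_
        · ext x; simp [Finset.mem_Icc, Finset.mem_Ico]
        · have : p ≠ 0 := by
            have := (Finset.mem_Ico.mp hp).1
            omega
          rw [if_neg this]
    rw [e3, Finset.mul_sum, Finset.mul_sum]
    refine Finset.sum_congr rfl fun p _ => ?_
    have e4 : (2 * ((s + 1 : ℕ) : ℝ)) ^ (d j r - (p : ℝ) / 2) =
        (2 * ((s + 1 : ℕ) : ℝ)) ^ (d j r) * (2 * ((s + 1 : ℕ) : ℝ)) ^ (-(p : ℝ) / 2) := by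
      rw [← Real.rpow_add hpos]
      congr 1
      ring
    simp only [term, cc, qq, αα]
    rw [e4, Complex.ofReal_mul]
    ring
  have hexp : D - ((P : ℝ) + 1) / 2 ≤ 0 := by linarith
  have hbound : ∀ n : ℕ, 2 ≤ n →
      ‖((Zr n : ℝ) : ℂ) - ∑ t ∈ T, term (cc t) (qq t) (αα t) n‖ ≤ |C| := by
    intro n hn
    obtain ⟨s, rfl⟩ : ∃ s, n = s + 1 := ⟨n - 1, by omega⟩
    have h1 := hC s (by omega)
    rw [hsum s, hZ] at h1
    refine h1.trans ?_
    have h2 : (1 : ℝ) ≤ (s : ℝ) * (2 : ℕ) + 2 := by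
      have : (0 : ℝ) ≤ (s : ℝ) * (2 : ℕ) := by positivity
      linarith
    have h3 : ((s : ℝ) * (2 : ℕ) + 2) ^ (D - ((P : ℝ) + 1) / 2) ≤ 1 :=
      Real.rpow_le_one_of_one_le_of_nonpos h2 hexp
    have h4 : 0 ≤ ((s : ℝ) * (2 : ℕ) + 2) ^ (D - ((P : ℝ) + 1) / 2) := by positivity
    calc C * ((s : ℝ) * (2 : ℕ) + 2) ^ (D - ((P : ℝ) + 1) / 2) ≤
        |C| * ((s : ℝ) * (2 : ℕ) + 2) ^ (D - ((P : ℝ) + 1) / 2) :=
          mul_le_mul_of_nonneg_right (le_abs_self C) h4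
      _ ≤ |C| * 1 := mul_le_mul_of_nonneg_left h3 (abs_nonneg C)
      _ = |C| := mul_one _
  -- growth hypothesis
  have hgr : ∀ β : ℝ, 1 / 2 < β → Tendsto
      (fun n : ℕ => (∑ t ∈ T, term (cc t) (qq t) (αα t) n) *
        (((2 * (n : ℝ)) ^ (-β) : ℝ) : ℂ)) atTop (𝓝 0) := by
    intro β hβ
    rw [tendsto_zero_iff_norm_tendsto_zero]
    have hlim : Tendsto (fun n : ℕ => (2 * Real.sqrt n * (1 + Real.log n) + |C|) *
        (2 * (n : ℝ)) ^ (-β)) atTop (𝓝 0) := by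
      have hε : 0 < β - 1 / 2 := by linarith
      have l1 : Tendsto (fun x : ℝ => x ^ (-(β - 1 / 2))) atTop (𝓝 0) := tendsto_rpow_neg_atTop hε
      have l2 : Tendsto (fun x : ℝ => Real.log x / x ^ (β - 1 / 2)) atTop (𝓝 0) :=
        (isLittleO_log_rpow_atTop hε).tendsto_div_nhds_zero
      have l3 : Tendsto (fun x : ℝ => x ^ (-β)) atTop (𝓝 0) :=
        tendsto_rpow_neg_atTop (by linarith)
      have l4 : Tendsto (fun x : ℝ => (2 : ℝ) ^ (-β) * (2 * (x ^ (-(β - 1 / 2)) +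
          Real.log x / x ^ (β - 1 / 2)) + |C| * x ^ (-β))) atTop (𝓝 0) := by
        have := ((((l1.add l2).const_mul 2).add (l3.const_mul |C|)).const_mul ((2 : ℝ) ^ (-β)))
        simpa using this
      refine (l4.comp tendsto_natCast_atTop_atTop).congr' ?_
      filter_upwards [eventually_ge_atTop 1] with n hn
      have hn0 : (0 : ℝ) < n := by exact_mod_cast hn
      simp only [Function.comp]
      have e1 : (2 * (n : ℝ)) ^ (-β) = (2 : ℝ) ^ (-β) * (n : ℝ) ^ (-β) :=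
        Real.mul_rpow (by norm_num) hn0.le
      have e2 : Real.sqrt n * (n : ℝ) ^ (-β) = (n : ℝ) ^ (-(β - 1 / 2)) := by
        rw [Real.sqrt_eq_rpow, ← Real.rpow_add hn0]
        congr 1; ring
      have e3 : Real.log n / (n : ℝ) ^ (β - 1 / 2) = Real.log n * (n : ℝ) ^ (-(β - 1 / 2)) := by
        rw [Real.rpow_neg hn0.le, div_eq_mul_inv]
      rw [e1, e3, ← e2]
      ring
    refine squeeze_zero' (Eventually.of_forall fun n => norm_nonneg _) ?_ hlim
    filter_upwards [eventually_ge_atTop 2] with n hn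
    rw [norm_mul, Complex.norm_real, Real.norm_eq_abs, abs_of_nonneg (by positivity)]
    apply mul_le_mul_of_nonneg_right _ (by positivity)
    have h1 := hbound n hn
    have h2 : ‖((Zr n : ℝ) : ℂ)‖ ≤ 2 * Real.sqrt n * (1 + Real.log n) := by
      rw [Complex.norm_real, Real.norm_eq_abs, abs_of_nonneg (Zr_nonneg (by omega))]
      exact Zr_upper (by omega)
    calc ‖∑ t ∈ T, term (cc t) (qq t) (αα t) n‖ =
        ‖((Zr n : ℝ) : ℂ) - (((Zr n : ℝ) : ℂ) - ∑ t ∈ T, term (cc t) (qq t) (αα t) n)‖ := by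
          congr 1; ring
      _ ≤ ‖((Zr n : ℝ) : ℂ)‖ + ‖((Zr n : ℝ) : ℂ) - ∑ t ∈ T, term (cc t) (qq t) (αα t) n‖ :=
          norm_sub_le _ _
      _ ≤ _ := add_le_add h2 h1
  obtain ⟨C', hC'⟩ := growth cc qq αα T hgr
  -- contradiction
  have hfin : ∀ n : ℕ, 2 ≤ n → Real.sqrt n / Real.pi * Real.log (n + 1) ≤
      |C| + C' * (2 * (n : ℝ)) ^ (1 / 2 : ℝ) := by
    intro n hn
    refine (Zr_lower (by omega)).trans ?_
    have h1 := hbound n hn
    have h2 := hC' n (by omega)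
    calc Zr n ≤ ‖((Zr n : ℝ) : ℂ)‖ := by
          rw [Complex.norm_real, Real.norm_eq_abs]; exact le_abs_self _
      _ = ‖(((Zr n : ℝ) : ℂ) - ∑ t ∈ T, term (cc t) (qq t) (αα t) n) +
            ∑ t ∈ T, term (cc t) (qq t) (αα t) n‖ := by congr 1; ring
      _ ≤ ‖(((Zr n : ℝ) : ℂ) - ∑ t ∈ T, term (cc t) (qq t) (αα t) n)‖ +
            ‖∑ t ∈ T, term (cc t) (qq t) (αα t) n‖ := norm_add_le _ _
      _ ≤ _ := add_le_add h1 h2
  have hlog : Tendsto (fun n : ℕ => Real.log ((n : ℝ) + 1)) atTop atTop :=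
    Real.tendsto_log_atTop.comp (tendsto_atTop_add_const_right _ _ tendsto_natCast_atTop_atTop)
  obtain ⟨n, hn, hn2⟩ := ((hlog.eventually_gt_atTop
    (Real.pi * (|C| + C' * Real.sqrt 2))).and (eventually_ge_atTop 2)).exists
  have h1 := hfin n hn2
  have hn1 : (1 : ℝ) ≤ n := by exact_mod_cast (by omega : 1 ≤ n)
  have hsq1 : 1 ≤ Real.sqrt n := by
    rw [show (1 : ℝ) = Real.sqrt 1 by simp]
    exact Real.sqrt_le_sqrt hn1
  have h2 : (2 * (n : ℝ)) ^ (1 / 2 : ℝ) = Real.sqrt 2 * Real.sqrt n := by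
    rw [← Real.sqrt_eq_rpow, Real.sqrt_mul (by norm_num)]
  rw [h2] at h1
  have hpi := Real.pi_pos
  have h3 : |C| ≤ |C| * Real.sqrt n := le_mul_of_one_le_right (abs_nonneg C) hsq1
  have h4 : Real.sqrt n / Real.pi * Real.log (n + 1) ≤
      Real.sqrt n * (|C| + C' * Real.sqrt 2) := by
    calc _ ≤ |C| + C' * (Real.sqrt 2 * Real.sqrt n) := h1
      _ ≤ |C| * Real.sqrt n + C' * (Real.sqrt 2 * Real.sqrt n) := by linarith
      _ = _ := by ring
  have h5 : Real.sqrt n * (Real.log (n + 1)) ≤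
      Real.sqrt n * (Real.pi * (|C| + C' * Real.sqrt 2)) := by
    have := mul_le_mul_of_nonneg_left h4 hpi.le
    calc _ = Real.pi * (Real.sqrt n / Real.pi * Real.log (n + 1)) := by field_simp
      _ ≤ _ := this
      _ = _ := by ring
  have h6 := le_of_mul_le_mul_left h5 (by linarith)
  linarith

end Pool.Agent.AEC
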