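import Pool.Agent.AEC.Rep

/-!
The braid word `doubledHopf` as a product of R-matrices, and intertwining properties.
-/

set_option autoImplicit false
set_option linter.unusedSectionVars false
set_option linter.unusedSimpArgs false

open Matrix

namespace Pool.Agent.AEC

variable (K s : ℕ)

/-- Cartan part of the R-matrix. -/
noncomputable def phi (a b : Fin (s + 1)) : ℂ := vpow K (wt s a * wt s b / 2)

/-- R-matrix in the tensor factors `i`, `j`. -/
noncomputable def RR {ι : Type} [Fintype ι] [DecidableEq ι] (i j : ι) :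
    Matrix (ι → Fin (s + 1)) (ι → Fin (s + 1)) ℂ :=
  twoSite (phi K s) (rcoef K) (s + 1) (opE K s) (opF K s) i j

lemma Rmat_apply (p r : Fin (s + 1) × Fin (s + 1)) :
    Rmat K s p r = phi K s p.1 p.2 * ∑ l ∈ Finset.range (s + 1),
      rcoef K l * ((opE K s ^ l) p.1 r.1 * (opF K s ^ l) p.2 r.2) := by
  rw [Rmat, Matrix.diagonal_mul, Matrix.sum_apply]
  rfl

lemma RR_apply {ι : Type} [Fintype ι] [DecidableEq ι] {i j : ι} (hij : i ≠ j)
    (f g : ι → Fin (s + 1)) :
    RR K s i j f g = if ∀ k, k ≠ i → k ≠ j → f k = g k then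
      Rmat K s (f i, f j) (g i, g j) else 0 := by
  rw [RR, twoSite, Matrix.diagonal_mul, Matrix.sum_apply, Rmat_apply]
  simp only [Matrix.smul_apply, ← op_pow, op_mul_op_ne i j hij, smul_eq_mul]
  split_ifs with h
  · rfl
  · simp

lemma braidGen_eq {m : ℕ} (i : Fin m) :
    braidGen K s i = permM (Equiv.swap i.castSucc i.succ) * RR K s i.castSucc i.succ := by
  have hne : i.castSucc ≠ i.succ := by
    intro h; have := congrArg Fin.val h; simp at this
  ext f g
  rw [permM_mul_apply, RR_apply K s hne]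
  simp only [braidGen, braiding, Matrix.of_apply, Function.comp_apply, Equiv.swap_apply_left,
    Equiv.swap_apply_right]
  have : (∀ k, k ≠ i.castSucc → k ≠ i.succ → f k = g k) ↔
      (∀ k, k ≠ i.castSucc → k ≠ i.succ → f ((Equiv.swap i.castSucc i.succ) k) = g k) := by
    constructor
    · intro h k h1 h2; rw [Equiv.swap_apply_of_ne_of_ne h1 h2]; exact h k h1 h2
    · intro h k h1 h2; have := h k h1 h2; rwa [Equiv.swap_apply_of_ne_of_ne h1 h2] at this
  by_cases hc : ∀ k, k ≠ i.castSucc → k ≠ i.succ → f k = g k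
  · rw [if_pos hc, if_pos (this.mp hc)]
  · rw [if_neg hc, if_neg (fun h' => hc (this.mpr h'))]

section four

/-- The action of the pure braid `(σ_2 σ_1 σ_3 σ_2)^2` as a product of R-matrices. -/
noncomputable def MM : Matrix (Fin 4 → Fin (s + 1)) (Fin 4 → Fin (s + 1)) ℂ :=
  (RR K s 2 1 * RR K s 2 0 * RR K s 3 1 * RR K s 3 0) *
    (RR K s 0 3 * RR K s 0 2 * RR K s 1 3 * RR K s 1 2)

lemma RR_mul_permM {ι : Type} [Fintype ι] [DecidableEq ι] (i j : ι) (π : Equiv.Perm ι) :
    RR K s i j * permM π = permM π * RR K s (π.symm i) (π.symm j) :=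
  twoSite_mul_permM _ _ _ _ _ _ _ _

lemma RR_mul_permM_assoc {ι : Type} [Fintype ι] [DecidableEq ι] (i j i' j' : ι)
    (π : Equiv.Perm ι) (hi : π.symm i = i') (hj : π.symm j = j')
    (X : Matrix (ι → Fin (s + 1)) (ι → Fin (s + 1)) ℂ) :
    RR K s i j * (permM π * X) = permM π * (RR K s i' j' * X) := by
  subst hi hj
  rw [← mul_assoc, RR_mul_permM, mul_assoc]

lemma RR_comm_disj {ι : Type} [Fintype ι] [DecidableEq ι] {i j k l : ι}
    (hik : i ≠ k) (hil : i ≠ l) (hjk : j ≠ k) (hjl : j ≠ l) :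
    RR K s i j * RR K s k l = RR K s k l * RR K s i j := by
  have hE : ∀ (a b : ι) (A B : Matrix (Fin (s + 1)) (Fin (s + 1)) ℂ), a ≠ b →
      Commute (op a A) (op b B) := fun a b A B h => op_comm a b h A B
  have hD : ∀ (a b c : ι) (A : Matrix (Fin (s + 1)) (Fin (s + 1)) ℂ), a ≠ c → b ≠ c →
      Commute (Matrix.diagonal (fun f : ι → Fin (s + 1) => phi K s (f a) (f b))) (op c A) := by
    intro a b c A hac hbc
    ext f g
    rw [Matrix.diagonal_mul, Matrix.mul_diagonal, op_apply]
    split_ifs with h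
    · rw [h a hac, h b hbc, mul_comm]
    · simp
  have hDD : Commute (Matrix.diagonal (fun f : ι → Fin (s + 1) => phi K s (f i) (f j)))
      (Matrix.diagonal (fun f : ι → Fin (s + 1) => phi K s (f k) (f l))) := by
    rw [commute_iff_eq, Matrix.diagonal_mul_diagonal, Matrix.diagonal_mul_diagonal]
    congr 1
    funext f
    ring
  change Commute (RR K s i j) (RR K s k l)
  unfold RR twoSite
  apply Commute.mul_left
  · apply Commute.mul_right hDD
    apply Commute.sum_right
    intro n _
    apply Commute.smul_right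
    exact ((hD i j k _ hik hjk).pow_right n).mul_right ((hD i j l _ hil hjl).pow_right n)
  · apply Commute.sum_left
    intro n _
    apply Commute.smul_left
    apply Commute.mul_right
    · exact (((hD k l i _ hik.symm hil.symm).pow_right n).mul_right
        ((hD k l j _ hjk.symm hjl.symm).pow_right n)).symm
    · apply Commute.sum_right
      intro m _
      apply Commute.smul_right
      exact (((hE i k _ _ hik).pow_pow n m).mul_right ((hE i l _ _ hil).pow_pow n m)).mul_left
        (((hE j k _ _ hjk).pow_pow n m).mul_right ((hE j l _ _ hjl).pow_pow n m))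

lemma braidRep_doubledHopf : braidRep K s doubledHopf = MM K s := by
  have g0 : braidGen K s (0 : Fin 3) = permM (Equiv.swap (0 : Fin 4) 1) * RR K s 0 1 :=
    braidGen_eq K s 0
  have g1 : braidGen K s (1 : Fin 3) = permM (Equiv.swap (1 : Fin 4) 2) * RR K s 1 2 :=
    braidGen_eq K s 1
  have g2 : braidGen K s (2 : Fin 3) = permM (Equiv.swap (2 : Fin 4) 3) * RR K s 2 3 :=
    braidGen_eq K s 2
  have hc : braidGen K s (1 : Fin 3) * (braidGen K s (0 : Fin 3) * (braidGen K s (2 : Fin 3) *
      braidGen K s (1 : Fin 3))) =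
      permM (Equiv.swap (1 : Fin 4) 2 * Equiv.swap (0 : Fin 4) 1 * Equiv.swap (2 : Fin 4) 3 *
        Equiv.swap (1 : Fin 4) 2) *
        (RR K s 0 3 * RR K s 0 2 * RR K s 1 3 * RR K s 1 2) := by
    rw [g0, g1, g2]
    simp only [← permM_mul]
    simp only [mul_assoc]
    rw [RR_mul_permM_assoc K s 2 3 1 3 (Equiv.swap (1 : Fin 4) 2) (by decide) (by decide),
      RR_mul_permM_assoc K s 0 1 0 1 (Equiv.swap (2 : Fin 4) 3) (by decide) (by decide),
      RR_mul_permM_assoc K s 0 1 0 2 (Equiv.swap (1 : Fin 4) 2) (by decide) (by decide),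
      RR_mul_permM_assoc K s 1 2 0 2 (Equiv.swap (0 : Fin 4) 1) (by decide) (by decide),
      RR_mul_permM_assoc K s 0 2 0 3 (Equiv.swap (2 : Fin 4) 3) (by decide) (by decide),
      RR_mul_permM_assoc K s 0 3 0 3 (Equiv.swap (1 : Fin 4) 2) (by decide) (by decide)]
  have hword : braidRep K s doubledHopf =
      (braidGen K s (1 : Fin 3) * (braidGen K s (0 : Fin 3) * (braidGen K s (2 : Fin 3) *
      braidGen K s (1 : Fin 3)))) * (braidGen K s (1 : Fin 3) * (braidGen K s (0 : Fin 3) *
      (braidGen K s (2 : Fin 3) * braidGen K s (1 : Fin 3)))) := by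
    simp [braidRep, doubledHopf, mul_assoc]
  rw [hword, hc, MM]
  set pp : Equiv.Perm (Fin 4) := Equiv.swap (1 : Fin 4) 2 * Equiv.swap (0 : Fin 4) 1 *
    Equiv.swap (2 : Fin 4) 3 * Equiv.swap (1 : Fin 4) 2 with hpp
  have hpp2 : pp * pp = 1 := by rw [hpp]; decide
  simp only [mul_assoc]
  rw [RR_mul_permM_assoc K s 1 2 3 0 pp (by rw [hpp]; decide) (by rw [hpp]; decide),
    RR_mul_permM_assoc K s 1 3 3 1 pp (by rw [hpp]; decide) (by rw [hpp]; decide),
    RR_mul_permM_assoc K s 0 2 2 0 pp (by rw [hpp]; decide) (by rw [hpp]; decide),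
    RR_mul_permM_assoc K s 0 3 2 1 pp (by rw [hpp]; decide) (by rw [hpp]; decide),
    ← mul_assoc (permM pp), permM_mul, hpp2, permM_one, one_mul]

end four

end Pool.Agent.AEC
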