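import Pool.Agent.AEC.Eval

/-!
Decomposition of `V ⊗ V` and evaluation of the trace.
-/

set_option autoImplicit false
set_option linter.unusedSectionVars false
set_option linter.unusedSimpArgs false

open Matrix Function
open scoped Kronecker

namespace Pool.Agent.AEC

section general

lemma trace_of_eigenbasis {X B : Type} [Fintype X] [DecidableEq X] [Fintype B] [DecidableEq B]
    (M : Matrix X X ℂ) (u : B → X → ℂ) (ν : B → ℂ) (hu : LinearIndependent ℂ u)
    (hcard : Fintype.card B = Fintype.card X) (hM : ∀ β, M *ᵥ u β = ν β • u β) :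
    Matrix.trace M = ∑ β, ν β := by
  have hc : Fintype.card B = Module.finrank ℂ (X → ℂ) := by
    rw [Module.finrank_fintype_fun_eq_card, hcard]
  let b := basisOfLinearIndependentOfCardEqFinrank' u hu hc
  have hb : ∀ β, b β = u β := fun β => by
    simp only [b, coe_basisOfLinearIndependentOfCardEqFinrank']
  rw [← Matrix.trace_toLin'_eq, LinearMap.trace_eq_matrix_trace ℂ b, Matrix.trace]
  refine Finset.sum_congr rfl fun β _ => ?_
  rw [Matrix.diag_apply, LinearMap.toMatrix_apply, Matrix.toLin'_apply, hb, hM, ← hb, map_smul]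
  simp

/-- Joint eigenvectors with distinct joint eigenvalues are independent. -/
lemma indep_joint {V J : Type} [AddCommGroup V] [Module ℂ V] [Fintype J] [DecidableEq J]
    {n : J → ℕ} (f g : Module.End ℂ V) (u : (Σ j : J, Fin (n j)) → V) (hu : ∀ β, u β ≠ 0)
    (lam : J → ℂ) (hlam : Function.Injective lam) (hf : ∀ β, f (u β) = lam β.1 • u β)
    (mu : (Σ j : J, Fin (n j)) → ℂ) (hmu : ∀ j, Function.Injective fun i => mu ⟨j, i⟩)
    (hg : ∀ β, g (u β) = mu β • u β) : LinearIndependent ℂ u := by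
  have hI : iSupIndep (fun j => f.eigenspace (lam j)) := f.eigenspaces_iSupIndep.comp hlam
  rw [iSupIndep_iff_finsetSum_eq_zero_imp_eq_zero] at hI
  rw [Fintype.linearIndependent_iff]
  intro c hc β
  rw [Fintype.sum_sigma] at hc
  have h1 : ∀ j ∈ (Finset.univ : Finset J), ∑ i : Fin (n j), c ⟨j, i⟩ • u ⟨j, i⟩ = 0 := by
    apply hI Finset.univ (fun j => ∑ i : Fin (n j), c ⟨j, i⟩ • u ⟨j, i⟩)
    · intro j _
      rw [Module.End.mem_eigenspace_iff, map_sum, Finset.smul_sum]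
      refine Finset.sum_congr rfl fun i _ => ?_
      rw [map_smul, hf, smul_comm]
    · exact hc
  have h2 := h1 β.1 (Finset.mem_univ _)
  have h3 : LinearIndependent ℂ (fun i : Fin (n β.1) => u ⟨β.1, i⟩) := by
    apply g.eigenvectors_linearIndependent' (fun i => mu ⟨β.1, i⟩) (hmu β.1)
    intro i
    rw [Module.End.hasEigenvector_iff, Module.End.mem_eigenspace_iff]
    exact ⟨hg _, hu _⟩
  rw [Fintype.linearIndependent_iff] at h3
  exact h3 (fun i => c ⟨β.1, i⟩) h2 β.2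

end general

variable {K s : ℕ}

/-- `K⁻¹` on `X`. -/
noncomputable def KXi (K s : ℕ) :
    Matrix (Fin (s + 1) × Fin (s + 1)) (Fin (s + 1) × Fin (s + 1)) ℂ :=
  opKi K s ⊗ₖ opKi K s

lemma FX_eq : FX K s = opF K s ⊗ₖ 1 + opKi K s ⊗ₖ opF K s := by
  rw [FX, ← Matrix.mul_kronecker_mul, mul_one, one_mul]

lemma EX_FX (hK : 2 ≤ K) : EX K s * FX K s - FX K s * EX K s =
    (vpow K 1 - vpow K (-1))⁻¹ • (KX K s - KXi K s) := by
  have hKiE := Ki_E (K := K) (s := s)
  have hFK : opF K s * opK K s = (vpow K 1 ^ 2) • (opK K s * opF K s) := by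
    rw [K_F, smul_smul, ← mul_pow, vw_one]; simp
  have hEF := EF_comm (K := K) (s := s) hK
  have e1 : EX K s * FX K s = (opE K s * opF K s) ⊗ₖ opK K s + opF K s ⊗ₖ opE K s +
      (opE K s * opKi K s) ⊗ₖ (opK K s * opF K s) + opKi K s ⊗ₖ (opE K s * opF K s) := by
    rw [EX, FX_eq]
    simp only [add_mul, mul_add, ← Matrix.mul_kronecker_mul, mul_one, one_mul]
    abel
  have e2 : FX K s * EX K s = (opF K s * opE K s) ⊗ₖ opK K s + opF K s ⊗ₖ opE K s +
      (opKi K s * opE K s) ⊗ₖ (opF K s * opK K s) + opKi K s ⊗ₖ (opF K s * opE K s) := by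
    rw [EX, FX_eq]
    simp only [add_mul, mul_add, ← Matrix.mul_kronecker_mul, mul_one, one_mul]
    abel
  have e3 : (opKi K s * opE K s) ⊗ₖ (opF K s * opK K s) =
      (opE K s * opKi K s) ⊗ₖ (opK K s * opF K s) := by
    rw [hKiE, hFK, Matrix.smul_kronecker, Matrix.kronecker_smul, smul_smul, ← mul_pow,
      mul_comm (vpow K (-1)), vw_one]
    simp
  have hE : opE K s * opF K s = opF K s * opE K s +
      ((vpow K 1 - vpow K (-1))⁻¹ • opK K s + (-(vpow K 1 - vpow K (-1))⁻¹) • opKi K s) := by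
    rw [neg_smul, ← sub_eq_add_neg, ← smul_sub, ← hEF]; abel
  rw [e1, e2, e3, hE]
  simp only [Matrix.add_kronecker, Matrix.kronecker_add, Matrix.smul_kronecker,
    Matrix.kronecker_smul, KX, KXi, smul_sub]
  module

lemma KX_FX : KX K s * FX K s = (vpow K (-1) ^ 2) • (FX K s * KX K s) := by
  have h1 : opK K s * opKi K s = opKi K s * opK K s := by rw [opK_mul_opKi, opKi_mul_opK]
  rw [KX, FX_eq]
  simp only [add_mul, mul_add, ← Matrix.mul_kronecker_mul, mul_one, one_mul, K_F, h1,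
    Matrix.smul_kronecker, Matrix.kronecker_smul, smul_add]

lemma KXi_FX : KXi K s * FX K s = (vpow K 1 ^ 2) • (FX K s * KXi K s) := by
  rw [KXi, FX_eq]
  simp only [add_mul, mul_add, ← Matrix.mul_kronecker_mul, mul_one, one_mul, Ki_F,
    Matrix.smul_kronecker, Matrix.kronecker_smul, smul_add]

/-- The Casimir element on `X`. -/
noncomputable def Om (K s : ℕ) :
    Matrix (Fin (s + 1) × Fin (s + 1)) (Fin (s + 1) × Fin (s + 1)) ℂ :=
  FX K s * EX K s + ((vpow K 1 - vpow K (-1)) ^ 2)⁻¹ •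
    (vpow K 1 • KX K s + vpow K (-1) • KXi K s)

lemma Om_FX (hK : 2 ≤ K) : Om K s * FX K s = FX K s * Om K s := by
  have hd := delta_ne hK
  have h1 := EX_FX (K := K) (s := s) hK
  have hE : EX K s * FX K s = FX K s * EX K s +
      (vpow K 1 - vpow K (-1))⁻¹ • (KX K s - KXi K s) := by rw [← h1]; abel
  have hvw := vw_one K
  rw [Om, add_mul, mul_assoc, hE, smul_mul_assoc, add_mul, smul_mul_assoc, smul_mul_assoc,
    KX_FX, KXi_FX, mul_add, mul_add, mul_smul_comm, mul_smul_comm, mul_add, mul_smul_comm,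
    mul_smul_comm, add_assoc]
  congr 1
  rw [mul_sub]
  have c1 : ((vpow K 1 - vpow K (-1)) ^ 2)⁻¹ * (vpow K 1 * vpow K (-1) ^ 2) +
      (vpow K 1 - vpow K (-1))⁻¹ = ((vpow K 1 - vpow K (-1)) ^ 2)⁻¹ * vpow K 1 := by
    field_simp
    linear_combination (vpow K (-1)) * hvw
  have c2 : ((vpow K 1 - vpow K (-1)) ^ 2)⁻¹ * (vpow K (-1) * vpow K 1 ^ 2) -
      (vpow K 1 - vpow K (-1))⁻¹ = ((vpow K 1 - vpow K (-1)) ^ 2)⁻¹ * vpow K (-1) := by
    field_simp
    linear_combination (vpow K 1) * hvw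
  simp only [smul_add, smul_sub, smul_smul]
  rw [← c1, ← c2, add_smul, sub_smul]
  abel

/-- The vectors `F^i x`. -/
noncomputable def orb (K s : ℕ) (x : Fin (s + 1) × Fin (s + 1) → ℂ) (i : ℕ) :
    Fin (s + 1) × Fin (s + 1) → ℂ := (FX K s ^ i) *ᵥ x

lemma orb_succ (x : Fin (s + 1) × Fin (s + 1) → ℂ) (i : ℕ) :
    orb K s x (i + 1) = FX K s *ᵥ orb K s x i := by
  rw [orb, orb, pow_succ', Matrix.mulVec_mulVec]

lemma orb_zero (x : Fin (s + 1) × Fin (s + 1) → ℂ) : orb K s x 0 = x := by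
  simp [orb]

lemma KX_orb (x : Fin (s + 1) × Fin (s + 1) → ℂ) (a : ℝ) (hx : KX K s *ᵥ x = vpow K a • x)
    (i : ℕ) : KX K s *ᵥ orb K s x i = vpow K (a - 2 * i) • orb K s x i := by
  induction i with
  | zero => rw [orb_zero, hx]; simp
  | succ i ih =>
    rw [orb_succ, Matrix.mulVec_mulVec, KX_FX, Matrix.smul_mulVec, ← Matrix.mulVec_mulVec, ih,
      Matrix.mulVec_smul, smul_smul, ← vpow_neg_nat, ← vpow_add]
    congr 2
    push_cast
    ring

lemma KXi_orb (x : Fin (s + 1) × Fin (s + 1) → ℂ) (a : ℝ) (hx : KX K s *ᵥ x = vpow K a • x)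
    (i : ℕ) : KXi K s *ᵥ orb K s x i = vpow K (-(a - 2 * i)) • orb K s x i := by
  have h := KX_orb x a hx i
  have h1 : KXi K s * KX K s = 1 := by
    rw [KXi, KX, ← Matrix.mul_kronecker_mul, opKi_mul_opK, Matrix.one_kronecker_one]
  have h2 : KXi K s *ᵥ (KX K s *ᵥ orb K s x i) = orb K s x i := by
    rw [Matrix.mulVec_mulVec, h1, Matrix.one_mulVec]
  rw [h, Matrix.mulVec_smul] at h2
  calc KXi K s *ᵥ orb K s x i = vpow K (-(a - 2 * i)) • (vpow K (a - 2 * i) •
        (KXi K s *ᵥ orb K s x i)) := by rw [smul_smul, vpow_neg_mul, one_smul]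
    _ = vpow K (-(a - 2 * i)) • orb K s x i := by rw [h2]

/-- The coefficient in `E F^(i+1) x = coefficient * F^i x`. -/
noncomputable def kap (K : ℕ) (a : ℝ) (i : ℕ) : ℂ :=
  (vpow K ((i : ℝ) + 1) - vpow K (-((i : ℝ) + 1))) * (vpow K (a - i) - vpow K (-(a - i))) /
    (vpow K 1 - vpow K (-1)) ^ 2

lemma kap_succ {K : ℕ} (hK : 2 ≤ K) (a : ℝ) (i : ℕ) :
    kap K a (i + 1) = kap K a i + (vpow K 1 - vpow K (-1))⁻¹ *
      (vpow K (a - 2 * ((i : ℝ) + 1)) - vpow K (-(a - 2 * ((i : ℝ) + 1)))) := by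
  have hd := delta_ne hK
  simp only [kap]
  have hA := vpow_mul_neg K a
  have hI := vpow_mul_neg K (i : ℝ)
  have hV := vw_one K
  have e1 : vpow K (((i + 1 : ℕ) : ℝ) + 1) = vpow K i * vpow K 1 * vpow K 1 := by
    rw [← vpow_add, ← vpow_add]; push_cast; congr 1
  have e2 : vpow K (-(((i + 1 : ℕ) : ℝ) + 1)) = vpow K (-i) * vpow K (-1) * vpow K (-1) := by
    rw [← vpow_add, ← vpow_add]; push_cast; congr 1; ring
  have e3 : vpow K (a - ((i + 1 : ℕ) : ℝ)) = vpow K a * vpow K (-i) * vpow K (-1) := by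
    rw [← vpow_add, ← vpow_add]; push_cast; congr 1; ring
  have e4 : vpow K (-(a - ((i + 1 : ℕ) : ℝ))) = vpow K (-a) * vpow K i * vpow K 1 := by
    rw [← vpow_add, ← vpow_add]; push_cast; congr 1; ring
  have e5 : vpow K ((i : ℝ) + 1) = vpow K i * vpow K 1 := by rw [← vpow_add]
  have e6 : vpow K (-((i : ℝ) + 1)) = vpow K (-i) * vpow K (-1) := by
    rw [← vpow_add]; congr 1; ring
  have e7 : vpow K (a - i) = vpow K a * vpow K (-i) := by rw [← vpow_add]; congr 1
  have e8 : vpow K (-(a - i)) = vpow K (-a) * vpow K i := by rw [← vpow_add]; congr 1; ring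
  have e9 : vpow K (a - 2 * ((i : ℝ) + 1)) =
      vpow K a * vpow K (-i) * vpow K (-i) * vpow K (-1) * vpow K (-1) := by
    rw [← vpow_add, ← vpow_add, ← vpow_add, ← vpow_add]; congr 1; ring
  have e10 : vpow K (-(a - 2 * ((i : ℝ) + 1))) =
      vpow K (-a) * vpow K i * vpow K i * vpow K 1 * vpow K 1 := by
    rw [← vpow_add, ← vpow_add, ← vpow_add, ← vpow_add]; congr 1; ring
  rw [e1, e2, e3, e4, e5, e6, e7, e8, e9, e10]
  generalize vpow K a = A at *
  generalize vpow K (-a) = A' at *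
  generalize vpow K (i : ℝ) = B at *
  generalize vpow K (-(i : ℝ)) = B' at *
  generalize vpow K 1 = v at *
  generalize vpow K (-1) = w at *
  field_simp
  linear_combination (A * v * B * B' + A' * w * B * B' - A' * B ^ 2 * v - A * B' ^ 2 * w) * hV

lemma EX_orb (hK : 2 ≤ K) (x : Fin (s + 1) × Fin (s + 1) → ℂ) (a : ℝ)
    (hx : KX K s *ᵥ x = vpow K a • x) (hE : EX K s *ᵥ x = 0) (i : ℕ) :
    EX K s *ᵥ orb K s x (i + 1) = kap K a i • orb K s x i := by
  have h1 := EX_FX (K := K) (s := s) hK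
  have hEF : EX K s * FX K s = FX K s * EX K s +
      (vpow K 1 - vpow K (-1))⁻¹ • (KX K s - KXi K s) := by rw [← h1]; abel
  have hd := delta_ne hK
  induction i with
  | zero =>
    rw [orb_succ, Matrix.mulVec_mulVec, hEF, Matrix.add_mulVec, ← Matrix.mulVec_mulVec, orb_zero,
      hE, Matrix.mulVec_zero, zero_add, Matrix.smul_mulVec, Matrix.sub_mulVec]
    have k1 := KX_orb x a hx 0
    have k2 := KXi_orb x a hx 0
    rw [orb_zero] at k1 k2
    rw [k1, k2, ← sub_smul, smul_smul]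
    congr 1
    simp only [kap]
    push_cast
    field_simp
    ring_nf
  | succ i ih =>
    rw [orb_succ, Matrix.mulVec_mulVec, hEF, Matrix.add_mulVec, ← Matrix.mulVec_mulVec, ih,
      Matrix.mulVec_smul, ← orb_succ, Matrix.smul_mulVec, Matrix.sub_mulVec, KX_orb x a hx,
      KXi_orb x a hx, ← sub_smul, smul_smul, ← add_smul, kap_succ hK]
    push_cast
    rfl

/-- The highest weight vector of weight `2 s - 2 J`. -/
noncomputable def xi (K s J : ℕ) : ℕ → ℂ
  | 0 => 1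
  | (i + 1) => -(xi K s J i * qint K (s - (J - 1 - i))) /
      (qint K (s - i) * vpow K ((s : ℝ) - 2 * ((J : ℝ) - 1 - i)))

/-- The highest weight vector of weight `2 s - 2 J` in `X`. -/
noncomputable def hwv (K s J : ℕ) : Fin (s + 1) × Fin (s + 1) → ℂ :=
  fun p => if (p.1 : ℕ) + (p.2 : ℕ) = J then xi K s J p.1 else 0

lemma opE_apply_of (i j : Fin (s + 1)) :
    opE K s i j = if (i : ℕ) + 1 = (j : ℕ) then qint K (s + 1 - (j : ℕ)) else 0 := rfl

lemma sum_opE (i : Fin (s + 1)) (g : Fin (s + 1) → ℂ) :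
    ∑ j, opE K s i j * g j = if h : (i : ℕ) + 1 < s + 1 then
      qint K (s - (i : ℕ)) * g ⟨(i : ℕ) + 1, h⟩ else 0 := by
  split_ifs with h
  · rw [Finset.sum_eq_single (⟨(i : ℕ) + 1, h⟩ : Fin (s + 1))]
    · rw [opE_apply_of, if_pos rfl]
      congr 2
      simp only
      omega
    · intro k _ hk
      rw [opE_apply_of, if_neg, zero_mul]
      intro h'; apply hk; exact Fin.ext h'.symm
    · simp
  · apply Finset.sum_eq_zero
    intro k _
    rw [opE_apply_of, if_neg, zero_mul]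
    omega

lemma EX_hwv (hK : 2 * s + 1 < K) {J : ℕ} (hJ : J ≤ s) : EX K s *ᵥ hwv K s J = 0 := by
  have hK2 : 2 ≤ K ∨ s = 0 := by omega
  funext p
  rw [EX, Matrix.add_mulVec]
  simp only [Pi.add_apply, Pi.zero_apply]
  have h1 : ((opE K s ⊗ₖ opK K s) *ᵥ hwv K s J) p =
      ∑ i, opE K s p.1 i * (vpow K (wt s p.2) * hwv K s J (i, p.2)) := by
    rw [Matrix.mulVec, dotProduct, Fintype.sum_prod_type]
    refine Finset.sum_congr rfl fun i _ => ?_
    rw [Finset.sum_eq_single p.2]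
    · simp only [kroneckerMap_apply, opK, Matrix.diagonal_apply_eq]; ring
    · intro k _ hk
      simp [kroneckerMap_apply, opK, Matrix.diagonal_apply_ne _ hk.symm]
    · simp
  have h2 : (((1 : Matrix (Fin (s + 1)) (Fin (s + 1)) ℂ) ⊗ₖ opE K s) *ᵥ hwv K s J) p =
      ∑ j, opE K s p.2 j * hwv K s J (p.1, j) := by
    rw [Matrix.mulVec, dotProduct, Fintype.sum_prod_type, Finset.sum_eq_single p.1]
    · refine Finset.sum_congr rfl fun j _ => ?_
      simp [kroneckerMap_apply]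
    · intro k _ hk
      simp [kroneckerMap_apply, Matrix.one_apply_ne hk.symm]
    · simp
  rw [h1, h2, sum_opE, sum_opE]
  by_cases hs : (p.1 : ℕ) + (p.2 : ℕ) + 1 = J
  · have l1 : (p.1 : ℕ) + 1 < s + 1 := by omega
    have l2 : (p.2 : ℕ) + 1 < s + 1 := by omega
    rw [dif_pos l1, dif_pos l2]
    have t1 : hwv K s J (⟨(p.1 : ℕ) + 1, l1⟩, p.2) = xi K s J ((p.1 : ℕ) + 1) := by
      rw [hwv, if_pos]; simp only; omega
    have t2 : hwv K s J (p.1, ⟨(p.2 : ℕ) + 1, l2⟩) = xi K s J (p.1 : ℕ) := by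
      rw [hwv, if_pos]; simp only; omega
    rw [t1, t2, xi]
    have hne1 : qint K (s - (p.1 : ℕ)) ≠ 0 := qint_ne (by omega) (by omega) (by omega)
    have hne2 := vpow_ne_zero K ((s : ℝ) - 2 * ((J : ℝ) - 1 - ((p.1 : ℕ) : ℝ)))
    have e1 : J - 1 - (p.1 : ℕ) = (p.2 : ℕ) := by omega
    have e2 : wt s p.2 = (s : ℝ) - 2 * ((J : ℝ) - 1 - ((p.1 : ℕ) : ℝ)) := by
      simp only [wt]
      rw [← hs]
      push_cast
      ring
    rw [e1, e2]
    field_simp
    ring
  · have t1 : ∀ l1, hwv K s J (⟨(p.1 : ℕ) + 1, l1⟩, p.2) = 0 := by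
      intro l1; rw [hwv, if_neg]; simp only; omega
    have t2 : ∀ l2, hwv K s J (p.1, ⟨(p.2 : ℕ) + 1, l2⟩) = 0 := by
      intro l2; rw [hwv, if_neg]; simp only; omega
    simp [t1, t2]

lemma hwv_wt {J : ℕ} (p : Fin (s + 1) × Fin (s + 1)) (h : hwv K s J p ≠ 0) :
    wt s p.1 + wt s p.2 = 2 * s - 2 * J := by
  have : (p.1 : ℕ) + (p.2 : ℕ) = J := by
    by_contra h0; apply h; rw [hwv, if_neg h0]
  simp only [wt]
  rw [← this]
  push_cast
  ring

lemma hwv_ne {J : ℕ} (hJ : J ≤ s) : hwv K s J ≠ 0 := by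
  intro h
  have := congrFun h (⟨0, by omega⟩, ⟨J, by omega⟩)
  simp [hwv, xi] at this

lemma KX_hwv {J : ℕ} : KX K s *ᵥ hwv K s J = vpow K (2 * s - 2 * J) • hwv K s J := by
  funext p
  have hKX : KX K s = Matrix.diagonal (fun p => vpow K (wt s p.1) * vpow K (wt s p.2)) := by
    rw [KX, opK, Matrix.diagonal_kronecker_diagonal]
  rw [hKX, Matrix.mulVec_diagonal, Pi.smul_apply, smul_eq_mul]
  by_cases h : hwv K s J p = 0
  · simp [h]
  · rw [← vpow_add, hwv_wt p h]

end Pool.Agent.AEC
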