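import Mathlib

/-!
# The SU(2) Witten-Reshetikhin-Turaev invariant of closed braids in the 3-sphere

All definitions used by the hand-in `MP_af5d62_gt.LogTerm`.

Level `k`, `K = k + 2`, `v = exp (π i / K)`, `q = v ^ 2 = exp (2 π i / K)`.
The colour `s` (a label in `{0, ..., k}`) stands for the simple `U_q(sl_2)`-module `V_s` of
dimension `s + 1`.  Every framed link in the 3-sphere is the closure of a braid, with the
blackboard framing; its Reshetikhin-Turaev invariant, all components coloured by `V_s`, is the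
quantum trace of the braid acting on a tensor power of `V_s` through the universal R-matrix.
-/

set_option autoImplicit false

open Matrix
open scoped Kronecker

namespace Pool.Agent.AEC

noncomputable section

/-- `vpow K x = exp (π i x / K)`, the power `v ^ x` of `v = exp (π i / K)`, for real `x`. -/
def vpow (K : ℕ) (x : ℝ) : ℂ := Complex.exp (Real.pi * Complex.I * x / K)

/-- The quantum integer `[m] = (v ^ m - v ^ (-m)) / (v - v ^ (-1))`. -/
def qint (K m : ℕ) : ℂ := (vpow K m - vpow K (-m)) / (vpow K 1 - vpow K (-1))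

/-- The quantum factorial `[l]! = [1] [2] ... [l]`. -/
def qfact (K l : ℕ) : ℂ := ∏ i ∈ Finset.range l, qint K (i + 1)

/-- The weight `s - 2 j` of the basis vector `e_j` (`0 ≤ j ≤ s`) of `V_s`. -/
def wt (s : ℕ) (j : Fin (s + 1)) : ℝ := (s : ℝ) - 2 * (j : ℕ)

/-- The matrix of `E` on `V_s`: `E e_j = [s - j + 1] e_(j-1)`, `E e_0 = 0`. -/
def opE (K s : ℕ) : Matrix (Fin (s + 1)) (Fin (s + 1)) ℂ :=
  Matrix.of fun i j => if (i : ℕ) + 1 = (j : ℕ) then qint K (s + 1 - (j : ℕ)) else 0

/-- The matrix of `F` on `V_s`: `F e_j = [j + 1] e_(j+1)`, `F e_s = 0`. -/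
def opF (K s : ℕ) : Matrix (Fin (s + 1)) (Fin (s + 1)) ℂ :=
  Matrix.of fun i j => if (i : ℕ) = (j : ℕ) + 1 then qint K ((j : ℕ) + 1) else 0

/-- The coefficient `v ^ (l (l - 1) / 2) (v - v ^ (-1)) ^ l / [l]!` in the universal R-matrix. -/
def rcoef (K l : ℕ) : ℂ :=
  vpow K ((l : ℝ) * ((l : ℝ) - 1) / 2) * (vpow K 1 - vpow K (-1)) ^ l / qfact K l

/-- The universal R-matrix of `U_q(sl_2)` acting on `V_s ⊗ V_s`:
`R = v ^ (H ⊗ H / 2) * ∑_l  v ^ (l (l - 1) / 2) (v - v ^ (-1)) ^ l / [l]! • E ^ l ⊗ F ^ l`.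
(`E ^ l = 0` on `V_s` for `l > s`.) -/
def Rmat (K s : ℕ) : Matrix (Fin (s + 1) × Fin (s + 1)) (Fin (s + 1) × Fin (s + 1)) ℂ :=
  Matrix.diagonal (fun p => vpow K (wt s p.1 * wt s p.2 / 2)) *
    ∑ l ∈ Finset.range (s + 1), rcoef K l • ((opE K s ^ l) ⊗ₖ (opF K s ^ l))

/-- The braiding `flip ∘ R` of `V_s ⊗ V_s` (positive crossing). -/
def braiding (K s : ℕ) : Matrix (Fin (s + 1) × Fin (s + 1)) (Fin (s + 1) × Fin (s + 1)) ℂ :=
  Matrix.of fun p r => Rmat K s (p.2, p.1) r

/-- The action of the braid generator `σ_i` on the `(m + 1)`-fold tensor power of `V_s`, whose basis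
vectors are indexed by the functions `Fin (m + 1) → Fin (s + 1)`: the braiding in the tensor
factors `i` and `i + 1`, the identity in the others. -/
def braidGen (K s : ℕ) {m : ℕ} (i : Fin m) :
    Matrix (Fin (m + 1) → Fin (s + 1)) (Fin (m + 1) → Fin (s + 1)) ℂ :=
  Matrix.of fun f g =>
    if ∀ j, j ≠ i.castSucc → j ≠ i.succ → f j = g j then
      braiding K s (f i.castSucc, f i.succ) (g i.castSucc, g i.succ)
    else 0

/-- The action of a braid word on `m + 1` strands: `(i, true)` is `σ_i`, `(i, false)` is its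
inverse. -/
def braidRep (K s : ℕ) {m : ℕ} (w : List (Fin m × Bool)) :
    Matrix (Fin (m + 1) → Fin (s + 1)) (Fin (m + 1) → Fin (s + 1)) ℂ :=
  (w.map fun x => if x.2 then braidGen K s x.1 else (braidGen K s x.1)⁻¹).prod

/-- The Reshetikhin-Turaev invariant (coloured Jones invariant at `q = exp (2 π i / K)`) of the
closure of the braid word `w`, a framed link in the 3-sphere with the blackboard framing, all of
whose components are coloured by `V_s`: the trace of `v ^ H` times the braid. The unknot gets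
`[s + 1]`. -/
def rtClosure (K s : ℕ) {m : ℕ} (w : List (Fin m × Bool)) : ℂ :=
  Matrix.trace (Matrix.diagonal (fun f : Fin (m + 1) → Fin (s + 1) => ∏ j, vpow K (wt s (f j))) *
    braidRep K s w)

/-- The level `k` Witten-Reshetikhin-Turaev invariant for `SU(2)` of the pair (3-sphere, closure of
`w`) with all components labelled `s`, normalised by
`Z(3-sphere) = √(2 / (k + 2)) * sin (π / (k + 2))`. -/
def wrtSphere (k s : ℕ) {m : ℕ} (w : List (Fin m × Bool)) : ℂ :=
  ((Real.sqrt (2 / ((k : ℝ) + 2)) * Real.sin (Real.pi / ((k : ℝ) + 2)) : ℝ) : ℂ) *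
    rtClosure (k + 2) s w

/-- The 4-strand braid word `(σ_2 σ_1 σ_3 σ_2) ^ 2` (here the generators are numbered `0, 1, 2`).
It is a pure braid; its closure is the Hopf link with both components replaced by two parallel
copies, and the blackboard framing is the zero framing on each of the four components, since no
component crosses itself. -/
def doubledHopf : List (Fin 3 × Bool) :=
  [(1, true), (0, true), (2, true), (1, true), (1, true), (0, true), (2, true), (1, true)]

/-- `HasExpansion k₀ Z`: the sequence `Z s` (`s ≥ 1`), thought of as the invariant at level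
`k = s k₀`, has an asymptotic expansion of the conjectured shape in powers of `K = s k₀ + 2`, for
some finite list of phases `q_j`, exponents `d_{j,r}` and coefficients `b_{j,r}`, `a^p_{j,r}`.
Here the phases, the exponents and the number `D` are allowed to be arbitrary real numbers. -/
def HasExpansion (k₀ : ℕ) (Z : ℕ → ℂ) : Prop :=
  ∃ (v : ℕ) (q : Fin v → ℝ) (u : Fin v → ℕ) (d : (j : Fin v) → Fin (u j) → ℝ)
    (b : (j : Fin v) → Fin (u j) → ℂ) (a : (j : Fin v) → Fin (u j) → ℕ → ℂ) (D : ℝ),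
    ∀ P : ℕ, ∃ C : ℝ, ∀ s : ℕ, 1 ≤ s →
      ‖Z s - ∑ j, Complex.exp (2 * Real.pi * Complex.I * (s * k₀ + 2) * q j) *
          ∑ r, ((((s : ℝ) * k₀ + 2) ^ (d j r) : ℝ) : ℂ) * b j r *
            (1 + ∑ p ∈ Finset.Icc 1 P, a j r p * ((((s : ℝ) * k₀ + 2) ^ (-(p : ℝ) / 2) : ℝ) : ℂ))‖
        ≤ C * ((s : ℝ) * k₀ + 2) ^ (D - ((P : ℝ) + 1) / 2)

end

end Pool.Agent.AEC
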