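import Pool.Agent.AEC.HW

/-!
Eigenvalue of the closed-up operator on highest weight vectors.
-/

set_option autoImplicit false
set_option linter.unusedSectionVars false
set_option linter.unusedSimpArgs false

open Matrix Function
open scoped Kronecker

namespace Pool.Agent.AEC

variable {K s : ℕ}

/-- Triangularity in the factors 2 and 3. -/
def Tri (N : Matrix (Fin 4 → Fin (s + 1)) (Fin 4 → Fin (s + 1)) ℂ)
    (δ : (Fin 4 → Fin (s + 1)) → ℂ) : Prop :=
  (∀ f g, N f g ≠ 0 → f 2 ≤ g 2 ∧ f 3 ≤ g 3) ∧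
    (∀ f g, f 2 = g 2 → f 3 = g 3 → N f g = if f = g then δ f else 0)

lemma Tri.mul {N N' : Matrix (Fin 4 → Fin (s + 1)) (Fin 4 → Fin (s + 1)) ℂ}
    {δ δ' : (Fin 4 → Fin (s + 1)) → ℂ} (h : Tri N δ) (h' : Tri N' δ') :
    Tri (N * N') (fun f => δ f * δ' f) := by
  constructor
  · intro f g hfg
    rw [Matrix.mul_apply] at hfg
    obtain ⟨k, _, hk⟩ := Finset.exists_ne_zero_of_sum_ne_zero hfg
    have h1 := h.1 f k (left_ne_zero_of_mul hk)
    have h2 := h'.1 k g (right_ne_zero_of_mul hk)
    exact ⟨h1.1.trans h2.1, h1.2.trans h2.2⟩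
  · intro f g h2 h3
    rw [Matrix.mul_apply]
    have key : ∀ k, N f k * N' k g = if f = k then δ f * N' f g else 0 := by
      intro k
      by_cases hfk : f = k
      · subst hfk
        rw [if_pos rfl, h.2 f f rfl rfl, if_pos rfl]
      · rw [if_neg hfk]
        by_contra hne
        have h1 := h.1 f k (left_ne_zero_of_mul hne)
        have h2' := h'.1 k g (right_ne_zero_of_mul hne)
        have e2 : f 2 = k 2 := le_antisymm h1.1 (by rw [h2]; exact h2'.1)
        have e3 : f 3 = k 3 := le_antisymm h1.2 (by rw [h3]; exact h2'.2)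
        have := h.2 f k e2 e3
        rw [if_neg hfk] at this
        exact left_ne_zero_of_mul hne this
    simp only [key, Finset.sum_ite_eq, Finset.mem_univ, if_true]
    rw [h'.2 f g h2 h3]
    split_ifs <;> simp

lemma Rmat_diag (a b b' : Fin (s + 1)) :
    Rmat K s (a, b) (a, b') = if b = b' then phi K s a b else 0 := by
  rw [Rmat_apply, Finset.sum_eq_single 0]
  · simp [rcoef_zero, Matrix.one_apply]
  · intro l _ hl
    have : (opE K s ^ l) a a = 0 := by
      by_contra h
      have := opE_pow_apply h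
      omega
    simp [this]
  · simp

lemma Rmat_le {a b a' b' : Fin (s + 1)} (h : Rmat K s (a, b) (a', b') ≠ 0) : a ≤ a' := by
  rw [Rmat_apply] at h
  obtain ⟨l, _, hl⟩ := Finset.exists_ne_zero_of_sum_ne_zero (right_ne_zero_of_mul h)
  have h1 := left_ne_zero_of_mul (right_ne_zero_of_mul hl)
  have := opE_pow_apply h1
  simp only at this
  rw [Fin.le_def]
  omega

lemma RR_Tri2 {j : Fin 4} (h2 : j ≠ 2) (h3 : j ≠ 3) :
    Tri (RR K s 2 j) (fun f => phi K s (f 2) (f j)) := by
  constructor
  · intro f g hfg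
    rw [RR_apply K s h2.symm] at hfg
    split_ifs at hfg with hk
    · exact ⟨Rmat_le hfg, (hk 3 (by decide) h3.symm).le⟩
    · exact absurd rfl hfg
  · intro f g e2 e3
    rw [RR_apply K s h2.symm]
    by_cases hfg : f = g
    · subst hfg
      rw [if_pos rfl, if_pos (fun _ _ _ => rfl), Rmat_diag, if_pos rfl]
    · rw [if_neg hfg]
      split_ifs with hk
      · rw [← e2, Rmat_diag, if_neg]
        intro hj
        apply hfg
        funext k
        by_cases hk2 : k = 2
        · rw [hk2]; exact e2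
        · by_cases hkj : k = j
          · rw [hkj]; exact hj
          · exact hk k hk2 hkj
      · rfl

lemma RR_Tri3 {j : Fin 4} (h2 : j ≠ 2) (h3 : j ≠ 3) :
    Tri (RR K s 3 j) (fun f => phi K s (f 3) (f j)) := by
  constructor
  · intro f g hfg
    rw [RR_apply K s h3.symm] at hfg
    split_ifs at hfg with hk
    · exact ⟨(hk 2 (by decide) h2.symm).le, Rmat_le hfg⟩
    · exact absurd rfl hfg
  · intro f g e2 e3
    rw [RR_apply K s h3.symm]
    by_cases hfg : f = g
    · subst hfg
      rw [if_pos rfl, if_pos (fun _ _ _ => rfl), Rmat_diag, if_pos rfl]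
    · rw [if_neg hfg]
      split_ifs with hk
      · rw [← e3, Rmat_diag, if_neg]
        intro hj
        apply hfg
        funext k
        by_cases hk2 : k = 3
        · rw [hk2]; exact e3
        · by_cases hkj : k = j
          · rw [hkj]; exact hj
          · exact hk k hk2 hkj
      · rfl

lemma left_Tri : Tri (RR K s 2 1 * RR K s 2 0 * RR K s 3 1 * RR K s 3 0)
    (fun f => phi K s (f 2) (f 1) * phi K s (f 2) (f 0) * phi K s (f 3) (f 1) *
      phi K s (f 3) (f 0)) :=
  (((RR_Tri2 (by decide) (by decide)).mul (RR_Tri2 (by decide) (by decide))).mul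
    (RR_Tri3 (by decide) (by decide))).mul (RR_Tri3 (by decide) (by decide))

lemma left_tv (x : Fin (s + 1) × Fin (s + 1) → ℂ) (α : ℝ)
    (hα : ∀ p, x p ≠ 0 → wt s p.1 + wt s p.2 = α) (p r : Fin (s + 1) × Fin (s + 1)) :
    ((RR K s 2 1 * RR K s 2 0 * RR K s 3 1 * RR K s 3 0) *ᵥ tv x r) (mk p r) =
      vpow K (α * (wt s r.1 + wt s r.2) / 2) * x p := by
  rw [Matrix.mulVec, dotProduct, Finset.sum_eq_single (mk p r)]
  · rw [left_Tri.2 _ _ rfl rfl, if_pos rfl]
    have e : tv x r (mk p r) = x p := by simp [tv, mk]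
    rw [e]
    by_cases hx : x p = 0
    · simp [hx]
    · have h4 := hα p hx
      congr 1
      simp only [phi, ← vpow_add]
      congr 1
      have m0 : mk p r 0 = p.1 := rfl
      have m1 : mk p r 1 = p.2 := rfl
      have m2 : mk p r 2 = r.1 := rfl
      have m3 : mk p r 3 = r.2 := rfl
      rw [m0, m1, m2, m3, ← h4]
      ring
  · intro g _ hg
    by_cases h : tv x r g = 0
    · rw [h, mul_zero]
    · have h2 : (g 2, g 3) = r := by
        by_contra h0; apply h; simp [tv, h0]
      have e2 : mk p r 2 = g 2 := by rw [← h2]; rfl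
      have e3 : mk p r 3 = g 3 := by rw [← h2]; rfl
      rw [left_Tri.2 _ _ e2 e3, if_neg (fun h' => hg h'.symm), zero_mul]
  · simp

/-- The operator `Tm` acts by a scalar on highest weight vectors. -/
lemma Tm_hw (hK : s + 1 < K) (x : Fin (s + 1) × Fin (s + 1) → ℂ) (hx : EX K s *ᵥ x = 0)
    (α : ℝ) (hα : ∀ p, x p ≠ 0 → wt s p.1 + wt s p.2 = α) :
    Tm K s *ᵥ x = ((∑ j, vpow K ((α + 1) * wt s j)) ^ 2) • x := by
  funext p
  have hM : ∀ r, (MM K s *ᵥ tv x r) (mk p r) = vpow K (α * (wt s r.1 + wt s r.2)) * x p := by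
    intro r
    rw [MM, ← Matrix.mulVec_mulVec, right_tv hK x hx α hα, Matrix.mulVec_smul, Pi.smul_apply,
      left_tv x α hα, smul_eq_mul, ← mul_assoc, ← vpow_add]
    congr 2
    ring
  have hT : ∀ p', Tm K s p p' = ∑ r : Fin (s + 1) × Fin (s + 1),
      vpow K (wt s r.1) * vpow K (wt s r.2) * MM K s (mk p r) (mk p' r) := by
    intro p'
    rw [Tm, PT, Matrix.of_apply]
    refine Finset.sum_congr rfl fun r _ => ?_
    rw [opK, op_diagonal, op_diagonal, Matrix.diagonal_mul_diagonal, Matrix.diagonal_mul]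
    rfl
  have hV : ∀ r, (MM K s *ᵥ tv x r) (mk p r) =
      ∑ p' : Fin (s + 1) × Fin (s + 1), MM K s (mk p r) (mk p' r) * x p' := by
    intro r
    rw [Matrix.mulVec, dotProduct, sum_fin4]
    refine Finset.sum_congr rfl fun p' _ => ?_
    rw [Finset.sum_eq_single r]
    · simp [tv, mk]
    · intro r' _ hr'
      have : tv x r (mk p' r') = 0 := by
        have hne : ¬ ((mk p' r' 2, mk p' r' 3) = r) := fun h => hr' h
        rw [tv, if_neg hne, mul_zero]
      rw [this, mul_zero]
    · simp
  rw [Matrix.mulVec, dotProduct]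
  simp only [hT, Finset.sum_mul]
  rw [Finset.sum_comm]
  have h1 : ∀ r : Fin (s + 1) × Fin (s + 1), ∑ p' : Fin (s + 1) × Fin (s + 1),
      vpow K (wt s r.1) * vpow K (wt s r.2) * MM K s (mk p r) (mk p' r) * x p' =
      vpow K ((α + 1) * wt s r.1) * vpow K ((α + 1) * wt s r.2) * x p := by
    intro r
    have : ∀ p' : Fin (s + 1) × Fin (s + 1),
        vpow K (wt s r.1) * vpow K (wt s r.2) * MM K s (mk p r) (mk p' r) * x p' =
        (vpow K (wt s r.1) * vpow K (wt s r.2)) * (MM K s (mk p r) (mk p' r) * x p') := by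
      intro p'; ring
    simp only [this]
    rw [← Finset.mul_sum, ← hV, hM, ← mul_assoc, ← vpow_add, ← vpow_add, ← vpow_add]
    congr 2
    ring
  simp only [h1]
  rw [Pi.smul_apply, smul_eq_mul, ← Finset.sum_mul, Fintype.sum_prod_type, sq,
    Finset.sum_mul_sum]

/-- The invariant as a trace over `X`. -/
lemma rt_eq_trace : rtClosure K s doubledHopf = Matrix.trace (KX K s * Tm K s) := by
  rw [rtClosure, braidRep_doubledHopf, Matrix.trace, Matrix.trace]
  simp only [Matrix.diag_apply]
  rw [sum_fin4]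
  refine Finset.sum_congr rfl fun p _ => ?_
  have hKX : KX K s = Matrix.diagonal (fun p => vpow K (wt s p.1) * vpow K (wt s p.2)) := by
    rw [KX, opK, Matrix.diagonal_kronecker_diagonal]
  rw [hKX, Matrix.diagonal_mul, Tm, PT, Matrix.of_apply, Finset.mul_sum]
  refine Finset.sum_congr rfl fun r _ => ?_
  rw [Matrix.diagonal_mul, opK, op_diagonal, op_diagonal, Matrix.diagonal_mul_diagonal,
    Matrix.diagonal_mul, Fin.prod_univ_four]
  have m0 : mk p r 0 = p.1 := rfl
  have m1 : mk p r 1 = p.2 := rfl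
  have m2 : mk p r 2 = r.1 := rfl
  have m3 : mk p r 3 = r.2 := rfl
  rw [m0, m1, m2, m3]
  ring

end Pool.Agent.AEC
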