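import Pool.Agent.AEC.Decomp

/-!
Closed formula for the invariant of the doubled Hopf link.
-/

set_option autoImplicit false
set_option linter.unusedSectionVars false
set_option linter.unusedSimpArgs false

open Matrix Function
open scoped Kronecker

namespace Pool.Agent.AEC

variable {K s : ℕ}

lemma vpow_add_neg (K : ℕ) (x : ℝ) :
    vpow K x + vpow K (-x) = 2 * (Real.cos (Real.pi * x / K) : ℝ) := by
  simp only [vpow]
  rw [Complex.ofReal_cos, Complex.cos]
  have h1 : (Real.pi * Complex.I * x / K : ℂ) = ((Real.pi * x / K : ℝ) : ℂ) * Complex.I := by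
    push_cast; ring
  have h2 : (Real.pi * Complex.I * ((-x : ℝ) : ℂ) / K : ℂ) =
      -((Real.pi * x / K : ℝ) : ℂ) * Complex.I := by
    push_cast; ring
  rw [h1, h2]
  ring

lemma vpow_inj {x y : ℝ} (hK : 0 < K) (h : vpow K x = vpow K y) (hxy : |x - y| < 2 * K) :
    x = y := by
  simp only [vpow] at h
  rw [Complex.exp_eq_exp_iff_exists_int] at h
  obtain ⟨n, hn⟩ := h
  have hK' : (K : ℂ) ≠ 0 := by exact_mod_cast hK.ne'
  have hpi : (Real.pi : ℂ) ≠ 0 := by exact_mod_cast Real.pi_ne_zero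
  have h1 : (x : ℂ) = y + 2 * n * K := by
    have hI := Complex.I_ne_zero
    field_simp at hn
    linear_combination hn
  have h2 : x = y + 2 * n * K := by exact_mod_cast h1
  have hKr : (0 : ℝ) < K := by exact_mod_cast hK
  have h3 : |(n : ℝ)| < 1 := by
    rw [h2] at hxy
    have : y + 2 * n * K - y = n * (2 * K) := by ring
    rw [this, abs_mul, abs_of_pos (by positivity : (0 : ℝ) < 2 * K)] at hxy
    by_contra hc
    push Not at hc
    nlinarith
  have h4 : n = 0 := by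
    have : |n| < 1 := by exact_mod_cast h3
    exact Int.abs_lt_one_iff.mp this
  rw [h2, h4]; simp

lemma orb_ne (hK : 2 * s + 1 < K) {J : ℕ} (hJ : J ≤ s) (i : ℕ) (hi : i ≤ 2 * (s - J)) :
    orb K s (hwv K s J) i ≠ 0 := by
  induction i with
  | zero => rw [orb_zero]; exact hwv_ne hJ
  | succ i ih =>
    intro h0
    have h1 := EX_orb (K := K) (s := s) (by omega) (hwv K s J) (2 * s - 2 * J) KX_hwv
      (EX_hwv hK hJ) i
    rw [h0, Matrix.mulVec_zero] at h1
    have h2 : kap K (2 * (s : ℝ) - 2 * J) i ≠ 0 := by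
      rw [kap]
      have hcast : (2 * (s : ℝ) - 2 * J - i) = ((2 * (s - J) - i : ℕ) : ℝ) := by
        have h5 : i ≤ 2 * (s - J) := by omega
        push_cast [Nat.cast_sub h5, Nat.cast_sub hJ]
        ring
      rw [hcast]
      have e1 := vpow_sub_neg_ne (K := K) (m := i + 1) (by omega) (by omega)
      have e2 := vpow_sub_neg_ne (K := K) (m := 2 * (s - J) - i) (by omega) (by omega)
      have e3 := delta_ne (K := K) (by omega)
      push_cast at e1
      exact div_ne_zero (mul_ne_zero e1 e2) (pow_ne_zero 2 e3)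
    have h3 := ih (by omega)
    exact (smul_ne_zero h2 h3) h1.symm

/-- Eigenvalue of the Casimir element. -/
noncomputable def lamC (K : ℕ) (a : ℝ) : ℂ :=
  ((vpow K 1 - vpow K (-1)) ^ 2)⁻¹ * (vpow K (a + 1) + vpow K (-(a + 1)))

lemma Om_orb (hK : 2 ≤ K) (x : Fin (s + 1) × Fin (s + 1) → ℂ) (a : ℝ)
    (hx : KX K s *ᵥ x = vpow K a • x) (hE : EX K s *ᵥ x = 0) (i : ℕ) :
    Om K s *ᵥ orb K s x i = lamC K a • orb K s x i := by
  induction i with
  | zero =>
    have k1 := KX_orb x a hx 0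
    have k2 := KXi_orb x a hx 0
    rw [orb_zero] at *
    rw [Om, Matrix.add_mulVec, ← Matrix.mulVec_mulVec, hE, Matrix.mulVec_zero, zero_add,
      Matrix.smul_mulVec, Matrix.add_mulVec, Matrix.smul_mulVec, Matrix.smul_mulVec, k1, k2,
      smul_smul, smul_smul, ← add_smul, smul_smul, lamC, ← vpow_add, ← vpow_add]
    congr 3
    · congr 1; push_cast; ring
    · congr 1; push_cast; ring
  | succ i ih =>
    rw [orb_succ, Matrix.mulVec_mulVec, Om_FX hK, ← Matrix.mulVec_mulVec, ih, Matrix.mulVec_smul]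

lemma Tm_orb (hK : s + 1 < K) (x : Fin (s + 1) × Fin (s + 1) → ℂ) (Λ : ℂ)
    (hx : Tm K s *ᵥ x = Λ • x) (i : ℕ) :
    Tm K s *ᵥ orb K s x i = Λ • orb K s x i := by
  induction i with
  | zero => rw [orb_zero, hx]
  | succ i ih =>
    rw [orb_succ, Matrix.mulVec_mulVec, Tm_FX hK, ← Matrix.mulVec_mulVec, ih, Matrix.mulVec_smul]

lemma card_aux (s : ℕ) : Fintype.card (Σ J : Fin (s + 1), Fin (2 * (s - (J : ℕ)) + 1)) =
    Fintype.card (Fin (s + 1) × Fin (s + 1)) := by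
  rw [Fintype.card_sigma, Fintype.card_prod]
  simp only [Fintype.card_fin]
  rw [Fin.sum_univ_eq_sum_range (fun J => 2 * (s - J) + 1) (s + 1)]
  have h := Finset.sum_range_reflect (fun j => 2 * j + 1) (s + 1)
  have h2 : ∀ n : ℕ, ∑ j ∈ Finset.range n, (2 * j + 1) = n * n := by
    intro n
    induction n with
    | zero => simp
    | succ n ih => rw [Finset.sum_range_succ, ih]; ring
  rw [h2] at h
  rw [← h]
  refine Finset.sum_congr rfl fun j hj => ?_
  have : j < s + 1 := Finset.mem_range.mp hj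
  congr 2

/-- The eigenbasis of `X`. -/
noncomputable def ub (K s : ℕ) (β : Σ J : Fin (s + 1), Fin (2 * (s - (J : ℕ)) + 1)) :
    Fin (s + 1) × Fin (s + 1) → ℂ := orb K s (hwv K s β.1) β.2

lemma ub_Om (hK : 2 * s + 1 < K) (β : Σ J : Fin (s + 1), Fin (2 * (s - (J : ℕ)) + 1)) :
    Om K s *ᵥ ub K s β = lamC K (2 * s - 2 * (β.1 : ℕ)) • ub K s β :=
  Om_orb (by omega) _ _ KX_hwv (EX_hwv hK (by omega)) _

lemma ub_KX (β : Σ J : Fin (s + 1), Fin (2 * (s - (J : ℕ)) + 1)) :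
    KX K s *ᵥ ub K s β = vpow K (2 * s - 2 * (β.1 : ℕ) - 2 * (β.2 : ℕ)) • ub K s β :=
  KX_orb _ _ KX_hwv _

lemma lamC_inj (hK : 2 * s + 1 < K) :
    Function.Injective (fun J : Fin (s + 1) => lamC K (2 * (s : ℝ) - 2 * (J : ℕ))) := by
  intro J J' h
  simp only [lamC] at h
  have hd := delta_ne (K := K) (by omega)
  have h1 := mul_left_cancel₀ (inv_ne_zero (pow_ne_zero 2 hd)) h
  rw [vpow_add_neg, vpow_add_neg] at h1
  have h2 : Real.cos (Real.pi * (2 * (s : ℝ) - 2 * (J : ℕ) + 1) / K) =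
      Real.cos (Real.pi * (2 * (s : ℝ) - 2 * (J' : ℕ) + 1) / K) := by
    have h3 := mul_left_cancel₀ (two_ne_zero) h1
    exact_mod_cast h3
  have hKr : (2 * (s : ℝ) + 1) < K := by exact_mod_cast hK
  have hs0 : (0 : ℝ) ≤ s := Nat.cast_nonneg _
  have hK0 : (0 : ℝ) < K := by linarith
  have hmem : ∀ J : Fin (s + 1), Real.pi * (2 * (s : ℝ) - 2 * (J : ℕ) + 1) / K ∈
      Set.Icc 0 Real.pi := by
    intro J
    have hJ : ((J : ℕ) : ℝ) ≤ s := by exact_mod_cast (by omega : (J : ℕ) ≤ s)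
    have hJ0 : (0 : ℝ) ≤ ((J : ℕ) : ℝ) := Nat.cast_nonneg _
    have hpi := Real.pi_pos
    constructor
    · apply div_nonneg _ hK0.le
      apply mul_nonneg hpi.le
      linarith
    · rw [div_le_iff₀ hK0]
      apply mul_le_mul_of_nonneg_left _ hpi.le
      linarith
  have h4 := Real.injOn_cos (hmem J) (hmem J') h2
  have hpi := Real.pi_ne_zero
  have h5 : ((J : ℕ) : ℝ) = ((J' : ℕ) : ℝ) := by
    field_simp at h4
    linarith
  exact Fin.ext (by exact_mod_cast h5)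

lemma ub_indep (hK : 2 * s + 1 < K) : LinearIndependent ℂ (ub K s) := by
  refine indep_joint (n := fun J : Fin (s + 1) => 2 * (s - (J : ℕ)) + 1)
    (Matrix.toLin' (Om K s)) (Matrix.toLin' (KX K s)) (ub K s)
    (fun β => orb_ne hK (by omega) _ (by omega))
    (fun J => lamC K (2 * (s : ℝ) - 2 * (J : ℕ))) (lamC_inj hK)
    (fun β => by rw [Matrix.toLin'_apply, ub_Om hK])
    (fun β => vpow K (2 * s - 2 * (β.1 : ℕ) - 2 * (β.2 : ℕ))) ?_
    (fun β => by rw [Matrix.toLin'_apply, ub_KX])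
  intro J i i' h
  simp only at h
  have hKr : (2 * (s : ℝ) + 1) < K := by exact_mod_cast hK
  have hJ : ((J : ℕ) : ℝ) ≤ s := by exact_mod_cast (by omega : (J : ℕ) ≤ s)
  have hJ0 : (0 : ℝ) ≤ ((J : ℕ) : ℝ) := Nat.cast_nonneg _
  have hi : ∀ i : Fin (2 * (s - (J : ℕ)) + 1), ((i : ℕ) : ℝ) ≤ 2 * s := by
    intro i
    exact_mod_cast (by omega : (i : ℕ) ≤ 2 * s)
  have hi0 : ∀ i : Fin (2 * (s - (J : ℕ)) + 1), (0 : ℝ) ≤ ((i : ℕ) : ℝ) :=
    fun i => Nat.cast_nonneg _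
  have h1 := vpow_inj (K := K) (by omega) h (by
    rw [abs_lt]
    have := hi i
    have := hi i'
    have := hi0 i
    have := hi0 i'
    constructor <;> linarith)
  exact Fin.ext (by
    have : ((i : ℕ) : ℝ) = ((i' : ℕ) : ℝ) := by linarith
    exact_mod_cast this)

/-- The eigenvalue of the double braiding on the weight space. -/
noncomputable def LamJ (K s : ℕ) (J : ℕ) : ℂ :=
  (∑ j : Fin (s + 1), vpow K ((2 * s - 2 * J + 1) * wt s j)) ^ 2

lemma ub_Tm (hK : 2 * s + 1 < K) (β : Σ J : Fin (s + 1), Fin (2 * (s - (J : ℕ)) + 1)) :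
    Tm K s *ᵥ ub K s β = LamJ K s (β.1 : ℕ) • ub K s β := by
  refine Tm_orb (by omega) _ _ ?_ _
  rw [Tm_hw (by omega) _ (EX_hwv hK (by omega)) (2 * s - 2 * (β.1 : ℕ)) hwv_wt, LamJ]

lemma geom_vpow (K : ℕ) (y : ℝ) (n : ℕ) :
    (∑ j ∈ Finset.range n, vpow K (y * (n - 1 - 2 * j))) * (vpow K y - vpow K (-y)) =
      vpow K (n * y) - vpow K (-(n * y)) := by
  rw [Finset.sum_mul]
  have h := Finset.sum_range_sub' (fun j : ℕ => vpow K (y * (n - 2 * j))) n
  have e1 : vpow K (y * (n - 2 * ((0 : ℕ) : ℝ))) = vpow K (n * y) := by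
    congr 1; push_cast; ring
  have e2 : vpow K (y * (n - 2 * (n : ℝ))) = vpow K (-(n * y)) := by
    congr 1; ring
  rw [e1, e2] at h
  rw [← h]
  refine Finset.sum_congr rfl fun j _ => ?_
  rw [mul_sub, ← vpow_add, ← vpow_add]
  congr 2
  · ring
  · push_cast; ring

lemma rt_sum (hK : 2 * s + 1 < K) : rtClosure K s doubledHopf =
    ∑ J ∈ Finset.range (s + 1), LamJ K s J *
      (∑ i ∈ Finset.range (2 * (s - J) + 1), vpow K (2 * s - 2 * J - 2 * i)) := by
  rw [rt_eq_trace, trace_of_eigenbasis (KX K s * Tm K s) (ub K s)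
    (fun β => LamJ K s (β.1 : ℕ) * vpow K (2 * s - 2 * (β.1 : ℕ) - 2 * (β.2 : ℕ)))
    (ub_indep hK) (card_aux s), Fintype.sum_sigma, ← Fin.sum_univ_eq_sum_range
    (fun J => LamJ K s J *
      (∑ i ∈ Finset.range (2 * (s - J) + 1), vpow K (2 * s - 2 * J - 2 * i))) (s + 1)]
  · refine Finset.sum_congr rfl fun J _ => ?_
    rw [Finset.mul_sum, ← Fin.sum_univ_eq_sum_range
      (fun i => LamJ K s (J : ℕ) * vpow K (2 * s - 2 * (J : ℕ) - 2 * i))]
  · intro β
    rw [← Matrix.mulVec_mulVec, ub_Tm hK, Matrix.mulVec_smul, ub_KX, smul_smul]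

lemma sin_odd_sq (m : ℕ) : Real.sin (Real.pi * (2 * m + 1) / 2) ^ 2 = 1 := by
  have h : Real.pi * (2 * m + 1) / 2 = m * Real.pi + Real.pi / 2 := by ring
  rw [h, Real.sin_add_pi_div_two, Real.cos_nat_mul_pi, ← pow_mul, mul_comm, pow_mul]
  simp

lemma LamJ_eq {m : ℕ} (hm : m ≤ s) : LamJ (2 * s + 2) s (s - m) =
    ((1 / Real.sin (Real.pi * (2 * m + 1) / (2 * s + 2)) ^ 2 : ℝ) : ℂ) := by
  have hcast : (((s - m : ℕ) : ℝ)) = (s : ℝ) - m := by push_cast [Nat.cast_sub hm]; ring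
  have h1 : ∑ j : Fin (s + 1), vpow (2 * s + 2) ((2 * s - 2 * ((s - m : ℕ) : ℝ) + 1) * wt s j) =
      ∑ j ∈ Finset.range (s + 1), vpow (2 * s + 2)
        ((2 * (m : ℝ) + 1) * (((s + 1 : ℕ) : ℝ) - 1 - 2 * j)) := by
    rw [← Fin.sum_univ_eq_sum_range (fun j => vpow (2 * s + 2)
        ((2 * (m : ℝ) + 1) * (((s + 1 : ℕ) : ℝ) - 1 - 2 * j)))]
    refine Finset.sum_congr rfl fun j _ => ?_
    congr 1
    rw [hcast, wt]
    push_cast
    ring
  have h2 := geom_vpow (2 * s + 2) (2 * (m : ℝ) + 1) (s + 1)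
  have h3 := vpow_sub_neg (2 * s + 2) (2 * (m : ℝ) + 1)
  have h4 := vpow_sub_neg (2 * s + 2) (((s + 1 : ℕ) : ℝ) * (2 * (m : ℝ) + 1))
  have h5 : Real.pi * (((s + 1 : ℕ) : ℝ) * (2 * (m : ℝ) + 1)) / ((2 * s + 2 : ℕ) : ℝ) =
      Real.pi * (2 * m + 1) / 2 := by
    push_cast
    field_simp
  have h6 : Real.pi * (2 * (m : ℝ) + 1) / ((2 * s + 2 : ℕ) : ℝ) =
      Real.pi * (2 * m + 1) / (2 * s + 2) := by push_cast; ring
  rw [h5] at h4
  rw [h6] at h3
  have h7 : 0 < Real.sin (Real.pi * (2 * m + 1) / (2 * s + 2)) := by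
    have := sin_pos_aux (K := 2 * s + 2) (m := 2 * m + 1) (by omega) (by omega)
    push_cast at this
    exact this
  rw [LamJ, h1]
  rw [h3, h4] at h2
  set S := ∑ j ∈ Finset.range (s + 1), vpow (2 * s + 2)
        ((2 * (m : ℝ) + 1) * (((s + 1 : ℕ) : ℝ) - 1 - 2 * j)) with hS
  have h8 : ((Real.sin (Real.pi * (2 * m + 1) / (2 * s + 2)) : ℝ) : ℂ) ≠ 0 := by
    exact_mod_cast h7.ne'
  have h9 : S * ((Real.sin (Real.pi * (2 * m + 1) / (2 * s + 2)) : ℝ) : ℂ) =
      ((Real.sin (Real.pi * (2 * m + 1) / 2) : ℝ) : ℂ) := by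
    have hI : (2 * Complex.I : ℂ) ≠ 0 := mul_ne_zero two_ne_zero Complex.I_ne_zero
    apply mul_left_cancel₀ hI
    linear_combination h2
  have h10 : (((Real.sin (Real.pi * (2 * m + 1) / 2) : ℝ) : ℂ)) ^ 2 = 1 := by
    exact_mod_cast sin_odd_sq m
  have h11 : S ^ 2 * ((Real.sin (Real.pi * (2 * m + 1) / (2 * s + 2)) : ℝ) : ℂ) ^ 2 = 1 := by
    rw [← mul_pow, h9, h10]
  rw [eq_div_of_mul_eq (pow_ne_zero 2 h8) h11]
  push_cast
  rfl

lemma inner_eq {m : ℕ} (hm : m ≤ s) :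
    ∑ i ∈ Finset.range (2 * (s - (s - m)) + 1),
      vpow (2 * s + 2) (2 * s - 2 * ((s - m : ℕ) : ℝ) - 2 * i) =
    ((Real.sin (Real.pi * (2 * m + 1) / (2 * s + 2)) / Real.sin (Real.pi / (2 * s + 2)) : ℝ) :
      ℂ) := by
  have hcast : (((s - m : ℕ) : ℝ)) = (s : ℝ) - m := by push_cast [Nat.cast_sub hm]; ring
  have h0 : s - (s - m) = m := by omega
  have h1 : ∑ i ∈ Finset.range (2 * (s - (s - m)) + 1),
      vpow (2 * s + 2) (2 * s - 2 * ((s - m : ℕ) : ℝ) - 2 * i) =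
      ∑ j ∈ Finset.range (2 * m + 1), vpow (2 * s + 2)
        (1 * (((2 * m + 1 : ℕ) : ℝ) - 1 - 2 * j)) := by
    rw [h0]
    refine Finset.sum_congr rfl fun j _ => ?_
    congr 1
    rw [hcast]
    push_cast
    ring
  have h2 := geom_vpow (2 * s + 2) 1 (2 * m + 1)
  have h3 := vpow_sub_neg (2 * s + 2) 1
  have h4 := vpow_sub_neg (2 * s + 2) (((2 * m + 1 : ℕ) : ℝ) * 1)
  have h5 : Real.pi * (((2 * m + 1 : ℕ) : ℝ) * 1) / ((2 * s + 2 : ℕ) : ℝ) =
      Real.pi * (2 * m + 1) / (2 * s + 2) := by push_cast; ring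
  have h6 : Real.pi * 1 / ((2 * s + 2 : ℕ) : ℝ) =
      Real.pi / (2 * s + 2) := by push_cast; ring
  rw [h5] at h4
  rw [h6] at h3
  have h7 : 0 < Real.sin (Real.pi / (2 * s + 2)) := by
    have := sin_pos_aux (K := 2 * s + 2) (m := 1) (by omega) (by omega)
    push_cast at this
    simpa using this
  have h8 : ((Real.sin (Real.pi / (2 * s + 2)) : ℝ) : ℂ) ≠ 0 := by
    exact_mod_cast h7.ne'
  rw [h1]
  rw [h3, h4] at h2
  set S := ∑ j ∈ Finset.range (2 * m + 1), vpow (2 * s + 2)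
        (1 * (((2 * m + 1 : ℕ) : ℝ) - 1 - 2 * j)) with hS
  have h9 : S * ((Real.sin (Real.pi / (2 * s + 2)) : ℝ) : ℂ) =
      ((Real.sin (Real.pi * (2 * m + 1) / (2 * s + 2)) : ℝ) : ℂ) := by
    have hI : (2 * Complex.I : ℂ) ≠ 0 := mul_ne_zero two_ne_zero Complex.I_ne_zero
    apply mul_left_cancel₀ hI
    linear_combination h2
  rw [eq_div_of_mul_eq h8 h9]
  push_cast
  rfl

/-- **Closed formula** for the Reshetikhin-Turaev invariant of the doubled Hopf link. -/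
theorem rt_formula (s : ℕ) : rtClosure (2 * s + 2) s doubledHopf =
    ((∑ m ∈ Finset.range (s + 1), 1 / (Real.sin (Real.pi * (2 * m + 1) / (2 * s + 2)) *
      Real.sin (Real.pi / (2 * s + 2))) : ℝ) : ℂ) := by
  rw [rt_sum (by omega), ← Finset.sum_range_reflect]
  push_cast
  refine Finset.sum_congr rfl fun m hm => ?_
  have hm' : m ≤ s := by
    have := Finset.mem_range.mp hm
    omega
  have e : s + 1 - 1 - m = s - m := by omega
  have h7 : 0 < Real.sin (Real.pi * (2 * m + 1) / (2 * s + 2)) := by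
    have := sin_pos_aux (K := 2 * s + 2) (m := 2 * m + 1) (by omega) (by omega)
    push_cast at this
    exact this
  have h8 : ((Real.sin (Real.pi * (2 * m + 1) / (2 * s + 2)) : ℝ) : ℂ) ≠ 0 := by
    exact_mod_cast h7.ne'
  rw [LamJ_eq hm', inner_eq hm']
  push_cast
  push_cast at h8
  field_simp

/-- The Witten-Reshetikhin-Turaev invariant of the doubled Hopf link in the 3-sphere. -/
theorem wrt_formula (s : ℕ) : wrtSphere (2 * s) s doubledHopf =
    ((Real.sqrt (2 / (2 * s + 2)) *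
      ∑ m ∈ Finset.range (s + 1), 1 / Real.sin (Real.pi * (2 * m + 1) / (2 * s + 2)) : ℝ) : ℂ) := by
  rw [wrtSphere, rt_formula, ← Complex.ofReal_mul]
  congr 1
  have h7 : 0 < Real.sin (Real.pi / (2 * s + 2)) := by
    have := sin_pos_aux (K := 2 * s + 2) (m := 1) (by omega) (by omega)
    push_cast at this
    simpa using this
  push_cast
  rw [mul_assoc]
  congr 1
  rw [Finset.mul_sum]
  refine Finset.sum_congr rfl fun m hm => ?_
  have hm' : m ≤ s := by
    have := Finset.mem_range.mp hm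
    omega
  have h8 : 0 < Real.sin (Real.pi * (2 * m + 1) / (2 * s + 2)) := by
    have := sin_pos_aux (K := 2 * s + 2) (m := 2 * m + 1) (by omega) (by omega)
    push_cast at this
    exact this
  generalize Real.sin (Real.pi * (2 * m + 1) / (2 * s + 2)) = a at *
  generalize Real.sin (Real.pi / (2 * s + 2)) = b at *
  field_simp

end Pool.Agent.AEC
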