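import Pool.Agent.AEC.PTrace

/-!
The action on highest weight vectors.
-/

set_option autoImplicit false
set_option linter.unusedSectionVars false
set_option linter.unusedSimpArgs false

open Matrix Function
open scoped Kronecker

namespace Pool.Agent.AEC

variable {K s : ℕ}

section hex

variable {ι : Type} [Fintype ι] [DecidableEq ι]

lemma semiconj_DD {b c : ι} (hbc : b ≠ c) :
    SemiconjBy (DD K s b c) (op b (opK K s) * op c (opF K s)) (op c (opF K s)) := by
  rw [SemiconjBy, ← mul_assoc, DD_K, mul_assoc, DD_F' hbc, ← mul_assoc, opopK, one_mul]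

lemma hexagon (hK : s + 1 < K) {a b c : ι} (hab : a ≠ b) (hac : a ≠ c) (hbc : b ≠ c) :
    RR K s a c * RR K s b c = DD K s a c * (DD K s b c * ∑ l ∈ Finset.range (s + 1),
      rcoef K l • ((op a (opE K s) * op b (opK K s) + op b (opE K s)) ^ l *
        op c (opF K s) ^ l)) := by
  have h1 : TH K s a c * DD K s b c = DD K s b c * ∑ l ∈ Finset.range (s + 1),
      rcoef K l • ((op a (opE K s) * op b (opK K s)) ^ l * op c (opF K s) ^ l) := by
    unfold TH
    rw [Finset.sum_mul, Finset.mul_sum]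
    refine Finset.sum_congr rfl fun l _ => ?_
    rw [smul_mul_assoc, mul_smul_comm]
    congr 1
    have e1 : op c (opF K s) ^ l * DD K s b c =
        DD K s b c * (op b (opK K s) * op c (opF K s)) ^ l :=
      ((semiconj_DD hbc).pow_right l).eq.symm
    have e2 : (op b (opK K s) * op c (opF K s)) ^ l = op b (opK K s) ^ l * op c (opF K s) ^ l :=
      (op_commute hbc _ _).mul_pow l
    have e3 : (op a (opE K s) * op b (opK K s)) ^ l = op a (opE K s) ^ l * op b (opK K s) ^ l :=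
      (op_commute hab _ _).mul_pow l
    have e4 : op a (opE K s) ^ l * DD K s b c = DD K s b c * op a (opE K s) ^ l := by
      have hD : Commute (op a (opE K s)) (DD K s b c) := by
        rw [commute_iff_eq]
        ext f g
        rw [DD, Matrix.diagonal_mul, Matrix.mul_diagonal, op_apply]
        split_ifs with h
        · rw [h b hab.symm, h c hac.symm, mul_comm]
        · simp
      exact (hD.pow_left l).eq
    rw [mul_assoc, e1, ← mul_assoc, e4, mul_assoc, e2, e3, mul_assoc]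
  have hq := qexp_add (A := Matrix (ι → Fin (s + 1)) (ι → Fin (s + 1)) ℂ)
    (x := op a (opE K s) * op b (opK K s)) (y := op b (opE K s)) (z := op c (opF K s))
    (v := vpow K 1) (w := vpow K (-1)) (vw_one K)
    (by
      rw [mul_assoc, ← op_mul, K_E, op_smul, op_mul, mul_smul_comm, ← mul_assoc,
        op_comm a b hab, mul_assoc])
    (op_commute hbc.symm _ _) (rcoef K) (rcoef_zero K) (s + 1)
    (by rw [← op_pow, opF_pow_zero, op_zero])
    (fun l hl => rcoef_succ (by omega))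
    (fun l hl => by
      rw [← vpow_nat, ← vpow_neg_nat]
      exact vpow_sub_neg_ne (by omega) (by omega))
  rw [RR_eq, RR_eq, mul_assoc, ← mul_assoc (TH K s a c), h1, mul_assoc (DD K s b c)]
  have : TH K s b c = ∑ l ∈ Finset.range (s + 1),
      rcoef K l • (op b (opE K s) ^ l * op c (opF K s) ^ l) := rfl
  rw [this, hq]

lemma hexagon_mulVec (hK : s + 1 < K) {a b c : ι} (hab : a ≠ b) (hac : a ≠ c) (hbc : b ≠ c)
    (ψ : (ι → Fin (s + 1)) → ℂ)
    (hψ : (op a (opE K s) * op b (opK K s) + op b (opE K s)) *ᵥ ψ = 0) :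
    (RR K s a c * RR K s b c) *ᵥ ψ = (DD K s a c * DD K s b c) *ᵥ ψ := by
  rw [hexagon hK hab hac hbc]
  set X := op a (opE K s) * op b (opK K s) + op b (opE K s) with hX
  have hcomm : Commute X (op c (opF K s)) := by
    rw [hX]
    exact ((op_commute hac _ _).mul_left (op_commute hbc _ _)).add_left (op_commute hbc _ _)
  have hsum : (∑ l ∈ Finset.range (s + 1), rcoef K l • (X ^ l * op c (opF K s) ^ l)) *ᵥ ψ = ψ := by
    rw [Matrix.sum_mulVec, Finset.sum_eq_single 0]
    · simp [rcoef_zero]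
    · intro l _ hl
      obtain ⟨m, rfl⟩ : ∃ m, l = m + 1 := ⟨l - 1, by omega⟩
      rw [(hcomm.pow_pow (m + 1) (m + 1)).eq, pow_succ X, ← mul_assoc, Matrix.smul_mulVec,
        ← Matrix.mulVec_mulVec, hψ]
      simp
    · simp
  rw [← mul_assoc, ← Matrix.mulVec_mulVec, hsum]

end hex

section vec

/-- The vector `x ⊗ e_r`. -/
def tv (x : Fin (s + 1) × Fin (s + 1) → ℂ) (r : Fin (s + 1) × Fin (s + 1)) :
    (Fin 4 → Fin (s + 1)) → ℂ :=
  fun f => x (f 0, f 1) * if (f 2, f 3) = r then 1 else 0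

lemma op_mulVec {ι I : Type} [Fintype ι] [DecidableEq ι] [Fintype I] [DecidableEq I] (i : ι)
    (A : Matrix I I ℂ) (ψ : (ι → I) → ℂ) (f : ι → I) :
    (op i A *ᵥ ψ) f = ∑ x, A (f i) x * ψ (update f i x) := by
  rw [Matrix.mulVec, dotProduct]
  symm
  apply Fintype.sum_of_injective (fun x => update f i x) (update_injective f i)
  · intro h hh
    rw [op_apply, if_neg, zero_mul]
    intro hk
    apply hh
    refine ⟨h i, ?_⟩
    funext k
    by_cases hki : k = i
    · subst hki; simp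
    · simp [hki, hk k hki]
  · intro x
    rw [op_apply, if_pos]
    · simp
    · intro k hk; simp [hk]

lemma op0_tv (A : Matrix (Fin (s + 1)) (Fin (s + 1)) ℂ) (x : Fin (s + 1) × Fin (s + 1) → ℂ)
    (r : Fin (s + 1) × Fin (s + 1)) :
    op 0 A *ᵥ tv x r = tv ((A ⊗ₖ (1 : Matrix (Fin (s + 1)) (Fin (s + 1)) ℂ)) *ᵥ x) r := by
  funext f
  rw [op_mulVec]
  simp only [tv]
  rw [Matrix.mulVec, dotProduct, Fintype.sum_prod_type, Finset.sum_mul]
  refine Finset.sum_congr rfl fun y _ => ?_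
  rw [Finset.sum_eq_single (f 1)]
  · simp
  · intro z _ hz
    simp [Matrix.one_apply_ne hz.symm]
  · simp

lemma op1_tv (A : Matrix (Fin (s + 1)) (Fin (s + 1)) ℂ) (x : Fin (s + 1) × Fin (s + 1) → ℂ)
    (r : Fin (s + 1) × Fin (s + 1)) :
    op 1 A *ᵥ tv x r = tv (((1 : Matrix (Fin (s + 1)) (Fin (s + 1)) ℂ) ⊗ₖ A) *ᵥ x) r := by
  funext f
  rw [op_mulVec]
  simp only [tv]
  rw [Matrix.mulVec, dotProduct, Fintype.sum_prod_type]
  conv_rhs => rw [Finset.sum_eq_single (f 0) (by
    intro z _ hz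
    simp [Matrix.one_apply_ne hz.symm]) (by simp)]
  rw [Finset.sum_mul]
  refine Finset.sum_congr rfl fun y _ => ?_
  simp

lemma E_tv (x : Fin (s + 1) × Fin (s + 1) → ℂ) (hx : EX K s *ᵥ x = 0)
    (r : Fin (s + 1) × Fin (s + 1)) :
    (op 0 (opE K s) * op 1 (opK K s) + op 1 (opE K s)) *ᵥ tv x r = 0 := by
  rw [Matrix.add_mulVec, ← Matrix.mulVec_mulVec, op1_tv, op0_tv, op1_tv, Matrix.mulVec_mulVec,
    ← Matrix.mul_kronecker_mul, mul_one, one_mul]
  have h2 : tv ((opE K s ⊗ₖ opK K s) *ᵥ x) r +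
      tv (((1 : Matrix (Fin (s + 1)) (Fin (s + 1)) ℂ) ⊗ₖ opE K s) *ᵥ x) r =
      tv (EX K s *ᵥ x) r := by
    funext f
    simp only [tv, Pi.add_apply, EX, Matrix.add_mulVec]
    ring
  rw [h2, hx]
  funext f
  simp [tv]

lemma D_tv (x : Fin (s + 1) × Fin (s + 1) → ℂ) (α : ℝ)
    (hα : ∀ p, x p ≠ 0 → wt s p.1 + wt s p.2 = α) (r : Fin (s + 1) × Fin (s + 1)) :
    (DD K s 0 2 * DD K s 1 2) *ᵥ tv x r = vpow K (α * wt s r.1 / 2) • tv x r := by
  funext f
  rw [← Matrix.mulVec_mulVec, DD, Matrix.mulVec_diagonal, DD, Matrix.mulVec_diagonal,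
    Pi.smul_apply, smul_eq_mul]
  by_cases h : tv x r f = 0
  · rw [h]; simp
  · have h1 : x (f 0, f 1) ≠ 0 := by
      intro h0; apply h; simp [tv, h0]
    have h2 : (f 2, f 3) = r := by
      by_contra h0; apply h; simp [tv, h0]
    have h3 : f 2 = r.1 := by rw [← h2]
    have h4 := hα _ h1
    simp only at h4
    rw [← mul_assoc, phi, phi, ← vpow_add, h3, ← h4]
    congr 2
    ring

lemma D_tv' (x : Fin (s + 1) × Fin (s + 1) → ℂ) (α : ℝ)
    (hα : ∀ p, x p ≠ 0 → wt s p.1 + wt s p.2 = α) (r : Fin (s + 1) × Fin (s + 1)) :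
    (DD K s 0 3 * DD K s 1 3) *ᵥ tv x r = vpow K (α * wt s r.2 / 2) • tv x r := by
  funext f
  rw [← Matrix.mulVec_mulVec, DD, Matrix.mulVec_diagonal, DD, Matrix.mulVec_diagonal,
    Pi.smul_apply, smul_eq_mul]
  by_cases h : tv x r f = 0
  · rw [h]; simp
  · have h1 : x (f 0, f 1) ≠ 0 := by
      intro h0; apply h; simp [tv, h0]
    have h2 : (f 2, f 3) = r := by
      by_contra h0; apply h; simp [tv, h0]
    have h3 : f 3 = r.2 := by rw [← h2]
    have h4 := hα _ h1
    simp only at h4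
    rw [← mul_assoc, phi, phi, ← vpow_add, h3, ← h4]
    congr 2
    ring

/-- Action of the first half of `MM` on a highest weight vector. -/
lemma right_tv (hK : s + 1 < K) (x : Fin (s + 1) × Fin (s + 1) → ℂ) (hx : EX K s *ᵥ x = 0)
    (α : ℝ) (hα : ∀ p, x p ≠ 0 → wt s p.1 + wt s p.2 = α) (r : Fin (s + 1) × Fin (s + 1)) :
    (RR K s 0 3 * RR K s 0 2 * RR K s 1 3 * RR K s 1 2) *ᵥ tv x r =
      vpow K (α * (wt s r.1 + wt s r.2) / 2) • tv x r := by
  have h0 : RR K s (0 : Fin 4) 3 * RR K s 0 2 * RR K s 1 3 * RR K s 1 2 =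
      (RR K s 0 3 * RR K s 1 3) * (RR K s 0 2 * RR K s 1 2) := by
    have := RR_comm_disj K s (i := (0 : Fin 4)) (j := 2) (k := 1) (l := 3) (by decide) (by decide)
      (by decide) (by decide)
    rw [mul_assoc (RR K s 0 3), this]
    simp only [mul_assoc]
  have e := E_tv (K := K) x hx r
  rw [h0, ← Matrix.mulVec_mulVec, hexagon_mulVec hK (by decide) (by decide) (by decide) _ e,
    D_tv x α hα, Matrix.mulVec_smul, hexagon_mulVec hK (by decide) (by decide) (by decide) _ e,
    D_tv' x α hα, smul_smul, ← vpow_add]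
  congr 2
  ring

end vec

end Pool.Agent.AEC
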