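import Pool.Agent.AEC.Braid

/-!
R-matrices intertwine the coproduct of `F`.
-/

set_option autoImplicit false
set_option linter.unusedSectionVars false
set_option linter.unusedSimpArgs false

open Matrix

namespace Pool.Agent.AEC

variable {K s : ℕ} {ι : Type} [Fintype ι] [DecidableEq ι]

/-- Cartan part in sites `i`, `j`. -/
noncomputable def DD (K s : ℕ) (i j : ι) : Matrix (ι → Fin (s + 1)) (ι → Fin (s + 1)) ℂ :=
  Matrix.diagonal (fun f : ι → Fin (s + 1) => phi K s (f i) (f j))

lemma DD_symm (i j : ι) : DD K s i j = DD K s j i := by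
  simp only [DD, phi]
  congr 1
  funext f
  congr 1
  ring

lemma DD_op {A : Matrix (Fin (s + 1)) (Fin (s + 1)) ℂ} {t : ℝ}
    (hA : ∀ a b, A a b ≠ 0 → wt s a = wt s b + t) {i j : ι} (hij : i ≠ j) :
    DD K s i j * op i A =
      op j (Matrix.diagonal fun a => vpow K (t * wt s a / 2)) * (op i A * DD K s i j) := by
  ext f g
  rw [op_diagonal, DD, Matrix.diagonal_mul, Matrix.diagonal_mul, Matrix.mul_diagonal, op_apply]
  split_ifs with h
  · by_cases hz : A (f i) (g i) = 0
    · simp [hz]
    · have hj := h j hij.symm
      have hw := hA _ _ hz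
      have : phi K s (f i) (f j) = vpow K (t * wt s (f j) / 2) * phi K s (g i) (g j) := by
        simp only [phi]
        rw [← vpow_add, hw, hj]
        congr 1
        ring
      rw [this]
      ring
  · simp

lemma DD_F {i j : ι} (hij : i ≠ j) :
    DD K s i j * op i (opF K s) = op j (opKi K s) * (op i (opF K s) * DD K s i j) := by
  rw [DD_op (fun a b h => opF_wt h) hij]
  congr 2
  rw [opKi]
  congr 1
  funext a
  congr 1
  ring

lemma DD_F' {i j : ι} (hij : i ≠ j) :
    DD K s i j * op j (opF K s) = op i (opKi K s) * (op j (opF K s) * DD K s i j) := by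
  rw [DD_symm, DD_F hij.symm]

lemma DD_K (i j k : ι) : DD K s i j * op k (opK K s) = op k (opK K s) * DD K s i j := by
  rw [opK, op_diagonal, DD, Matrix.diagonal_mul_diagonal, Matrix.diagonal_mul_diagonal]
  congr 1
  funext f
  ring

lemma op_commute {i k : ι} (h : i ≠ k) (A B : Matrix (Fin (s + 1)) (Fin (s + 1)) ℂ) :
    Commute (op i A) (op k B) := op_comm i k h A B

lemma opopK (i : ι) : op i (opK K s) * op i (opKi K s) = 1 := by
  rw [← op_mul, opK_mul_opKi, op_one]

lemma opopKi (i : ι) : op i (opKi K s) * op i (opK K s) = 1 := by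
  rw [← op_mul, opKi_mul_opK, op_one]

/-- Theta part of the R-matrix. -/
noncomputable def TH (K s : ℕ) (i j : ι) : Matrix (ι → Fin (s + 1)) (ι → Fin (s + 1)) ℂ :=
  ∑ l ∈ Finset.range (s + 1), rcoef K l • (op i (opE K s) ^ l * op j (opF K s) ^ l)

lemma RR_eq (i j : ι) : RR K s i j = DD K s i j * TH K s i j := rfl

/-- The R-matrix intertwines the coproduct and the opposite coproduct of `F`. -/
lemma RR_F (hK : s + 1 < K) {i j : ι} (hij : i ≠ j) :
    RR K s i j * (op i (opF K s) + op i (opKi K s) * op j (opF K s)) =
      (op j (opF K s) + op j (opKi K s) * op i (opF K s)) * RR K s i j := by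
  have hK2 : 2 ≤ K := by omega
  have h1 := theta_F (A := Matrix (ι → Fin (s + 1)) (ι → Fin (s + 1)) ℂ)
    (E := op i (opE K s)) (F := op i (opF K s)) (K := op i (opK K s)) (K' := op i (opKi K s))
    (F₂ := op j (opF K s)) (v := vpow K 1) (w := vpow K (-1)) (vw_one K) (delta_ne hK2)
    (by rw [← op_mul, K_E, op_smul, op_mul])
    (by rw [← op_mul, Ki_E, op_smul, op_mul])
    (by rw [← op_mul, ← op_mul, ← op_sub, EF_comm hK2, op_smul, op_sub])
    (op_comm _ _ hij.symm _ _) (op_comm _ _ hij.symm _ _) (op_comm _ _ hij.symm _ _)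
    (rcoef K) (rcoef_zero K) s (fun l hl => rcoef_succ (by omega))
  have h2 : op j (opF K s) ^ (s + 1) = 0 := by rw [← op_pow, opF_pow_zero, op_zero]
  rw [h2, mul_zero, smul_zero, sub_eq_zero] at h1
  have h3 : DD K s i j * (op i (opF K s) + op i (opK K s) * op j (opF K s)) =
      (op j (opF K s) + op j (opKi K s) * op i (opF K s)) * DD K s i j := by
    rw [mul_add, DD_F hij, ← mul_assoc (DD K s i j), DD_K, mul_assoc (op i (opK K s)), DD_F' hij,
      ← mul_assoc (op i (opK K s)), opopK, one_mul, add_mul, mul_assoc]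
    exact add_comm _ _
  rw [RR_eq, mul_assoc]
  unfold TH at *
  rw [h1, ← mul_assoc, h3, mul_assoc]

/-- The R-matrix commutes with operators in other sites. -/
lemma RR_op {i j k : ι} (hik : i ≠ k) (hjk : j ≠ k) (B : Matrix (Fin (s + 1)) (Fin (s + 1)) ℂ) :
    RR K s i j * op k B = op k B * RR K s i j := by
  have hD : DD K s i j * op k B = op k B * DD K s i j := by
    ext f g
    rw [DD, Matrix.diagonal_mul, Matrix.mul_diagonal, op_apply]
    split_ifs with h
    · rw [h i hik, h j hjk, mul_comm]
    · simp
  have hT : Commute (TH K s i j) (op k B) := by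
    unfold TH
    apply Commute.sum_left
    intro l _
    apply Commute.smul_left
    exact ((op_commute hik _ _).pow_left l).mul_left ((op_commute hjk _ _).pow_left l)
  rw [RR_eq, mul_assoc, hT.eq, ← mul_assoc, hD, mul_assoc]

/-- The R-matrix commutes with `K ⊗ K`. -/
lemma RR_KK {i j : ι} (hij : i ≠ j) :
    RR K s i j * (op i (opK K s) * op j (opK K s)) =
      (op i (opK K s) * op j (opK K s)) * RR K s i j := by
  have hD : DD K s i j * (op i (opK K s) * op j (opK K s)) =
      (op i (opK K s) * op j (opK K s)) * DD K s i j := by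
    rw [← mul_assoc, DD_K, mul_assoc, DD_K, mul_assoc]
  have hT : Commute (TH K s i j) (op i (opK K s) * op j (opK K s)) := by
    unfold TH
    apply Commute.sum_left
    intro l _
    apply Commute.smul_left
    rw [commute_iff_eq]
    have e1 : op i (opK K s) * op i (opE K s) ^ l =
        (vpow K 1 ^ 2) ^ l • (op i (opE K s) ^ l * op i (opK K s)) := by
      apply pow_comm_smul
      rw [← op_mul, K_E, op_smul, op_mul]
    have e2 : op j (opK K s) * op j (opF K s) ^ l =
        (vpow K (-1) ^ 2) ^ l • (op j (opF K s) ^ l * op j (opK K s)) := by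
      apply pow_comm_smul
      rw [← op_mul, K_F, op_smul, op_mul]
    have c1 : op j (opK K s) * op i (opE K s) ^ l = op i (opE K s) ^ l * op j (opK K s) :=
      ((op_commute hij.symm _ _).pow_right l).eq
    have c2 : op i (opK K s) * op j (opF K s) ^ l = op j (opF K s) ^ l * op i (opK K s) :=
      ((op_commute hij _ _).pow_right l).eq
    have hs : (vpow K 1 ^ 2) ^ l * (vpow K (-1) ^ 2) ^ l = 1 := by
      rw [← mul_pow, ← mul_pow, vw_one]; simp
    calc op i (opE K s) ^ l * op j (opF K s) ^ l * (op i (opK K s) * op j (opK K s))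
        = op i (opE K s) ^ l * (op j (opF K s) ^ l * op i (opK K s)) * op j (opK K s) := by
          simp only [mul_assoc]
      _ = op i (opE K s) ^ l * op i (opK K s) * (op j (opF K s) ^ l * op j (opK K s)) := by
          rw [← c2]; simp only [mul_assoc]
      _ = ((vpow K 1 ^ 2) ^ l • (op i (opE K s) ^ l * op i (opK K s))) *
          ((vpow K (-1) ^ 2) ^ l • (op j (opF K s) ^ l * op j (opK K s))) := by
          rw [smul_mul_smul_comm, hs, one_smul]
      _ = (op i (opK K s) * op i (opE K s) ^ l) * (op j (opK K s) * op j (opF K s) ^ l) := by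
          rw [← e1, ← e2]
      _ = op i (opK K s) * (op i (opE K s) ^ l * op j (opK K s)) * op j (opF K s) ^ l := by
          simp only [mul_assoc]
      _ = op i (opK K s) * op j (opK K s) * (op i (opE K s) ^ l * op j (opF K s) ^ l) := by
          rw [← c1]; simp only [mul_assoc]
  rw [RR_eq, mul_assoc, hT.eq, ← mul_assoc, hD, mul_assoc]

lemma RR_KKi {i j : ι} (hij : i ≠ j) :
    RR K s i j * (op i (opKi K s) * op j (opKi K s)) =
      (op i (opKi K s) * op j (opKi K s)) * RR K s i j := by
  have hUV : (op i (opK K s) * op j (opK K s)) * (op i (opKi K s) * op j (opKi K s)) = 1 := by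
    rw [mul_assoc, ← mul_assoc (op j (opK K s)), op_comm j i hij.symm, mul_assoc, opopK, mul_one,
      opopK]
  have hVU : (op i (opKi K s) * op j (opKi K s)) * (op i (opK K s) * op j (opK K s)) = 1 := by
    rw [mul_assoc, ← mul_assoc (op j (opKi K s)), op_comm j i hij.symm, mul_assoc, opopKi, mul_one,
      opopKi]
  have h := RR_KK (K := K) (s := s) hij
  set U := op i (opK K s) * op j (opK K s)
  set V := op i (opKi K s) * op j (opKi K s)
  calc RR K s i j * V = V * U * RR K s i j * V := by rw [hVU, one_mul]
    _ = V * (RR K s i j * U) * V := by rw [h, mul_assoc V U]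
    _ = V * RR K s i j * (U * V) := by simp only [mul_assoc]
    _ = V * RR K s i j := by rw [hUV, mul_one]

lemma opKiKi (i j : ι) : op i (opKi K s) * op j (opKi K s) = op j (opKi K s) * op i (opKi K s) := by
  rw [opKi, op_diagonal, op_diagonal, Matrix.diagonal_mul_diagonal, Matrix.diagonal_mul_diagonal]
  congr 1
  funext f
  ring

/-- The iterated coproduct of `F` in the order `a, b, c, d` of tensor factors. -/
noncomputable def D4 (K s : ℕ) (a b c d : Fin 4) :
    Matrix (Fin 4 → Fin (s + 1)) (Fin 4 → Fin (s + 1)) ℂ :=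
  op a (opF K s) + op a (opKi K s) * (op b (opF K s) + op b (opKi K s) * (op c (opF K s) +
    op c (opKi K s) * op d (opF K s)))

lemma swap12 (hK : s + 1 < K) {a b c d : Fin 4} (hab : a ≠ b) (hac : a ≠ c) (had : a ≠ d)
    (hbc : b ≠ c) (hbd : b ≠ d) :
    RR K s a b * D4 K s a b c d = D4 K s b a c d * RR K s a b := by
  have h1 := RR_F (K := K) (s := s) hK hab
  have h2 := RR_KKi (K := K) (s := s) hab
  have hX : RR K s a b * (op c (opF K s) + op c (opKi K s) * op d (opF K s)) =
      (op c (opF K s) + op c (opKi K s) * op d (opF K s)) * RR K s a b := by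
    rw [mul_add, add_mul, RR_op hac hbc, ← mul_assoc, RR_op hac hbc, mul_assoc, RR_op had hbd,
      mul_assoc]
  unfold D4
  set X := op c (opF K s) + op c (opKi K s) * op d (opF K s)
  calc RR K s a b * (op a (opF K s) + op a (opKi K s) * (op b (opF K s) + op b (opKi K s) * X))
      = RR K s a b * (op a (opF K s) + op a (opKi K s) * op b (opF K s)) +
        RR K s a b * (op a (opKi K s) * op b (opKi K s)) * X := by
        simp only [mul_add, mul_assoc, add_assoc]
    _ = (op b (opF K s) + op b (opKi K s) * op a (opF K s)) * RR K s a b +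
        (op a (opKi K s) * op b (opKi K s)) * (RR K s a b * X) := by
        rw [h1, h2, mul_assoc _ (RR K s a b) X]
    _ = (op b (opF K s) + op b (opKi K s) * op a (opF K s)) * RR K s a b +
        (op b (opKi K s) * op a (opKi K s)) * (X * RR K s a b) := by
        rw [hX, opKiKi a b]
    _ = _ := by simp only [mul_add, add_mul, mul_assoc, add_assoc]

lemma swap23 (hK : s + 1 < K) {a b c d : Fin 4} (hab : a ≠ b) (hac : a ≠ c)
    (hbc : b ≠ c) (hbd : b ≠ d) (hcd : c ≠ d) :
    RR K s b c * D4 K s a b c d = D4 K s a c b d * RR K s b c := by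
  have h1 := RR_F (K := K) (s := s) hK hbc
  have h2 := RR_KKi (K := K) (s := s) hbc
  have hX : RR K s b c * op d (opF K s) = op d (opF K s) * RR K s b c := RR_op hbd hcd _
  have hA1 : RR K s b c * op a (opF K s) = op a (opF K s) * RR K s b c := RR_op hab.symm hac.symm _
  have hA2 : RR K s b c * op a (opKi K s) = op a (opKi K s) * RR K s b c :=
    RR_op hab.symm hac.symm _
  have hin : RR K s b c * (op b (opF K s) + op b (opKi K s) * (op c (opF K s) +
      op c (opKi K s) * op d (opF K s))) = (op c (opF K s) + op c (opKi K s) * (op b (opF K s) +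
      op b (opKi K s) * op d (opF K s))) * RR K s b c := by
    calc _ = RR K s b c * (op b (opF K s) + op b (opKi K s) * op c (opF K s)) +
        RR K s b c * (op b (opKi K s) * op c (opKi K s)) * op d (opF K s) := by
          simp only [mul_add, mul_assoc, add_assoc]
      _ = (op c (opF K s) + op c (opKi K s) * op b (opF K s)) * RR K s b c +
        (op b (opKi K s) * op c (opKi K s)) * (RR K s b c * op d (opF K s)) := by
          rw [h1, h2, mul_assoc _ (RR K s b c) (op d _)]
      _ = (op c (opF K s) + op c (opKi K s) * op b (opF K s)) * RR K s b c +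
        (op c (opKi K s) * op b (opKi K s)) * (op d (opF K s) * RR K s b c) := by
          rw [hX, opKiKi b c]
      _ = _ := by simp only [mul_add, add_mul, mul_assoc, add_assoc]
  unfold D4
  rw [mul_add, hA1, ← mul_assoc, hA2, mul_assoc, hin]
  simp only [add_mul, mul_add, mul_assoc]

lemma swap34 (hK : s + 1 < K) {a b c d : Fin 4} (hac : a ≠ c) (had : a ≠ d)
    (hbc : b ≠ c) (hbd : b ≠ d) (hcd : c ≠ d) :
    RR K s c d * D4 K s a b c d = D4 K s a b d c * RR K s c d := by
  have h1 := RR_F (K := K) (s := s) hK hcd
  have hA1 : RR K s c d * op a (opF K s) = op a (opF K s) * RR K s c d := RR_op hac.symm had.symm _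
  have hA2 : RR K s c d * op a (opKi K s) = op a (opKi K s) * RR K s c d :=
    RR_op hac.symm had.symm _
  have hB1 : RR K s c d * op b (opF K s) = op b (opF K s) * RR K s c d := RR_op hbc.symm hbd.symm _
  have hB2 : RR K s c d * op b (opKi K s) = op b (opKi K s) * RR K s c d :=
    RR_op hbc.symm hbd.symm _
  unfold D4
  rw [mul_add, hA1, ← mul_assoc (RR K s c d), hA2, mul_assoc _ (RR K s c d), mul_add (RR K s c d),
    hB1, ← mul_assoc (RR K s c d), hB2, mul_assoc _ (RR K s c d), h1]
  simp only [add_mul, mul_add, mul_assoc]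

/-- `MM` commutes with the coproduct of `F`. -/
lemma MM_F (hK : s + 1 < K) : MM K s * D4 K s 0 1 2 3 = D4 K s 0 1 2 3 * MM K s := by
  have e1 := swap23 (K := K) (s := s) hK (a := 0) (b := 1) (c := 2) (d := 3)
    (by decide) (by decide) (by decide) (by decide) (by decide)
  have e2 := swap34 (K := K) (s := s) hK (a := 0) (b := 2) (c := 1) (d := 3)
    (by decide) (by decide) (by decide) (by decide) (by decide)
  have e3 := swap12 (K := K) (s := s) hK (a := 0) (b := 2) (c := 3) (d := 1)
    (by decide) (by decide) (by decide) (by decide) (by decide)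
  have e4 := swap23 (K := K) (s := s) hK (a := 2) (b := 0) (c := 3) (d := 1)
    (by decide) (by decide) (by decide) (by decide) (by decide)
  have f1 := swap23 (K := K) (s := s) hK (a := 2) (b := 3) (c := 0) (d := 1)
    (by decide) (by decide) (by decide) (by decide) (by decide)
  have f2 := swap34 (K := K) (s := s) hK (a := 2) (b := 0) (c := 3) (d := 1)
    (by decide) (by decide) (by decide) (by decide) (by decide)
  have f3 := swap12 (K := K) (s := s) hK (a := 2) (b := 0) (c := 1) (d := 3)
    (by decide) (by decide) (by decide) (by decide) (by decide)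
  have f4 := swap23 (K := K) (s := s) hK (a := 0) (b := 2) (c := 1) (d := 3)
    (by decide) (by decide) (by decide) (by decide) (by decide)
  unfold MM
  simp only [mul_assoc]
  rw [e1, ← mul_assoc (RR K s 1 3), e2, mul_assoc _ (RR K s 1 3), ← mul_assoc (RR K s 0 2), e3,
    mul_assoc _ (RR K s 0 2), ← mul_assoc (RR K s 0 3), e4, mul_assoc _ (RR K s 0 3),
    ← mul_assoc (RR K s 3 0), f1, mul_assoc _ (RR K s 3 0), ← mul_assoc (RR K s 3 1), f2,
    mul_assoc _ (RR K s 3 1), ← mul_assoc (RR K s 2 0), f3, mul_assoc _ (RR K s 2 0),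
    ← mul_assoc (RR K s 2 1), f4, mul_assoc _ (RR K s 2 1)]

/-- The product of `K` over all sites commutes with `MM`. -/
lemma MM_K : MM K s * (op 0 (opK K s) * op 1 (opK K s) * (op 2 (opK K s) * op 3 (opK K s))) =
    (op 0 (opK K s) * op 1 (opK K s) * (op 2 (opK K s) * op 3 (opK K s))) * MM K s := by
  have key : ∀ a b c d : Fin 4, a ≠ b → a ≠ c → a ≠ d → b ≠ c → b ≠ d →
      Commute (RR K s a b) ((op a (opK K s) * op b (opK K s)) *
        (op c (opK K s) * op d (opK K s))) := by
    intro a b c d hab hac had hbc hbd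
    have h1 : Commute (RR K s a b) (op a (opK K s) * op b (opK K s)) := RR_KK hab
    have h2 : Commute (RR K s a b) (op c (opK K s)) := RR_op hac hbc _
    have h3 : Commute (RR K s a b) (op d (opK K s)) := RR_op had hbd _
    exact h1.mul_right (h2.mul_right h3)
  have hdiag : ∀ a b c d : Fin 4, (op a (opK K s) * op b (opK K s)) *
        (op c (opK K s) * op d (opK K s)) =
      Matrix.diagonal (fun f => vpow K (wt s (f a)) * vpow K (wt s (f b)) *
        (vpow K (wt s (f c)) * vpow K (wt s (f d)))) := by
    intro a b c d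
    simp only [opK, op_diagonal, Matrix.diagonal_mul_diagonal]
  have hall : ∀ a b c d : Fin 4, a ≠ b → a ≠ c → a ≠ d → b ≠ c → b ≠ d →
      (∀ f : Fin 4 → Fin (s + 1), vpow K (wt s (f a)) * vpow K (wt s (f b)) *
        (vpow K (wt s (f c)) * vpow K (wt s (f d))) = vpow K (wt s (f 0)) * vpow K (wt s (f 1)) *
        (vpow K (wt s (f 2)) * vpow K (wt s (f 3)))) →
      Commute (RR K s a b) ((op 0 (opK K s) * op 1 (opK K s)) *
        (op 2 (opK K s) * op 3 (opK K s))) := by
    intro a b c d hab hac had hbc hbd h
    have := key a b c d hab hac had hbc hbd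
    rw [hdiag] at this ⊢
    rwa [show (fun f : Fin 4 → Fin (s + 1) => vpow K (wt s (f a)) * vpow K (wt s (f b)) *
        (vpow K (wt s (f c)) * vpow K (wt s (f d)))) = fun f => vpow K (wt s (f 0)) *
        vpow K (wt s (f 1)) * (vpow K (wt s (f 2)) * vpow K (wt s (f 3))) from funext h] at this
  unfold MM
  apply Commute.mul_left
  · refine Commute.mul_left (Commute.mul_left (Commute.mul_left ?_ ?_) ?_) ?_
    · exact hall 2 1 0 3 (by decide) (by decide) (by decide) (by decide) (by decide)
        (fun f => by ring)
    · exact hall 2 0 1 3 (by decide) (by decide) (by decide) (by decide) (by decide)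
        (fun f => by ring)
    · exact hall 3 1 0 2 (by decide) (by decide) (by decide) (by decide) (by decide)
        (fun f => by ring)
    · exact hall 3 0 1 2 (by decide) (by decide) (by decide) (by decide) (by decide)
        (fun f => by ring)
  · refine Commute.mul_left (Commute.mul_left (Commute.mul_left ?_ ?_) ?_) ?_
    · exact hall 0 3 1 2 (by decide) (by decide) (by decide) (by decide) (by decide)
        (fun f => by ring)
    · exact hall 0 2 1 3 (by decide) (by decide) (by decide) (by decide) (by decide)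
        (fun f => by ring)
    · exact hall 1 3 0 2 (by decide) (by decide) (by decide) (by decide) (by decide)
        (fun f => by ring)
    · exact hall 1 2 0 3 (by decide) (by decide) (by decide) (by decide) (by decide)
        (fun f => by ring)

end Pool.Agent.AEC
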