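import Mathlib

/-!
Operators acting on one or two tensor factors, as matrices indexed by functions.
-/

set_option autoImplicit false
set_option linter.unusedSectionVars false
set_option linter.unusedSimpArgs false

open Matrix Function

namespace Pool.Agent.AEC

variable {ι I : Type*} [Fintype ι] [DecidableEq ι] [Fintype I] [DecidableEq I]

/-- `op i A`: the matrix `A` acting in the tensor factor `i`. -/
noncomputable def op (i : ι) (A : Matrix I I ℂ) : Matrix (ι → I) (ι → I) ℂ :=
  Matrix.of fun f g => if ∀ k, k ≠ i → f k = g k then A (f i) (g i) else 0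

lemma op_apply (i : ι) (A : Matrix I I ℂ) (f g : ι → I) :
    op i A f g = if ∀ k, k ≠ i → f k = g k then A (f i) (g i) else 0 := rfl

lemma op_mul_apply (i : ι) (A : Matrix I I ℂ)
    (M : Matrix (ι → I) (ι → I) ℂ) (f g : ι → I) :
    (op i A * M) f g = ∑ x, A (f i) x * M (update f i x) g := by
  rw [Matrix.mul_apply]
  symm
  apply Fintype.sum_of_injective (fun x => update f i x) (update_injective f i)
  · intro h hh
    rw [op_apply, if_neg, zero_mul]
    intro hk
    apply hh
    refine ⟨h i, ?_⟩
    funext k
    by_cases hki : k = i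
    · subst hki; simp
    · simp [hki, hk k hki]
  · intro x
    rw [op_apply, if_pos]
    · simp
    · intro k hk; simp [hk]

lemma mul_op_apply (i : ι) (A : Matrix I I ℂ)
    (M : Matrix (ι → I) (ι → I) ℂ) (f g : ι → I) :
    (M * op i A) f g = ∑ x, M f (update g i x) * A x (g i) := by
  rw [Matrix.mul_apply]
  symm
  apply Fintype.sum_of_injective (fun x => update g i x) (update_injective g i)
  · intro h hh
    rw [op_apply, if_neg, mul_zero]
    intro hk
    apply hh
    refine ⟨h i, ?_⟩
    funext k
    by_cases hki : k = i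
    · subst hki; simp
    · simp [hki, hk k hki]
  · intro x
    rw [op_apply, if_pos]
    · simp
    · intro k hk; simp [hk]

lemma op_mul (i : ι) (A B : Matrix I I ℂ) : op i (A * B) = op i A * op i B := by
  ext f g
  rw [op_mul_apply, op_apply]
  have key : ∀ x, op i B (update f i x) g = if ∀ k, k ≠ i → f k = g k then B x (g i) else 0 := by
    intro x
    rw [op_apply]
    have : (∀ k, k ≠ i → update f i x k = g k) ↔ (∀ k, k ≠ i → f k = g k) := by
      constructor
      · intro h k hk; have := h k hk; simpa [hk] using this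
      · intro h k hk; simpa [hk] using h k hk
    simp [this]
  simp_rw [key]
  split_ifs with h
  · rw [Matrix.mul_apply]
  · simp

lemma op_mul_op_ne (i j : ι) (hij : i ≠ j) (A B : Matrix I I ℂ) (f g : ι → I) :
    (op i A * op j B) f g =
      if ∀ k, k ≠ i → k ≠ j → f k = g k then A (f i) (g i) * B (f j) (g j) else 0 := by
  rw [op_mul_apply]
  have key : ∀ x, op j B (update f i x) g =
      if x = g i then (if ∀ k, k ≠ i → k ≠ j → f k = g k then B (f j) (g j) else 0) else 0 := by
    intro x
    rw [op_apply]
    have hj : update f i x j = f j := by simp [hij.symm]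
    rw [hj]
    by_cases hx : x = g i
    · subst hx
      have : (∀ k, k ≠ j → update f i (g i) k = g k) ↔ (∀ k, k ≠ i → k ≠ j → f k = g k) := by
        constructor
        · intro h k hk hkj; have := h k hkj; simpa [hk] using this
        · intro h k hkj
          by_cases hki : k = i
          · subst hki; simp
          · simpa [hki] using h k hki hkj
      simp [this]
    · rw [if_neg, if_neg hx]
      intro h
      apply hx
      have := h i hij
      simpa using this
  simp_rw [key]
  simp only [mul_ite, mul_zero, Finset.sum_ite_eq', Finset.mem_univ, if_true]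

lemma op_comm (i j : ι) (hij : i ≠ j) (A B : Matrix I I ℂ) :
    op i A * op j B = op j B * op i A := by
  ext f g
  rw [op_mul_op_ne i j hij, op_mul_op_ne j i hij.symm]
  have : (∀ k, k ≠ i → k ≠ j → f k = g k) ↔ (∀ k, k ≠ j → k ≠ i → f k = g k) :=
    ⟨fun h k h1 h2 => h k h2 h1, fun h k h1 h2 => h k h2 h1⟩
  simp only [this]
  split_ifs
  · ring
  · rfl

lemma op_one (i : ι) : op i (1 : Matrix I I ℂ) = 1 := by
  ext f g
  rw [op_apply, Matrix.one_apply, Matrix.one_apply]
  by_cases h : f = g
  · subst h; simp
  · rw [if_neg h]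
    split_ifs with h1 h2
    · exfalso; apply h; funext k
      by_cases hk : k = i
      · subst hk; exact h2
      · exact h1 k hk
    · rfl
    · rfl

lemma op_smul (i : ι) (c : ℂ) (A : Matrix I I ℂ) : op i (c • A) = c • op i A := by
  ext f g
  simp only [op_apply, Matrix.smul_apply, smul_eq_mul, mul_ite, mul_zero]

lemma op_sub (i : ι) (A B : Matrix I I ℂ) : op i (A - B) = op i A - op i B := by
  ext f g
  simp only [op_apply, Matrix.sub_apply]
  split_ifs <;> simp

lemma op_zero (i : ι) : op i (0 : Matrix I I ℂ) = 0 := by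
  ext f g
  simp [op_apply]

lemma op_pow (i : ι) (A : Matrix I I ℂ) (l : ℕ) : op i (A ^ l) = op i A ^ l := by
  induction l with
  | zero => simp [op_one]
  | succ l ih => rw [pow_succ, op_mul, ih, pow_succ]

lemma op_diagonal (i : ι) (d : I → ℂ) :
    op i (Matrix.diagonal d) = Matrix.diagonal (fun f : ι → I => d (f i)) := by
  ext f g
  rw [op_apply, Matrix.diagonal_apply, Matrix.diagonal_apply]
  by_cases h : f = g
  · subst h; simp
  · rw [if_neg h]
    split_ifs with h1 h2
    · exfalso; apply h; funext k
      by_cases hk : k = i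
      · subst hk; exact h2
      · exact h1 k hk
    · rfl
    · rfl

/-- Permutation of the tensor factors. -/
noncomputable def permM (π : Equiv.Perm ι) : Matrix (ι → I) (ι → I) ℂ :=
  Matrix.of fun f g => if g = f ∘ π then 1 else 0

lemma permM_mul_apply (π : Equiv.Perm ι) (M : Matrix (ι → I) (ι → I) ℂ) (f g : ι → I) :
    ((permM π : Matrix (ι → I) (ι → I) ℂ) * M) f g = M (f ∘ π) g := by
  rw [Matrix.mul_apply]
  simp [permM]

lemma mul_permM_apply (π : Equiv.Perm ι) (M : Matrix (ι → I) (ι → I) ℂ) (f g : ι → I) :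
    (M * (permM π : Matrix (ι → I) (ι → I) ℂ)) f g = M f (g ∘ π.symm) := by
  rw [Matrix.mul_apply]
  have : ∀ x : ι → I, (g = x ∘ π) ↔ (g ∘ π.symm = x) := by
    intro x
    constructor
    · rintro rfl; funext k; simp
    · rintro rfl; funext k; simp
  simp [permM, this]

lemma permM_mul (π σ : Equiv.Perm ι) :
    (permM π * permM σ : Matrix (ι → I) (ι → I) ℂ) = permM (π * σ) := by
  ext f g
  rw [permM_mul_apply]
  by_cases h : g = f ∘ π ∘ σ
  · subst h; simp [permM, Function.comp_assoc]
  · simp only [permM, Matrix.of_apply, Equiv.Perm.coe_mul, Function.comp_assoc]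
    rw [if_neg h]
    exact (if_neg h).symm

lemma permM_one : (permM 1 : Matrix (ι → I) (ι → I) ℂ) = 1 := by
  ext f g
  simp [permM, Matrix.one_apply, eq_comm]

lemma permM_mul_op (π : Equiv.Perm ι) (i : ι) (A : Matrix I I ℂ) :
    permM π * op i A = op (π i) A * permM π := by
  ext f g
  rw [permM_mul_apply, mul_permM_apply, op_apply, op_apply]
  have : (∀ k, k ≠ i → (f ∘ π) k = g k) ↔ (∀ k, k ≠ π i → f k = (g ∘ π.symm) k) := by
    constructor
    · intro h k hk
      have := h (π.symm k) (by intro h'; apply hk; rw [← h']; simp)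
      simpa using this
    · intro h k hk
      have := h (π k) (by intro h'; apply hk; exact π.injective h')
      simpa using this
  by_cases hc : ∀ k, k ≠ i → (f ∘ π) k = g k
  · rw [if_pos hc, if_pos (this.mp hc)]; simp
  · rw [if_neg hc, if_neg (fun h' => hc (this.mpr h'))]

lemma permM_mul_diagonal (π : Equiv.Perm ι) (i j : ι) (φ : I → I → ℂ) :
    permM π * Matrix.diagonal (fun f : ι → I => φ (f i) (f j)) =
      Matrix.diagonal (fun f : ι → I => φ (f (π i)) (f (π j))) * permM π := by
  ext f g
  rw [permM_mul_apply, Matrix.diagonal_mul, Matrix.diagonal_apply]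
  simp only [permM, Matrix.of_apply, Function.comp_apply]
  by_cases h : g = f ∘ π
  · subst h; simp
  · rw [if_neg (fun h' => h h'.symm), if_neg h]; simp

/-- The two-site operator `φ * ∑ c_l E_i^l F_j^l`. -/
noncomputable def twoSite (φ : I → I → ℂ) (c : ℕ → ℂ) (N : ℕ) (E F : Matrix I I ℂ) (i j : ι) :
    Matrix (ι → I) (ι → I) ℂ :=
  Matrix.diagonal (fun f : ι → I => φ (f i) (f j)) *
    ∑ l ∈ Finset.range N, c l • (op i E ^ l * op j F ^ l)

lemma permM_mul_twoSite (φ : I → I → ℂ) (c : ℕ → ℂ) (N : ℕ) (E F : Matrix I I ℂ) (i j : ι)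
    (π : Equiv.Perm ι) :
    permM π * twoSite φ c N E F i j = twoSite φ c N E F (π i) (π j) * permM π := by
  rw [twoSite, twoSite, ← mul_assoc, permM_mul_diagonal, mul_assoc, mul_assoc]
  congr 1
  rw [Finset.mul_sum, Finset.sum_mul]
  refine Finset.sum_congr rfl fun l _ => ?_
  rw [Matrix.mul_smul, Matrix.smul_mul, ← op_pow, ← op_pow, ← mul_assoc, permM_mul_op, mul_assoc,
    permM_mul_op, ← mul_assoc, op_pow, op_pow]

/-- Same relation, read from right to left. -/
lemma twoSite_mul_permM (φ : I → I → ℂ) (c : ℕ → ℂ) (N : ℕ) (E F : Matrix I I ℂ) (i j : ι)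
    (π : Equiv.Perm ι) :
    twoSite φ c N E F i j * permM π =
      permM π * twoSite φ c N E F (π.symm i) (π.symm j) := by
  rw [permM_mul_twoSite]
  simp

end Pool.Agent.AEC
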