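import Pool.Agent.AEC.Inter

/-!
Trace over the tensor factors 2 and 3.
-/

set_option autoImplicit false
set_option linter.unusedSectionVars false
set_option linter.unusedSimpArgs false

open Matrix Function
open scoped Kronecker

namespace Pool.Agent.AEC

section general

variable {I : Type} [Fintype I] [DecidableEq I]

/-- The function `Fin 4 → I` with the given values. -/
def mk (p r : I × I) : Fin 4 → I := ![p.1, p.2, r.1, r.2]

/-- `Fin 4 → I` as a product. -/
def e4 : (I × I) × (I × I) ≃ (Fin 4 → I) where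
  toFun x := mk x.1 x.2
  invFun f := ((f 0, f 1), (f 2, f 3))
  left_inv x := rfl
  right_inv f := by
    funext k
    fin_cases k <;> rfl

lemma sum_fin4 (G : (Fin 4 → I) → ℂ) : ∑ f, G f = ∑ p : I × I, ∑ r : I × I, G (mk p r) := by
  rw [← Fintype.sum_prod_type' (fun p r => G (mk p r))]
  exact (Fintype.sum_equiv e4 (fun x : (I × I) × (I × I) => G (mk x.1 x.2)) G (fun x => rfl)).symm

lemma update0 (p r : I × I) (x : I) : update (mk p r) 0 x = mk (x, p.2) r := by
  funext k; fin_cases k <;> rfl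
lemma update1 (p r : I × I) (x : I) : update (mk p r) 1 x = mk (p.1, x) r := by
  funext k; fin_cases k <;> rfl
lemma update2 (p r : I × I) (x : I) : update (mk p r) 2 x = mk p (x, r.2) := by
  funext k; fin_cases k <;> rfl
lemma update3 (p r : I × I) (x : I) : update (mk p r) 3 x = mk p (r.1, x) := by
  funext k; fin_cases k <;> rfl

/-- Trace over the factors 2 and 3. -/
noncomputable def PT (N : Matrix (Fin 4 → I) (Fin 4 → I) ℂ) : Matrix (I × I) (I × I) ℂ :=
  Matrix.of fun p p' => ∑ r : I × I, N (mk p r) (mk p' r)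

lemma PT_add (M N : Matrix (Fin 4 → I) (Fin 4 → I) ℂ) : PT (M + N) = PT M + PT N := by
  ext p p'
  simp [PT, Finset.sum_add_distrib]

lemma PT_sub (M N : Matrix (Fin 4 → I) (Fin 4 → I) ℂ) : PT (M - N) = PT M - PT N := by
  ext p p'
  simp [PT, Finset.sum_sub_distrib]

lemma PT_left0 (B : Matrix I I ℂ) (N : Matrix (Fin 4 → I) (Fin 4 → I) ℂ) :
    PT (op 0 B * N) = (B ⊗ₖ (1 : Matrix I I ℂ)) * PT N := by
  ext p p'
  simp only [PT, Matrix.of_apply, op_mul_apply, update0]
  rw [Matrix.mul_apply]
  simp only [PT, Matrix.of_apply, kroneckerMap_apply]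
  conv_lhs => rw [Finset.sum_comm]
  conv_rhs => rw [Fintype.sum_prod_type]
  refine Finset.sum_congr rfl fun x _ => ?_
  rw [Finset.sum_eq_single p.2]
  · simp only [Matrix.one_apply_eq, mul_one, Finset.mul_sum]; rfl
  · intro y _ hy; simp [Matrix.one_apply_ne hy.symm]
  · simp

lemma PT_left1 (B : Matrix I I ℂ) (N : Matrix (Fin 4 → I) (Fin 4 → I) ℂ) :
    PT (op 1 B * N) = ((1 : Matrix I I ℂ) ⊗ₖ B) * PT N := by
  ext p p'
  simp only [PT, Matrix.of_apply, op_mul_apply, update1]
  rw [Matrix.mul_apply]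
  simp only [PT, Matrix.of_apply, kroneckerMap_apply]
  conv_lhs => rw [Finset.sum_comm]
  conv_rhs => rw [Fintype.sum_prod_type]
  conv_rhs => rw [Finset.sum_eq_single p.1 (by
    intro y _ hy
    simp [Matrix.one_apply_ne hy.symm]) (by simp)]
  refine Finset.sum_congr rfl fun x _ => ?_
  simp only [Matrix.one_apply_eq, one_mul, Finset.mul_sum]
  rfl

lemma PT_right0 (B : Matrix I I ℂ) (N : Matrix (Fin 4 → I) (Fin 4 → I) ℂ) :
    PT (N * op 0 B) = PT N * (B ⊗ₖ (1 : Matrix I I ℂ)) := by
  ext p p'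
  simp only [PT, Matrix.of_apply, mul_op_apply, update0]
  rw [Matrix.mul_apply]
  simp only [PT, Matrix.of_apply, kroneckerMap_apply]
  conv_lhs => rw [Finset.sum_comm]
  conv_rhs => rw [Fintype.sum_prod_type]
  refine Finset.sum_congr rfl fun x _ => ?_
  rw [Finset.sum_eq_single p'.2]
  · simp only [Matrix.one_apply_eq, mul_one, Finset.sum_mul]; rfl
  · intro y _ hy; simp [Matrix.one_apply_ne hy]
  · simp

lemma PT_right1 (B : Matrix I I ℂ) (N : Matrix (Fin 4 → I) (Fin 4 → I) ℂ) :
    PT (N * op 1 B) = PT N * ((1 : Matrix I I ℂ) ⊗ₖ B) := by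
  ext p p'
  simp only [PT, Matrix.of_apply, mul_op_apply, update1]
  rw [Matrix.mul_apply]
  simp only [PT, Matrix.of_apply, kroneckerMap_apply]
  conv_lhs => rw [Finset.sum_comm]
  conv_rhs => rw [Fintype.sum_prod_type]
  conv_rhs => rw [Finset.sum_eq_single p'.1 (by
    intro y _ hy
    simp [Matrix.one_apply_ne hy]) (by simp)]
  refine Finset.sum_congr rfl fun x _ => ?_
  simp only [Matrix.one_apply_eq, one_mul, Finset.sum_mul]
  rfl

lemma PT_cyc2 (B : Matrix I I ℂ) (N : Matrix (Fin 4 → I) (Fin 4 → I) ℂ) :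
    PT (op 2 B * N) = PT (N * op 2 B) := by
  ext p p'
  simp only [PT, Matrix.of_apply, mul_op_apply, op_mul_apply, update2, Fintype.sum_prod_type]
  rw [Finset.sum_comm]
  conv_rhs => rw [Finset.sum_comm]
  refine Finset.sum_congr rfl fun y _ => ?_
  rw [Finset.sum_comm]
  refine Finset.sum_congr rfl fun x _ => ?_
  refine Finset.sum_congr rfl fun z _ => ?_
  exact mul_comm _ _

lemma PT_cyc3 (B : Matrix I I ℂ) (N : Matrix (Fin 4 → I) (Fin 4 → I) ℂ) :
    PT (op 3 B * N) = PT (N * op 3 B) := by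
  ext p p'
  simp only [PT, Matrix.of_apply, mul_op_apply, op_mul_apply, update3, Fintype.sum_prod_type]
  refine Finset.sum_congr rfl fun y _ => ?_
  rw [Finset.sum_comm]
  refine Finset.sum_congr rfl fun x _ => ?_
  refine Finset.sum_congr rfl fun z _ => ?_
  exact mul_comm _ _

end general

section comm

variable {K s : ℕ}

/-- `K` on `X = V ⊗ V`. -/
noncomputable def KX (K s : ℕ) : Matrix (Fin (s + 1) × Fin (s + 1)) (Fin (s + 1) × Fin (s + 1)) ℂ :=
  opK K s ⊗ₖ opK K s

/-- `F` on `X = V ⊗ V`. -/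
noncomputable def FX (K s : ℕ) : Matrix (Fin (s + 1) × Fin (s + 1)) (Fin (s + 1) × Fin (s + 1)) ℂ :=
  opF K s ⊗ₖ 1 + (opKi K s ⊗ₖ 1) * (1 ⊗ₖ opF K s)

/-- `E` on `X = V ⊗ V`. -/
noncomputable def EX (K s : ℕ) : Matrix (Fin (s + 1) × Fin (s + 1)) (Fin (s + 1) × Fin (s + 1)) ℂ :=
  opE K s ⊗ₖ opK K s + 1 ⊗ₖ opE K s

/-- The operator on `X` obtained from `MM` by closing the strands 2 and 3. -/
noncomputable def Tm (K s : ℕ) : Matrix (Fin (s + 1) × Fin (s + 1)) (Fin (s + 1) × Fin (s + 1)) ℂ :=
  PT (op 2 (opK K s) * op 3 (opK K s) * MM K s)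

lemma Tm_FX (hK : s + 1 < K) : Tm K s * FX K s = FX K s * Tm K s := by
  set H := op (2 : Fin 4) (opK K s) * op 3 (opK K s) with hH
  set H' := op (2 : Fin 4) (opKi K s) * op 3 (opKi K s) with hH'
  set FW := op (0 : Fin 4) (opF K s) + op 0 (opKi K s) * op 1 (opF K s) with hFW
  set FY := op (2 : Fin 4) (opF K s) + op 2 (opKi K s) * op 3 (opF K s) with hFY
  set V := op (0 : Fin 4) (opKi K s) * op 1 (opKi K s) with hV
  set U := op (0 : Fin 4) (opK K s) * op 1 (opK K s) with hU
  set M := MM K s with hM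
  have t1 : Tm K s * FX K s = PT (H * M) * FX K s := rfl
  have t2 : FX K s * Tm K s = FX K s * PT (H * M) := rfl
  clear_value H H' FW FY V U M
  have hD : D4 K s 0 1 2 3 = FW + V * FY := by
    rw [hFW, hFY, hV]; unfold D4; simp only [mul_add, mul_assoc, add_assoc]
  have c1 := MM_F (K := K) (s := s) hK
  rw [← hM, hD] at c1
  have c2 := MM_K (K := K) (s := s)
  rw [← hM, ← hU, ← hH] at c2
  have hUV : U * V = 1 := by
    rw [hU, hV, mul_assoc, ← mul_assoc (op 1 (opK K s)), op_comm 1 0 (by decide), mul_assoc,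
      opopK, mul_one, opopK]
  have hVU : V * U = 1 := by
    rw [hU, hV, mul_assoc, ← mul_assoc (op 1 (opKi K s)), op_comm 1 0 (by decide), mul_assoc,
      opopKi, mul_one, opopKi]
  have hHH' : H * H' = 1 := by
    rw [hH, hH', mul_assoc, ← mul_assoc (op 3 (opK K s)), op_comm 3 2 (by decide), mul_assoc,
      opopK, mul_one, opopK]
  have hH'H : H' * H = 1 := by
    rw [hH, hH', mul_assoc, ← mul_assoc (op 3 (opKi K s)), op_comm 3 2 (by decide), mul_assoc,
      opopKi, mul_one, opopKi]
  have hcomm : ∀ A B : Matrix (Fin (s + 1)) (Fin (s + 1)) ℂ, ∀ i j : Fin 4, i ≠ j →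
      Commute (op i A) (op j B) := fun A B i j h => op_comm i j h A B
  -- operators on different factors commute
  have hHF : Commute H FW := by
    rw [hH, hFW]
    refine Commute.mul_left ?_ ?_
    · exact (hcomm _ _ _ _ (by decide)).add_right
        ((hcomm _ _ _ _ (by decide)).mul_right (hcomm _ _ _ _ (by decide)))
    · exact (hcomm _ _ _ _ (by decide)).add_right
        ((hcomm _ _ _ _ (by decide)).mul_right (hcomm _ _ _ _ (by decide)))
  have hHV : Commute H V := by
    rw [hH, hV]
    refine Commute.mul_left ?_ ?_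
    · exact (hcomm _ _ _ _ (by decide)).mul_right (hcomm _ _ _ _ (by decide))
    · exact (hcomm _ _ _ _ (by decide)).mul_right (hcomm _ _ _ _ (by decide))
  have hHU : Commute H U := by
    rw [hH, hU]
    refine Commute.mul_left ?_ ?_
    · exact (hcomm _ _ _ _ (by decide)).mul_right (hcomm _ _ _ _ (by decide))
    · exact (hcomm _ _ _ _ (by decide)).mul_right (hcomm _ _ _ _ (by decide))
  have hH'V : Commute H' V := by
    rw [hH', hV]
    refine Commute.mul_left ?_ ?_
    · exact (hcomm _ _ _ _ (by decide)).mul_right (hcomm _ _ _ _ (by decide))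
    · exact (hcomm _ _ _ _ (by decide)).mul_right (hcomm _ _ _ _ (by decide))
  -- partial trace of products with operators on X
  have pL : ∀ N, PT (FW * N) = FX K s * PT N := by
    intro N
    rw [hFW, add_mul, PT_add, PT_left0, mul_assoc, PT_left0, PT_left1, FX, add_mul, mul_assoc]
  have pR : ∀ N, PT (N * FW) = PT N * FX K s := by
    intro N
    rw [hFW, mul_add, PT_add, PT_right0, ← mul_assoc, PT_right1, PT_right0, FX, mul_add, mul_assoc]
  have pVL : ∀ N, PT (V * N) = ((opKi K s ⊗ₖ 1) * (1 ⊗ₖ opKi K s)) * PT N := by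
    intro N
    rw [hV, mul_assoc, PT_left0, PT_left1, mul_assoc]
  -- cyclicity in Y
  have cyc : ∀ (A B : Matrix (Fin (s + 1)) (Fin (s + 1)) ℂ)
      (N : Matrix (Fin 4 → Fin (s + 1)) (Fin 4 → Fin (s + 1)) ℂ),
      PT (op (2 : Fin 4) A * op 3 B * N) = PT (N * (op (2 : Fin 4) A * op 3 B)) := by
    intro A B N
    rw [mul_assoc, PT_cyc2, mul_assoc, PT_cyc3, mul_assoc]
  -- M V = V H' M H
  have hMV : M * V = V * H' * M * H := by
    calc M * V = (V * H' * (U * H)) * M * V := by
          have : V * H' * (U * H) = 1 := by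
            rw [mul_assoc V, ← mul_assoc H']
            have hH'U : H' * U = U * H' := by
              calc H' * U = H' * U * (H * H') := by rw [hHH', mul_one]
                _ = H' * (U * H) * H' := by simp only [mul_assoc]
                _ = H' * (H * U) * H' := by rw [hHU.eq]
                _ = U * H' := by rw [← mul_assoc H', hH'H, one_mul]
            rw [hH'U, mul_assoc U, hH'H, mul_one, hVU]
          rw [this, one_mul]
      _ = V * H' * ((U * H) * M) * V := by simp only [mul_assoc]
      _ = V * H' * (M * (U * H)) * V := by rw [c2]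
      _ = V * H' * M * (H * (U * V)) := by
          rw [← hHU.eq]; simp only [mul_assoc]
      _ = V * H' * M * H := by rw [hUV, mul_one]
  have key : PT (H * (V * FY) * M) = PT (H * M * (V * FY)) := by
    have e1 : H * M * (V * FY) = V * (M * (H * FY)) := by
      calc H * M * (V * FY) = H * (M * V) * FY := by simp only [mul_assoc]
        _ = H * (V * H' * M * H) * FY := by rw [hMV]
        _ = (H * V) * (H' * (M * (H * FY))) := by simp only [mul_assoc]
        _ = (V * H) * (H' * (M * (H * FY))) := by rw [hHV.eq]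
        _ = V * ((H * H') * (M * (H * FY))) := by simp only [mul_assoc]
        _ = V * (M * (H * FY)) := by rw [hHH', one_mul]
    have e2 : H * (V * FY) * M = V * (H * FY * M) := by
      calc H * (V * FY) * M = (H * V) * (FY * M) := by simp only [mul_assoc]
        _ = (V * H) * (FY * M) := by rw [hHV.eq]
        _ = V * (H * FY * M) := by simp only [mul_assoc]
    -- PT (H * FY * M) = PT (M * (H * FY))
    have hs : H * FY = op 2 (opK K s * opF K s) * op 3 (opK K s) +
        op 2 (opK K s * opKi K s) * op 3 (opK K s * opF K s) := by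
      have h1 : H * op 2 (opF K s) = op 2 (opK K s * opF K s) * op 3 (opK K s) := by
        rw [hH, mul_assoc, op_comm 3 2 (by decide), ← mul_assoc, ← op_mul]
      have h2 : H * (op 2 (opKi K s) * op 3 (opF K s)) =
          op 2 (opK K s * opKi K s) * op 3 (opK K s * opF K s) := by
        rw [hH, mul_assoc, ← mul_assoc (op 3 (opK K s)), op_comm 3 2 (by decide), mul_assoc,
          ← mul_assoc, ← op_mul, ← op_mul]
      rw [hFY, mul_add, h1, h2]
    have hfin : PT (H * FY * M) = PT (M * (H * FY)) := by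
      rw [hs, add_mul, mul_add, PT_add, PT_add, cyc, cyc]
    rw [e1, e2, pVL, pVL, hfin]
  rw [← pR] at t1
  rw [← pL, ← mul_assoc, ← hHF.eq] at t2
  have g1 : H * M * FW = H * M * (FW + V * FY) - H * M * (V * FY) := by
    rw [mul_add]; abel
  have g2 : H * FW * M = H * (FW + V * FY) * M - H * (V * FY) * M := by
    rw [mul_add, add_mul]; abel
  rw [t1, t2, g1, g2, PT_sub, PT_sub, key, mul_assoc H M, c1, mul_assoc H (FW + V * FY)]

end comm

end Pool.Agent.AEC
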