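import Mathlib

/-!
Identities in a complex algebra for `U_q(sl_2)` R-matrices.
-/

set_option autoImplicit false
set_option linter.unusedSectionVars false
set_option linter.unusedSimpArgs false

namespace Pool.Agent.AEC

variable {A : Type*} [Ring A] [Algebra ℂ A]

lemma pow_comm_smul {K E : A} {μ : ℂ} (h : K * E = μ • (E * K)) (l : ℕ) :
    K * E ^ l = μ ^ l • (E ^ l * K) := by
  induction l with
  | zero => simp
  | succ l ih =>
    rw [pow_succ, ← mul_assoc, ih, smul_mul_assoc, mul_assoc, h, mul_smul_comm, smul_smul,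
      ← mul_assoc, pow_succ]

lemma scal_aux1 {v w : ℂ} (hvw : v * w = 1) (hδ : v - w ≠ 0) (l : ℕ) :
    (v - w)⁻¹ * (v ^ 2) ^ (l + 1) + (v ^ (l + 1) - w ^ (l + 1)) / (v - w) ^ 2 * v ^ l =
        (v ^ (l + 1 + 1) - w ^ (l + 1 + 1)) / (v - w) ^ 2 * v ^ (l + 1) := by
  have h2 : v ^ l * w ^ l = 1 := by rw [← mul_pow, hvw, one_pow]
  have e : (v ^ 2) ^ (l + 1) = v ^ 2 * (v ^ l) ^ 2 := by ring
  rw [e]
  simp only [pow_succ _ (l + 1), pow_succ _ l]
  generalize v ^ l = a at *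
  generalize w ^ l = b at *
  field_simp
  linear_combination (-(v * a ^ 2) + w * a * b) * hvw

lemma scal_aux2 {v w : ℂ} (hvw : v * w = 1) (hδ : v - w ≠ 0) (l : ℕ) :
    (v - w)⁻¹ * (w ^ 2) ^ (l + 1) + (v ^ (l + 1) - w ^ (l + 1)) / (v - w) ^ 2 * w ^ l =
        (v ^ (l + 1 + 1) - w ^ (l + 1 + 1)) / (v - w) ^ 2 * w ^ (l + 1) := by
  have h2 : v ^ l * w ^ l = 1 := by rw [← mul_pow, hvw, one_pow]
  have e : (w ^ 2) ^ (l + 1) = w ^ 2 * (w ^ l) ^ 2 := by ring
  rw [e]
  simp only [pow_succ _ (l + 1), pow_succ _ l]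
  generalize v ^ l = a at *
  generalize w ^ l = b at *
  field_simp
  linear_combination (w * b ^ 2 - v * a * b) * hvw

/-- `E^(l+1) F = F E^(l+1) + [l+1] E^l (v^l K - v^(-l) K⁻¹)/(v - v⁻¹)`. -/
lemma Epow_F {E F K K' : A} {v w : ℂ} (hvw : v * w = 1) (hδ : v - w ≠ 0)
    (hKE : K * E = (v ^ 2) • (E * K)) (hK'E : K' * E = (w ^ 2) • (E * K'))
    (hEF : E * F - F * E = (v - w)⁻¹ • (K - K')) (l : ℕ) :
    E ^ (l + 1) * F = F * E ^ (l + 1) +
      ((v ^ (l + 1) - w ^ (l + 1)) / (v - w) ^ 2) • (E ^ l * (v ^ l • K - w ^ l • K')) := by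
  have hEF' : E * F = F * E + (v - w)⁻¹ • (K - K') := by
    rw [← hEF]; abel
  induction l with
  | zero =>
    simp only [zero_add, pow_one, pow_zero, one_mul, one_smul]
    rw [hEF']
    congr 2
    field_simp
  | succ l ih =>
    rw [pow_succ' E (l + 1), mul_assoc, ih, mul_add, ← mul_assoc, hEF', add_mul, mul_assoc F,
      add_assoc]
    congr 1
    rw [mul_smul_comm, ← mul_assoc, ← pow_succ', smul_mul_assoc, sub_mul,
      pow_comm_smul hKE, pow_comm_smul hK'E]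
    simp only [mul_sub, mul_smul_comm, smul_sub, smul_smul]
    rw [← scal_aux1 hvw hδ, ← scal_aux2 hvw hδ, add_smul, add_smul]
    abel

/-- Quasi-triangularity for `F`, before applying the Cartan part. -/
lemma theta_F {E F K K' F₂ : A} {v w : ℂ} (hvw : v * w = 1) (hδ : v - w ≠ 0)
    (hKE : K * E = (v ^ 2) • (E * K)) (hK'E : K' * E = (w ^ 2) • (E * K'))
    (hEF : E * F - F * E = (v - w)⁻¹ • (K - K'))
    (h2E : Commute F₂ E) (h2F : Commute F₂ F) (h2K' : Commute F₂ K')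
    (c : ℕ → ℂ) (hc0 : c 0 = 1) (N : ℕ)
    (hc : ∀ l, l + 1 ≤ N → c (l + 1) * (v ^ (l + 1) - w ^ (l + 1)) = c l * v ^ l * (v - w) ^ 2) :
    (∑ l ∈ Finset.range (N + 1), c l • (E ^ l * F₂ ^ l)) * (F + K' * F₂) -
      (F + K * F₂) * (∑ l ∈ Finset.range (N + 1), c l • (E ^ l * F₂ ^ l)) =
      (c N) • (E ^ N * (K' - (v ^ 2) ^ N • K) * F₂ ^ (N + 1)) := by
  induction N with
  | zero =>
    simp only [zero_add, Finset.sum_range_one, pow_zero, mul_one, one_mul, hc0, one_smul, pow_one]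
    noncomm_ring
  | succ N ih =>
    have ih' := ih (fun l hl => hc l (by omega))
    rw [Finset.sum_range_succ, add_mul, mul_add (F + K * F₂), add_sub_add_comm, ih']
    have hcN := hc N le_rfl
    have h1 := Epow_F hvw hδ hKE hK'E hEF N
    have hFE : ∀ n : ℕ, Commute (F₂ ^ n) F := fun n => h2F.pow_left n
    have hKE' := pow_comm_smul hKE (N + 1)
    -- compute the new term
    have t1 : (E ^ (N + 1) * F₂ ^ (N + 1)) * F = E ^ (N + 1) * F * F₂ ^ (N + 1) := by
      rw [mul_assoc, (hFE _).eq, ← mul_assoc]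
    have t2 : (E ^ (N + 1) * F₂ ^ (N + 1)) * (K' * F₂) = E ^ (N + 1) * K' * F₂ ^ (N + 2) := by
      rw [mul_assoc, ← mul_assoc (F₂ ^ (N + 1)), (h2K'.pow_left (N + 1)).eq, mul_assoc K',
        ← pow_succ, ← mul_assoc]
    have t3 : F * (E ^ (N + 1) * F₂ ^ (N + 1)) = F * E ^ (N + 1) * F₂ ^ (N + 1) := by
      rw [mul_assoc]
    have t4 : (K * F₂) * (E ^ (N + 1) * F₂ ^ (N + 1)) =
        (v ^ 2) ^ (N + 1) • (E ^ (N + 1) * K * F₂ ^ (N + 2)) := by
      rw [mul_assoc K, ← mul_assoc F₂, (h2E.pow_right (N + 1)).eq, mul_assoc (E ^ (N + 1)) F₂,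
        ← pow_succ', ← mul_assoc, hKE', smul_mul_assoc]
    have key : (c (N + 1) • (E ^ (N + 1) * F₂ ^ (N + 1))) * (F + K' * F₂) -
        (F + K * F₂) * (c (N + 1) • (E ^ (N + 1) * F₂ ^ (N + 1))) =
        (c (N + 1) * ((v ^ (N + 1) - w ^ (N + 1)) / (v - w) ^ 2)) •
          (E ^ N * (v ^ N • K - w ^ N • K') * F₂ ^ (N + 1)) +
        c (N + 1) • (E ^ (N + 1) * (K' - (v ^ 2) ^ (N + 1) • K) * F₂ ^ (N + 1 + 1)) := by
      rw [smul_mul_assoc, mul_smul_comm, ← smul_sub, mul_add, add_mul, t1, t2, t3, t4, h1]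
      rw [mul_sub (E ^ (N + 1)), sub_mul, mul_smul_comm, smul_mul_assoc, add_mul, smul_mul_assoc,
        mul_smul, ← smul_add]
      congr 1
      abel
    rw [key]
    have hs : c (N + 1) * ((v ^ (N + 1) - w ^ (N + 1)) / (v - w) ^ 2) = c N * v ^ N := by
      field_simp
      linear_combination hcN
    rw [hs, ← add_assoc]
    have hz : c N • (E ^ N * (K' - (v ^ 2) ^ N • K) * F₂ ^ (N + 1)) +
        (c N * v ^ N) • (E ^ N * (v ^ N • K - w ^ N • K') * F₂ ^ (N + 1)) = 0 := by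
      have h2 : v ^ N * w ^ N = 1 := by rw [← mul_pow, hvw, one_pow]
      have h3 : v ^ N * v ^ N = (v ^ 2) ^ N := by ring
      rw [mul_smul, ← smul_add, ← smul_mul_assoc, ← mul_smul_comm, smul_sub, smul_smul, smul_smul,
        h2, h3, ← add_mul, ← mul_add]
      simp
    rw [hz, zero_add]

lemma qexp_aux {x y : A} {v w : ℂ} (hvw : v * w = 1) (hxy : x * y = (v ^ 2) • (y * x))
    (c : ℕ → ℂ) (hc0 : c 0 = 1) (N : ℕ)
    (hc : ∀ l, l + 1 < N → c (l + 1) * (v ^ (l + 1) - w ^ (l + 1)) = c l * v ^ l * (v - w) ^ 2)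
    (hq : ∀ l, l + 1 < N → v ^ (l + 1) - w ^ (l + 1) ≠ 0) (l : ℕ) (hl : l < N) :
    ∑ p ∈ Finset.HasAntidiagonal.antidiagonal l, (c p.1 * c p.2) • (x ^ p.1 * y ^ p.2) = c l • (x + y) ^ l := by
  have hyx : y * x = (w ^ 2) • (x * y) := by
    rw [hxy, smul_smul]
    have : w ^ 2 * v ^ 2 = 1 := by linear_combination (w * v + 1) * hvw
    rw [this, one_smul]
  have hyx' : ∀ j : ℕ, y ^ j * x = (w ^ 2) ^ j • (x * y ^ j) := by
    intro j
    induction j with
    | zero => simp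
    | succ j ih =>
      rw [pow_succ' y, mul_assoc, ih, mul_smul_comm, ← mul_assoc, hyx, smul_mul_assoc, smul_smul,
        mul_assoc, pow_succ (w ^ 2)]
  induction l with
  | zero => simp [hc0]
  | succ l ih =>
    have ih' := ih (by omega)
    have hne := hq l hl
    have hcl := hc l hl
    suffices h : (v ^ (l + 1) - w ^ (l + 1)) •
        ∑ p ∈ Finset.HasAntidiagonal.antidiagonal (l + 1), (c p.1 * c p.2) • (x ^ p.1 * y ^ p.2) =
        (v ^ (l + 1) - w ^ (l + 1)) • (c (l + 1) • (x + y) ^ (l + 1)) by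
      have := congrArg (fun t => (v ^ (l + 1) - w ^ (l + 1))⁻¹ • t) h
      simp only [inv_smul_smul₀ hne] at this
      exact this
    have hR : (v ^ (l + 1) - w ^ (l + 1)) • (c (l + 1) • (x + y) ^ (l + 1)) =
        (v ^ l * (v - w) ^ 2) •
          ((∑ p ∈ Finset.HasAntidiagonal.antidiagonal l, (c p.1 * c p.2) • (x ^ p.1 * y ^ p.2)) * (x + y)) := by
      rw [ih', smul_smul, mul_comm _ (c (l + 1)), hcl, pow_succ (x + y), smul_mul_assoc, smul_smul]
      congr 1
      ring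
    rw [hR]
    have hL : (v ^ (l + 1) - w ^ (l + 1)) •
        ∑ p ∈ Finset.HasAntidiagonal.antidiagonal (l + 1), (c p.1 * c p.2) • (x ^ p.1 * y ^ p.2) =
        (∑ p ∈ Finset.HasAntidiagonal.antidiagonal (l + 1),
          ((v ^ p.1 - w ^ p.1) * w ^ p.2 * (c p.1 * c p.2)) • (x ^ p.1 * y ^ p.2)) +
        ∑ p ∈ Finset.HasAntidiagonal.antidiagonal (l + 1),
          (v ^ p.1 * (v ^ p.2 - w ^ p.2) * (c p.1 * c p.2)) • (x ^ p.1 * y ^ p.2) := by
      rw [Finset.smul_sum, ← Finset.sum_add_distrib]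
      refine Finset.sum_congr rfl fun p hp => ?_
      have hp' : p.1 + p.2 = l + 1 := by simpa using hp
      rw [smul_smul, ← add_smul, ← hp', pow_add, pow_add]
      congr 1
      ring
    rw [hL, Finset.Nat.sum_antidiagonal_succ, Finset.Nat.sum_antidiagonal_succ']
    simp only [pow_zero, sub_self, zero_mul, mul_zero, zero_smul, zero_add]
    rw [mul_add, smul_add, Finset.sum_mul, Finset.sum_mul, Finset.smul_sum, Finset.smul_sum]
    congr 1
    · refine Finset.sum_congr rfl fun p hp => ?_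
      have hp' : p.1 + p.2 = l := by simpa using hp
      rw [smul_mul_assoc, mul_assoc (x ^ p.1), hyx', mul_smul_comm, smul_smul, smul_smul,
        ← mul_assoc (x ^ p.1), ← pow_succ]
      congr 1
      have hc1 := hc p.1 (by omega)
      have h2 : v ^ p.2 * w ^ p.2 = 1 := by rw [← mul_pow, hvw, one_pow]
      have e1 : (w ^ 2) ^ p.2 = w ^ p.2 * w ^ p.2 := by ring
      rw [← hp', pow_add, e1]
      linear_combination (w ^ p.2 * c p.2) * hc1 -
        (v ^ p.1 * (v - w) ^ 2 * c p.1 * c p.2 * w ^ p.2) * h2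
    · refine Finset.sum_congr rfl fun p hp => ?_
      have hp' : p.1 + p.2 = l := by simpa using hp
      rw [smul_mul_assoc, mul_assoc (x ^ p.1), ← pow_succ, smul_smul]
      congr 1
      have hc1 := hc p.2 (by omega)
      rw [← hp', pow_add]
      linear_combination (v ^ p.1 * c p.1) * hc1

/-- Addition theorem for the truncated quantum exponential. -/
lemma qexp_add {x y z : A} {v w : ℂ} (hvw : v * w = 1) (hxy : x * y = (v ^ 2) • (y * x))
    (hzy : Commute z y)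
    (c : ℕ → ℂ) (hc0 : c 0 = 1) (N : ℕ) (hz : z ^ N = 0)
    (hc : ∀ l, l + 1 < N → c (l + 1) * (v ^ (l + 1) - w ^ (l + 1)) = c l * v ^ l * (v - w) ^ 2)
    (hq : ∀ l, l + 1 < N → v ^ (l + 1) - w ^ (l + 1) ≠ 0) :
    (∑ l ∈ Finset.range N, c l • (x ^ l * z ^ l)) * (∑ l ∈ Finset.range N, c l • (y ^ l * z ^ l)) =
      ∑ l ∈ Finset.range N, c l • ((x + y) ^ l * z ^ l) := by
  have hR : ∀ l ∈ Finset.range N, c l • ((x + y) ^ l * z ^ l) =
      ∑ p ∈ Finset.HasAntidiagonal.antidiagonal l, (c p.1 * c p.2) • (x ^ p.1 * y ^ p.2 * z ^ (p.1 + p.2)) := by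
    intro l hl
    rw [← smul_mul_assoc, ← qexp_aux hvw hxy c hc0 N hc hq l (by simpa using hl), Finset.sum_mul]
    refine Finset.sum_congr rfl fun p hp => ?_
    have hp' : p.1 + p.2 = l := by simpa using hp
    rw [smul_mul_assoc, hp']
  rw [Finset.sum_congr rfl hR, Finset.sum_mul_sum, ← Finset.sum_product']
  have hterm : ∀ p : ℕ × ℕ, (c p.1 • (x ^ p.1 * z ^ p.1)) * (c p.2 • (y ^ p.2 * z ^ p.2)) =
      (c p.1 * c p.2) • (x ^ p.1 * y ^ p.2 * z ^ (p.1 + p.2)) := by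
    intro p
    rw [smul_mul_smul_comm, mul_assoc (x ^ p.1), ← mul_assoc (z ^ p.1),
      (hzy.pow_pow p.1 p.2).eq, mul_assoc (y ^ p.2), ← pow_add, ← mul_assoc]
  simp only [hterm]
  have h1 : ∀ l ∈ Finset.range N, (Finset.HasAntidiagonal.antidiagonal l) =
      Finset.filter (fun p : ℕ × ℕ => p.1 + p.2 = l)
        (Finset.filter (fun p : ℕ × ℕ => p.1 + p.2 < N) (Finset.range N ×ˢ Finset.range N)) := by
    intro l hl
    have hl' : l < N := by simpa using hl
    ext p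
    simp only [Finset.HasAntidiagonal.mem_antidiagonal, Finset.mem_filter, Finset.mem_product, Finset.mem_range]
    omega
  have hS : ∑ l ∈ Finset.range N, ∑ p ∈ Finset.HasAntidiagonal.antidiagonal l,
      (c p.1 * c p.2) • (x ^ p.1 * y ^ p.2 * z ^ (p.1 + p.2)) =
      ∑ p ∈ Finset.filter (fun p : ℕ × ℕ => p.1 + p.2 < N) (Finset.range N ×ˢ Finset.range N),
      (c p.1 * c p.2) • (x ^ p.1 * y ^ p.2 * z ^ (p.1 + p.2)) := by
    rw [← Finset.sum_fiberwise_of_maps_to (t := Finset.range N)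
      (g := fun p : ℕ × ℕ => p.1 + p.2)]
    · refine Finset.sum_congr rfl fun l hl => ?_
      rw [h1 l hl]
    · intro p hp
      simp only [Finset.mem_filter] at hp
      simpa using hp.2
  rw [hS, Finset.sum_filter]
  refine Finset.sum_congr rfl fun p hp => ?_
  split_ifs with h
  · rfl
  · have : z ^ (p.1 + p.2) = 0 := by
      rw [← Nat.sub_add_cancel (Nat.le_of_not_lt h), pow_add, hz, mul_zero]
    rw [this, mul_zero, smul_zero]

end Pool.Agent.AEC
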