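import Pool.Agent.AEC.Defs
import Pool.Agent.AEC.Ops
import Pool.Agent.AEC.QAlg

/-!
Relations of the matrices `opE`, `opF` on `V_s`.
-/

set_option autoImplicit false
set_option linter.unusedSectionVars false
set_option linter.unusedSimpArgs false

open Matrix

namespace Pool.Agent.AEC

lemma vpow_add (K : ℕ) (x y : ℝ) : vpow K (x + y) = vpow K x * vpow K y := by
  simp only [vpow]
  rw [← Complex.exp_add]
  congr 1
  push_cast
  ring

lemma vpow_zero (K : ℕ) : vpow K 0 = 1 := by simp [vpow]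

lemma vpow_mul_neg (K : ℕ) (x : ℝ) : vpow K x * vpow K (-x) = 1 := by
  rw [← vpow_add]; simp [vpow_zero]

lemma vpow_neg_mul (K : ℕ) (x : ℝ) : vpow K (-x) * vpow K x = 1 := by
  rw [← vpow_add]; simp [vpow_zero]

lemma vpow_ne_zero (K : ℕ) (x : ℝ) : vpow K x ≠ 0 := Complex.exp_ne_zero _

lemma vpow_nat (K l : ℕ) : vpow K (l : ℝ) = vpow K 1 ^ l := by
  induction l with
  | zero => simp [vpow_zero]
  | succ l ih => rw [pow_succ, ← ih, ← vpow_add]; push_cast; rfl

lemma vpow_neg_nat (K l : ℕ) : vpow K (-(l : ℝ)) = vpow K (-1) ^ l := by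
  induction l with
  | zero => simp [vpow_zero]
  | succ l ih => rw [pow_succ, ← ih, ← vpow_add]; push_cast; congr 1; ring

lemma vpow_sub_neg (K : ℕ) (x : ℝ) :
    vpow K x - vpow K (-x) = 2 * Complex.I * (Real.sin (Real.pi * x / K) : ℝ) := by
  simp only [vpow]
  rw [Complex.ofReal_sin, Complex.sin]
  have h1 : (Real.pi * Complex.I * x / K : ℂ) = ((Real.pi * x / K : ℝ) : ℂ) * Complex.I := by
    push_cast; ring
  have h2 : (Real.pi * Complex.I * ((-x : ℝ) : ℂ) / K : ℂ) =
      -((Real.pi * x / K : ℝ) : ℂ) * Complex.I := by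
    push_cast; ring
  rw [h1, h2]
  have hI : Complex.I * Complex.I = -1 := Complex.I_mul_I
  linear_combination (Complex.exp (((Real.pi * x / K : ℝ) : ℂ) * Complex.I) -
    Complex.exp (-((Real.pi * x / K : ℝ) : ℂ) * Complex.I)) * hI

lemma sin_pos_aux {K m : ℕ} (hm : 0 < m) (hmK : m < K) : 0 < Real.sin (Real.pi * m / K) := by
  have hK : (0 : ℝ) < K := by exact_mod_cast (by omega : 0 < K)
  have hm' : (0 : ℝ) < m := by exact_mod_cast hm
  have hmK' : (m : ℝ) < K := by exact_mod_cast hmK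
  apply Real.sin_pos_of_pos_of_lt_pi
  · positivity
  · rw [div_lt_iff₀ hK]
    have := Real.pi_pos
    nlinarith

lemma vpow_sub_neg_ne {K m : ℕ} (hm : 0 < m) (hmK : m < K) :
    vpow K (m : ℝ) - vpow K (-(m : ℝ)) ≠ 0 := by
  rw [vpow_sub_neg]
  have := sin_pos_aux hm hmK
  have h2 : ((Real.sin (Real.pi * m / K) : ℝ) : ℂ) ≠ 0 := by exact_mod_cast this.ne'
  exact mul_ne_zero (mul_ne_zero two_ne_zero Complex.I_ne_zero) h2

lemma delta_ne {K : ℕ} (hK : 2 ≤ K) : vpow K 1 - vpow K (-1) ≠ 0 := by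
  have := vpow_sub_neg_ne (K := K) (m := 1) one_pos (by omega)
  simpa using this

lemma vw_one (K : ℕ) : vpow K 1 * vpow K (-1) = 1 := by
  rw [← vpow_add]; simp [vpow_zero]

lemma qint_mul (K m : ℕ) (hK : 2 ≤ K) :
    qint K m * (vpow K 1 - vpow K (-1)) = vpow K m - vpow K (-m) := by
  rw [qint, div_mul_cancel₀ _ (delta_ne hK)]

lemma qint_ne {K m : ℕ} (hm : 0 < m) (hmK : m < K) (hK : 2 ≤ K) : qint K m ≠ 0 := by
  rw [qint]
  exact div_ne_zero (vpow_sub_neg_ne hm hmK) (delta_ne hK)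

lemma qint_zero (K : ℕ) : qint K 0 = 0 := by simp [qint]

lemma rcoef_zero (K : ℕ) : rcoef K 0 = 1 := by simp [rcoef, qfact, vpow_zero]

lemma rcoef_succ {K l : ℕ} (hl : l + 1 < K) :
    rcoef K (l + 1) * (vpow K 1 ^ (l + 1) - vpow K (-1) ^ (l + 1)) =
      rcoef K l * vpow K 1 ^ l * (vpow K 1 - vpow K (-1)) ^ 2 := by
  have hK : 2 ≤ K := by omega
  have hq := qint_ne (K := K) (m := l + 1) (by omega) hl hK
  have hm := qint_mul K (l + 1) hK
  rw [← vpow_nat, ← vpow_neg_nat, ← hm]
  have hf : qfact K (l + 1) = qfact K l * qint K (l + 1) := by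
    rw [qfact, qfact, Finset.prod_range_succ]
  have hv : vpow K (((l + 1 : ℕ) : ℝ) * (((l + 1 : ℕ) : ℝ) - 1) / 2) =
      vpow K ((l : ℝ) * ((l : ℝ) - 1) / 2) * vpow K 1 ^ l := by
    rw [← vpow_nat, ← vpow_add]
    congr 1
    push_cast
    ring
  have hf0 : ∀ n, n ≤ l → qfact K n ≠ 0 := by
    intro n hn
    rw [qfact]
    apply Finset.prod_ne_zero_iff.mpr
    intro i hi
    have : i < n := by simpa using hi
    exact qint_ne (by omega) (by omega) hK
  have h0 := hf0 l le_rfl
  simp only [rcoef]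
  rw [hf, hv]
  field_simp
  ring

variable (K s : ℕ)

/-- `K^{-1}` on `V_s`. -/
noncomputable def opKi : Matrix (Fin (s + 1)) (Fin (s + 1)) ℂ :=
  Matrix.diagonal fun j => vpow K (-(wt s j))

/-- `K` on `V_s`. -/
noncomputable def opK : Matrix (Fin (s + 1)) (Fin (s + 1)) ℂ :=
  Matrix.diagonal fun j => vpow K (wt s j)

lemma opK_mul_opKi : opK K s * opKi K s = 1 := by
  rw [opK, opKi, Matrix.diagonal_mul_diagonal]
  simp [vpow_mul_neg]

lemma opKi_mul_opK : opKi K s * opK K s = 1 := by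
  rw [opK, opKi, Matrix.diagonal_mul_diagonal]
  simp [vpow_neg_mul]

variable {K s}

lemma opE_wt {i j : Fin (s + 1)} (h : opE K s i j ≠ 0) : wt s i = wt s j + 2 := by
  simp only [opE, Matrix.of_apply] at h
  have h1 : (i : ℕ) + 1 = j := by
    by_contra hc; simp [hc] at h
  simp only [wt]
  rw [← h1]
  push_cast
  ring

lemma opF_wt {i j : Fin (s + 1)} (h : opF K s i j ≠ 0) : wt s i = wt s j + (-2) := by
  simp only [opF, Matrix.of_apply] at h
  have h1 : (i : ℕ) = j + 1 := by
    by_contra hc; simp [hc] at h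
  simp only [wt]
  rw [h1]
  push_cast
  ring

lemma diag_conj {A : Matrix (Fin (s + 1)) (Fin (s + 1)) ℂ} {t : ℝ}
    (hA : ∀ i j, A i j ≠ 0 → wt s i = wt s j + t) (x : ℝ) :
    Matrix.diagonal (fun j => vpow K (x * wt s j)) * A =
      vpow K (x * t) • (A * Matrix.diagonal (fun j => vpow K (x * wt s j))) := by
  ext i j
  rw [Matrix.diagonal_mul, Matrix.smul_apply, Matrix.mul_diagonal, smul_eq_mul]
  by_cases h : A i j = 0
  · simp [h]
  · rw [hA i j h, mul_add, vpow_add]
    ring

lemma opK_eq : opK K s = Matrix.diagonal (fun j => vpow K (1 * wt s j)) := by simp [opK]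
lemma opKi_eq : opKi K s = Matrix.diagonal (fun j => vpow K ((-1) * wt s j)) := by simp [opKi]

lemma K_E : opK K s * opE K s = (vpow K 1 ^ 2) • (opE K s * opK K s) := by
  rw [opK_eq, diag_conj (fun i j h => opE_wt h), ← vpow_nat]
  norm_num

lemma Ki_E : opKi K s * opE K s = (vpow K (-1) ^ 2) • (opE K s * opKi K s) := by
  rw [opKi_eq, diag_conj (fun i j h => opE_wt h), ← vpow_neg_nat]
  norm_num

lemma K_F : opK K s * opF K s = (vpow K (-1) ^ 2) • (opF K s * opK K s) := by
  rw [opK_eq, diag_conj (fun i j h => opF_wt h), ← vpow_neg_nat]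
  norm_num

lemma Ki_F : opKi K s * opF K s = (vpow K 1 ^ 2) • (opF K s * opKi K s) := by
  rw [opKi_eq, diag_conj (fun i j h => opF_wt h), ← vpow_nat]
  norm_num

lemma qint_ident {K : ℕ} (hK : 2 ≤ K) (a b : ℕ) :
    qint K a * qint K (b + 1) - qint K b * qint K (a + 1) =
      (vpow K 1 - vpow K (-1))⁻¹ * (vpow K ((a : ℝ) - b) - vpow K (-((a : ℝ) - b))) := by
  have hd := delta_ne hK
  simp only [qint]
  have e1 : vpow K ((a + 1 : ℕ) : ℝ) = vpow K a * vpow K 1 := by rw [← vpow_add]; push_cast; rfl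
  have e2 : vpow K (-((a + 1 : ℕ) : ℝ)) = vpow K (-a) * vpow K (-1) := by
    rw [← vpow_add]; push_cast; congr 1; ring
  have e3 : vpow K ((b + 1 : ℕ) : ℝ) = vpow K b * vpow K 1 := by rw [← vpow_add]; push_cast; rfl
  have e4 : vpow K (-((b + 1 : ℕ) : ℝ)) = vpow K (-b) * vpow K (-1) := by
    rw [← vpow_add]; push_cast; congr 1; ring
  have e5 : vpow K ((a : ℝ) - b) = vpow K a * vpow K (-b) := by rw [← vpow_add]; congr 1
  have e6 : vpow K (-((a : ℝ) - b)) = vpow K (-a) * vpow K b := by rw [← vpow_add]; congr 1; ring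
  rw [e1, e2, e3, e4, e5, e6]
  field_simp
  ring

lemma EF_apply (i j : Fin (s + 1)) :
    (opE K s * opF K s) i j = if i = j then qint K (s - i) * qint K (i + 1) else 0 := by
  rw [Matrix.mul_apply]
  simp only [opE, opF, Matrix.of_apply]
  by_cases hij : i = j
  · subst hij
    rw [if_pos rfl]
    by_cases hi : (i : ℕ) + 1 < s + 1
    · rw [Finset.sum_eq_single (⟨(i : ℕ) + 1, hi⟩ : Fin (s + 1))]
      · simp
      · intro k _ hk
        have : ¬ ((i : ℕ) + 1 = (k : ℕ)) := fun h => hk (Fin.ext h.symm)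
        simp [this]
      · simp
    · have his : (i : ℕ) = s := by omega
      have h0 : s - (i : ℕ) = 0 := by omega
      rw [h0, qint_zero, zero_mul]
      apply Finset.sum_eq_zero
      intro k _
      have : ¬ ((i : ℕ) + 1 = (k : ℕ)) := by omega
      simp [this]
  · rw [if_neg hij]
    apply Finset.sum_eq_zero
    intro k _
    by_cases h1 : (i : ℕ) + 1 = (k : ℕ)
    · by_cases h2 : (k : ℕ) = (j : ℕ) + 1
      · exfalso; apply hij; apply Fin.ext; omega
      · simp [h2]
    · simp [h1]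

lemma FE_apply (i j : Fin (s + 1)) :
    (opF K s * opE K s) i j = if i = j then qint K i * qint K (s + 1 - i) else 0 := by
  rw [Matrix.mul_apply]
  simp only [opE, opF, Matrix.of_apply]
  by_cases hij : i = j
  · subst hij
    rw [if_pos rfl]
    by_cases hi : (i : ℕ) = 0
    · rw [hi, qint_zero, zero_mul]
      apply Finset.sum_eq_zero
      intro k _
      have : ¬ ((0 : ℕ) = (k : ℕ) + 1) := by omega
      simp [this]
    · rw [Finset.sum_eq_single (⟨(i : ℕ) - 1, by omega⟩ : Fin (s + 1))]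
      · have h1 : (i : ℕ) = (i : ℕ) - 1 + 1 := by omega
        simp only [Fin.val_mk]
        rw [if_pos h1, if_pos h1.symm, ← h1]
      · intro k _ hk
        have : ¬ ((i : ℕ) = (k : ℕ) + 1) := by
          intro h; apply hk; apply Fin.ext; simp only [Fin.val_mk]; omega
        simp [this]
      · simp
  · rw [if_neg hij]
    apply Finset.sum_eq_zero
    intro k _
    by_cases h1 : (i : ℕ) = (k : ℕ) + 1
    · by_cases h2 : (k : ℕ) + 1 = (j : ℕ)
      · exfalso; apply hij; apply Fin.ext; omega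
      · simp [h2]
    · simp [h1]

lemma EF_comm (hK : 2 ≤ K) : opE K s * opF K s - opF K s * opE K s =
    (vpow K 1 - vpow K (-1))⁻¹ • (opK K s - opKi K s) := by
  ext i j
  rw [Matrix.sub_apply, EF_apply, FE_apply, Matrix.smul_apply, Matrix.sub_apply, opK, opKi,
    Matrix.diagonal_apply, Matrix.diagonal_apply]
  by_cases hij : i = j
  · subst hij
    simp only [if_true, smul_eq_mul]
    have h1 : s + 1 - (i : ℕ) = (s - (i : ℕ)) + 1 := by omega
    rw [h1, qint_ident hK]
    have h2 : (((s - (i : ℕ) : ℕ) : ℝ) - ((i : ℕ) : ℝ)) = wt s i := by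
      have : (i : ℕ) ≤ s := by omega
      simp only [wt]
      push_cast [Nat.cast_sub this]
      ring
    rw [h2]
  · simp [hij]

lemma opE_pow_apply {l : ℕ} {i j : Fin (s + 1)} (h : (opE K s ^ l) i j ≠ 0) :
    (i : ℕ) + l = j := by
  induction l generalizing i with
  | zero =>
    rw [pow_zero, Matrix.one_apply] at h
    have : i = j := by by_contra hc; simp [hc] at h
    simp [this]
  | succ l ih =>
    rw [pow_succ', Matrix.mul_apply] at h
    obtain ⟨k, _, hk⟩ := Finset.exists_ne_zero_of_sum_ne_zero h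
    have h1 := left_ne_zero_of_mul hk
    have h2 := ih (right_ne_zero_of_mul hk)
    simp only [opE, Matrix.of_apply] at h1
    have h3 : (i : ℕ) + 1 = k := by by_contra hc; simp [hc] at h1
    omega

lemma opF_pow_apply {l : ℕ} {i j : Fin (s + 1)} (h : (opF K s ^ l) i j ≠ 0) :
    (i : ℕ) = j + l := by
  induction l generalizing i with
  | zero =>
    rw [pow_zero, Matrix.one_apply] at h
    have : i = j := by by_contra hc; simp [hc] at h
    simp [this]
  | succ l ih =>
    rw [pow_succ', Matrix.mul_apply] at h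
    obtain ⟨k, _, hk⟩ := Finset.exists_ne_zero_of_sum_ne_zero h
    have h1 := left_ne_zero_of_mul hk
    have h2 := ih (right_ne_zero_of_mul hk)
    simp only [opF, Matrix.of_apply] at h1
    have h3 : (i : ℕ) = k + 1 := by by_contra hc; simp [hc] at h1
    omega

lemma opF_pow_zero : opF K s ^ (s + 1) = 0 := by
  ext i j
  by_contra h
  have := opF_pow_apply h
  omega

end Pool.Agent.AEC
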